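import Mathlib

/-!
The polynomials `ω_n = X^(p^n) - 1` and `Ψ_n = Σ_{i<p} X^(i p^n)` over the integers.
-/

set_option autoImplicit false

namespace Pool.Agent.Helper85.ProP

open Polynomial

/-- `X^(p^n) - 1` -/
noncomputable def Om (p n : ℕ) : ℤ[X] := X ^ p ^ n - 1

/-- `Σ_{i<p} X^(i p^n)` -/
noncomputable def Ps (p n : ℕ) : ℤ[X] := ∑ i ∈ Finset.range p, X ^ (i * p ^ n)

lemma om_mul_ps (p n : ℕ) : Om p n * Ps p n = Om p (n + 1) := by
  unfold Om Ps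
  rw [mul_comm, pow_succ, pow_mul]
  have h : ∀ i, (X : ℤ[X]) ^ (i * p ^ n) = (X ^ p ^ n) ^ i := fun i => by
    rw [← pow_mul, mul_comm]
  simp only [h]
  exact geom_sum_mul _ _

lemma om_dvd_pow (p n b : ℕ) : Om p n ∣ X ^ (p ^ n * b) - 1 := by
  unfold Om
  rw [pow_mul]
  simpa using sub_dvd_pow_sub_pow ((X : ℤ[X]) ^ p ^ n) 1 b

lemma om_dvd_om (p : ℕ) {n m : ℕ} (h : n ≤ m) : Om p n ∣ Om p m := by
  obtain ⟨k, rfl⟩ := Nat.exists_eq_add_of_le h
  have := om_dvd_pow p n (p ^ k)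
  rwa [← pow_add] at this

lemma ps_eq (p n : ℕ) : ∃ κ : ℤ[X], Ps p n = (p : ℤ[X]) + Om p n * κ := by
  have h : Om p n ∣ Ps p n - (p : ℤ[X]) := by
    have e : Ps p n - (p : ℤ[X]) = ∑ i ∈ Finset.range p, ((X : ℤ[X]) ^ (i * p ^ n) - 1) := by
      unfold Ps
      rw [Finset.sum_sub_distrib]
      simp
    rw [e]
    refine Finset.dvd_sum fun i _ => ?_
    rw [mul_comm]
    exact om_dvd_pow p n i
  obtain ⟨κ, hκ⟩ := h
  exact ⟨κ, by rw [← hκ]; ring⟩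

variable {p : ℕ} [hp : Fact p.Prime]

lemma ps_eq_cyclotomic (n : ℕ) : Ps p n = cyclotomic (p ^ (n + 1)) ℤ := by
  rw [cyclotomic_prime_pow_eq_geom_sum hp.out]
  unfold Ps
  refine Finset.sum_congr rfl fun i _ => ?_
  rw [← pow_mul, mul_comm]

lemma ps_monic (n : ℕ) : (Ps p n).Monic := by
  rw [ps_eq_cyclotomic]; exact cyclotomic.monic _ _

lemma ps_irreducible (n : ℕ) : Irreducible (Ps p n) := by
  rw [ps_eq_cyclotomic]
  exact cyclotomic.irreducible (pow_pos hp.out.pos _)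

lemma ps_prime (n : ℕ) : Prime (Ps p n) := (ps_irreducible n).prime

lemma ps_not_dvd_C (n : ℕ) {D : ℤ} (hD : D ≠ 0) : ¬ Ps p n ∣ C D := by
  intro h
  have h1 := natDegree_le_of_dvd h (by simpa using hD)
  rw [natDegree_C] at h1
  have h2 : 0 < (Ps p n).natDegree := by
    rw [ps_eq_cyclotomic, natDegree_cyclotomic]
    exact Nat.totient_pos.2 (pow_pos hp.out.pos _)
  omega

/-- Bezout -/
lemma ps_bezout (n : ℕ) (f : ℤ[X]) (h : ¬ Ps p n ∣ f) :
    ∃ (u v : ℤ[X]) (D : ℕ), D ≠ 0 ∧ u * f + v * Ps p n = (D : ℤ[X]) := by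
  set Q := Ps p n with hQ
  have hmon : Q.Monic := ps_monic n
  haveI : IsDomain (AdjoinRoot Q) := AdjoinRoot.isDomain_of_prime (ps_prime n)
  haveI : Module.Finite ℤ (AdjoinRoot Q) := hmon.finite_adjoinRoot
  have hne : AdjoinRoot.mk Q f ≠ 0 := by
    rw [Ne, AdjoinRoot.mk_eq_zero]; exact h
  have hint : IsIntegral ℤ (AdjoinRoot.mk Q f) := Algebra.IsIntegral.isIntegral _
  obtain ⟨r, hr0, hr⟩ := hint.isAlgebraic.exists_nonzero_dvd
    (mem_nonZeroDivisors_of_ne_zero hne)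
  obtain ⟨w, hw⟩ := hr
  obtain ⟨u, rfl⟩ := AdjoinRoot.mk_surjective w
  have h1 : AdjoinRoot.mk Q (C r) = AdjoinRoot.mk Q (f * u) := by
    rw [map_mul, ← hw]
    rfl
  rw [AdjoinRoot.mk_eq_mk] at h1
  obtain ⟨v, hv⟩ := h1
  -- `C r = f u + Q v`
  have h2 : u * f + v * Q = C r := by
    have : C r = f * u + Q * v := by rw [← hv]; ring
    rw [this]; ring
  have hrn : (C r) * (C (r.sign)) = ((r.natAbs : ℕ) : ℤ[X]) := by
    rw [← C_mul]
    have : r * r.sign = (r.natAbs : ℤ) := by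
      rw [mul_comm]; exact Int.sign_mul_self_eq_natAbs r
    rw [this]
    simp
  refine ⟨u * C r.sign, v * C r.sign, r.natAbs, by simpa using hr0, ?_⟩
  rw [← hrn, ← h2]
  ring

lemma ps_dvd_pow_sub_pow (n a b : ℕ) (h : Ps p n ∣ X ^ a - X ^ b) :
    a ≡ b [MOD p ^ (n + 1)] := by
  have hpos : p ^ (n + 1) ≠ 0 := (pow_pos hp.out.pos _).ne'
  have hζ := Complex.isPrimitiveRoot_exp (p ^ (n + 1)) hpos
  set ζ := Complex.exp (2 * Real.pi * Complex.I / ((p ^ (n + 1) : ℕ) : ℂ)) with hζd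
  obtain ⟨q, hq⟩ := h
  have h0 : aeval ζ (Ps p n) = 0 := by
    rw [ps_eq_cyclotomic, aeval_def, eval₂_eq_eval_map, map_cyclotomic]
    exact (hζ.isRoot_cyclotomic (pow_pos hp.out.pos _))
  have h1 : ζ ^ a - ζ ^ b = 0 := by
    have := congrArg (aeval ζ) hq
    rw [map_mul, h0, zero_mul] at this
    simpa using this
  have h2 : ζ ^ a = ζ ^ b := sub_eq_zero.1 h1
  have hu : IsUnit ζ := hζ.isUnit (pow_pos hp.out.pos _).ne'
  obtain ⟨z, hz⟩ := hu
  rw [← hz] at h2 hζ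
  have h3 : z ^ a = z ^ b := by
    apply Units.ext
    simpa using h2
  rw [pow_eq_pow_iff_modEq] at h3
  rwa [← (IsPrimitiveRoot.coe_units_iff.1 hζ).eq_orderOf] at h3

lemma ps_dvd_of_dvd_C_mul (n : ℕ) {D : ℤ} (hD : D ≠ 0) (f : ℤ[X]) (h : Ps p n ∣ C D * f) :
    Ps p n ∣ f := by
  rcases (ps_prime n).dvd_or_dvd h with h | h
  · exact absurd h (ps_not_dvd_C n hD)
  · exact h

/-- two of the polynomials generate an ideal containing `p` -/
lemma ps_pair {n m : ℕ} (hnm : n ≠ m) :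
    ∃ w : ℤ[X], Ps p n ∣ w - (p : ℤ[X]) ∧ Ps p m ∣ w := by
  rcases Nat.lt_or_ge n m with h | h
  · -- `Ψ_m = p + ω_m κ`, `Ψ_n ∣ ω_{n+1} ∣ ω_m`
    obtain ⟨κ, hκ⟩ := ps_eq p m
    refine ⟨Ps p m, ?_, dvd_rfl⟩
    rw [hκ, add_sub_cancel_left]
    refine Dvd.dvd.mul_right ?_ _
    exact (Dvd.intro_left _ (om_mul_ps p n)).trans (om_dvd_om p h)
  · have h' : m < n := by omega
    obtain ⟨κ, hκ⟩ := ps_eq p n
    obtain ⟨c, hc⟩ : Ps p m ∣ Om p n * κ :=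
      ((Dvd.intro_left _ (om_mul_ps p m)).trans (om_dvd_om p h')).mul_right _
    refine ⟨(p : ℤ[X]) - Ps p n, ?_, ?_⟩
    · rw [sub_sub_cancel_left]; exact dvd_neg.2 dvd_rfl
    · rw [hκ, sub_add_cancel_left, hc]
      exact dvd_neg.2 (Dvd.intro _ rfl)

lemma ps_idem (F : Finset ℕ) (n : ℕ) (hn : n ∉ F) :
    ∃ w : ℤ[X], Ps p n ∣ w - (p : ℤ[X]) ^ F.card ∧ ∀ m ∈ F, Ps p m ∣ w := by
  induction F using Finset.induction_on with
  | empty => exact ⟨1, by simp, by simp⟩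
  | insert m F hm ih =>
    simp only [Finset.mem_insert, not_or] at hn
    obtain ⟨w, h1, h2⟩ := ih hn.2
    obtain ⟨w', h3, h4⟩ := ps_pair (p := p) hn.1
    refine ⟨w * w', ?_, ?_⟩
    · rw [Finset.card_insert_of_notMem hm, pow_succ]
      have : w * w' - (p : ℤ[X]) ^ F.card * p
          = (w - (p : ℤ[X]) ^ F.card) * w' + (p : ℤ[X]) ^ F.card * (w' - p) := by ring
      rw [this]
      exact dvd_add (h1.mul_right _) (h3.mul_left _)
    · intro l hl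
      rw [Finset.mem_insert] at hl
      rcases hl with rfl | hl
      · exact h4.mul_left _
      · exact (h2 l hl).mul_right _

/-- Chinese remainder theorem up to a power of `p` -/
lemma ps_crt (F : Finset ℕ) (D : ℕ) (hD : p ^ F.card ∣ D) (f : ℕ → ℤ[X]) :
    ∃ w : ℤ[X], ∀ n ∈ F, Ps p n ∣ w - (D : ℤ[X]) * f n := by
  classical
  obtain ⟨D', rfl⟩ := hD
  have hex : ∀ n, ∃ w : ℤ[X], n ∈ F → (Ps p n ∣ w - (p : ℤ[X]) ^ F.card ∧
      ∀ m ∈ F, m ≠ n → Ps p m ∣ w) := by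
    intro n
    by_cases hn : n ∈ F
    · obtain ⟨w, h1, h2⟩ := ps_idem (p := p) (F.erase n) n (by simp)
      refine ⟨w * p, fun _ => ⟨?_, ?_⟩⟩
      · have hc : F.card = (F.erase n).card + 1 := (Finset.card_erase_add_one hn).symm
        rw [hc, pow_succ, ← sub_mul]
        exact h1.mul_right _
      · intro m hm hmn
        exact (h2 m (Finset.mem_erase.2 ⟨hmn, hm⟩)).mul_right _
    · exact ⟨0, fun h => absurd h hn⟩
  choose w hw using hex
  refine ⟨∑ m ∈ F, (D' : ℤ[X]) * f m * w m, fun n hn => ?_⟩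
  rw [← Finset.add_sum_erase F _ hn]
  have e : (D' : ℤ[X]) * f n * w n + ∑ m ∈ F.erase n, (D' : ℤ[X]) * f m * w m
      - ((p ^ F.card * D' : ℕ) : ℤ[X]) * f n
      = (D' : ℤ[X]) * f n * (w n - (p : ℤ[X]) ^ F.card) +
        ∑ m ∈ F.erase n, (D' : ℤ[X]) * f m * w m := by
    push_cast; ring
  rw [e]
  refine dvd_add ((hw n hn).1.mul_left _) (Finset.dvd_sum fun m hm => ?_)
  rw [Finset.mem_erase] at hm
  exact ((hw m hm.2).2 n hn hm.1.symm).mul_left _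

end Pool.Agent.Helper85.ProP
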