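import Mathlib

/-!
First-order logic of groups: terms, formulas, satisfaction, Gödel numbers, decidable theories,
and a calculus of definable relations.
-/

set_option autoImplicit false

namespace Pool.Agent.Helper85.ProP

open Function

/-- Terms in the language of groups: the identity, variables `x_0, x_1, …`, products, inverses. -/
inductive Tm : Type
  | one : Tm
  | var (n : ℕ) : Tm
  | mul (s t : Tm) : Tm
  | inv (s : Tm) : Tm

/-- First-order formulas in the language of groups (with `¬`, `∧`, `∀ x_n` as primitives). -/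
inductive Fm : Type
  | eq (s t : Tm) : Fm
  | neg (φ : Fm) : Fm
  | and (φ ψ : Fm) : Fm
  | all (n : ℕ) (φ : Fm) : Fm

namespace Tm

/-- the value of a term in a group under an assignment of the variables -/
def eval {G : Type*} [Group G] (v : ℕ → G) : Tm → G
  | one => 1
  | var n => v n
  | mul s t => eval v s * eval v t
  | inv s => (eval v s)⁻¹

/-- the variables of a term -/
def vars : Tm → Finset ℕ
  | one => ∅
  | var n => {n}
  | mul s t => vars s ∪ vars t
  | inv s => vars s

/-- Gödel number of a term -/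
def code : Tm → ℕ
  | one => Nat.pair 0 0
  | var n => Nat.pair 1 n
  | mul s t => Nat.pair 2 (Nat.pair (code s) (code t))
  | inv s => Nat.pair 3 (code s)

end Tm

namespace Fm

/-- satisfaction of a formula in a group under an assignment of the variables -/
def Sat {G : Type*} [Group G] : Fm → (ℕ → G) → Prop
  | eq s t, v => s.eval v = t.eval v
  | neg φ, v => ¬ Sat φ v
  | and φ ψ, v => Sat φ v ∧ Sat ψ v
  | all n φ, v => ∀ a : G, Sat φ (update v n a)

/-- the free variables of a formula -/
def fv : Fm → Finset ℕ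
  | eq s t => s.vars ∪ t.vars
  | neg φ => fv φ
  | and φ ψ => fv φ ∪ fv ψ
  | all n φ => (fv φ).erase n

/-- Gödel number of a formula -/
def code : Fm → ℕ
  | eq s t => Nat.pair 0 (Nat.pair s.code t.code)
  | neg φ => Nat.pair 1 (code φ)
  | and φ ψ => Nat.pair 2 (Nat.pair (code φ) (code ψ))
  | all n φ => Nat.pair 3 (Nat.pair n (code φ))

end Fm

/-- The elementary theory of `G` is decidable: there is a computable function which, given the
Gödel number of a sentence (a formula without free variables), decides whether the sentence holds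
in `G`. -/
def DecTh (G : Type*) [Group G] : Prop :=
  ∃ f : ℕ → Bool, Computable f ∧
    ∀ φ : Fm, φ.fv = ∅ → (f φ.code = true ↔ ∀ v : ℕ → G, φ.Sat v)

theorem Tm.code_injective : Injective Tm.code := by
  intro s
  induction s with
  | one =>
    intro t h
    cases t <;> simp [Tm.code, Nat.pair_eq_pair] at h ⊢
  | var n =>
    intro t h
    cases t <;> simp [Tm.code, Nat.pair_eq_pair] at h ⊢
    exact h
  | mul s1 s2 ih1 ih2 =>
    intro t h
    cases t <;> simp [Tm.code, Nat.pair_eq_pair] at h ⊢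
    exact ⟨ih1 h.1, ih2 h.2⟩
  | inv s ih =>
    intro t h
    cases t <;> simp [Tm.code, Nat.pair_eq_pair] at h ⊢
    exact ih h

/-- different formulas have different Gödel numbers -/
theorem Fm.code_injective : Injective Fm.code := by
  intro s
  induction s with
  | eq s1 s2 =>
    intro t h
    cases t <;> simp [Fm.code, Nat.pair_eq_pair] at h ⊢
    exact ⟨Tm.code_injective h.1, Tm.code_injective h.2⟩
  | neg s ih =>
    intro t h
    cases t <;> simp [Fm.code, Nat.pair_eq_pair] at h ⊢
    exact ih h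
  | and s1 s2 ih1 ih2 =>
    intro t h
    cases t <;> simp [Fm.code, Nat.pair_eq_pair] at h ⊢
    exact ⟨ih1 h.1, ih2 h.2⟩
  | all n s ih =>
    intro t h
    cases t <;> simp [Fm.code, Nat.pair_eq_pair] at h ⊢
    exact ⟨h.1, ih h.2⟩

/-! ### a calculus of definable relations -/

section Def

variable {G : Type*} [Group G]

/-- `s` is given by a term with variables `< n` -/
def TF (n : ℕ) (s : (ℕ → G) → G) : Prop :=
  ∃ t : Tm, (∀ i ∈ t.vars, i < n) ∧ ∀ v, t.eval v = s v

/-- `P` is given by a formula with free variables `< n` -/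
def DF (n : ℕ) (P : (ℕ → G) → Prop) : Prop :=
  ∃ φ : Fm, (∀ i ∈ φ.fv, i < n) ∧ ∀ v : ℕ → G, φ.Sat v ↔ P v

lemma Tm.eval_congr (t : Tm) (v w : ℕ → G) (h : ∀ i ∈ t.vars, v i = w i) :
    t.eval v = t.eval w := by
  induction t with
  | one => rfl
  | var n => exact h n (by simp [Tm.vars])
  | mul s t ihs iht =>
    simp only [Tm.eval]
    rw [ihs (fun i hi => h i (by simp [Tm.vars, hi])),
      iht (fun i hi => h i (by simp [Tm.vars, hi]))]
  | inv s ih =>
    simp only [Tm.eval]
    rw [ih (fun i hi => h i hi)]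

lemma Fm.sat_congr (φ : Fm) (v w : ℕ → G) (h : ∀ i ∈ φ.fv, v i = w i) :
    φ.Sat v ↔ φ.Sat w := by
  induction φ generalizing v w with
  | eq s t =>
    simp only [Fm.Sat]
    rw [s.eval_congr v w (fun i hi => h i (by simp [Fm.fv, hi])),
      t.eval_congr v w (fun i hi => h i (by simp [Fm.fv, hi]))]
  | neg φ ih =>
    simp only [Fm.Sat]
    rw [ih v w h]
  | and φ ψ ih1 ih2 =>
    simp only [Fm.Sat]
    rw [ih1 v w (fun i hi => h i (by simp [Fm.fv, hi])),
      ih2 v w (fun i hi => h i (by simp [Fm.fv, hi]))]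
  | all n φ ih =>
    simp only [Fm.Sat]
    refine forall_congr' fun a => ih _ _ fun i hi => ?_
    by_cases hin : i = n
    · subst hin; simp
    · rw [update_of_ne hin, update_of_ne hin]
      exact h i (by simp [Fm.fv, hi, hin])

namespace TF

lemma mono {m n : ℕ} {s : (ℕ → G) → G} (h : TF m s) (hmn : m ≤ n) : TF n s := by
  obtain ⟨t, h1, h2⟩ := h
  exact ⟨t, fun i hi => (h1 i hi).trans_le hmn, h2⟩

lemma succ {n : ℕ} {s : (ℕ → G) → G} (h : TF n s) : TF (n + 1) s := h.mono (Nat.le_succ n)

lemma var {n i : ℕ} (h : i < n) : TF n (fun v : ℕ → G => v i) :=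
  ⟨Tm.var i, by simpa [Tm.vars] using h, fun _ => rfl⟩

lemma last (n : ℕ) : TF (n + 1) (fun v : ℕ → G => v n) := var (Nat.lt_succ_self n)

lemma one (n : ℕ) : TF n (fun _ : ℕ → G => (1 : G)) := ⟨Tm.one, by simp [Tm.vars], fun _ => rfl⟩

lemma mul {n : ℕ} {s t : (ℕ → G) → G} (hs : TF n s) (ht : TF n t) :
    TF n (fun v => s v * t v) := by
  obtain ⟨a, ha, ha'⟩ := hs
  obtain ⟨b, hb, hb'⟩ := ht
  refine ⟨Tm.mul a b, ?_, fun v => by simp [Tm.eval, ha', hb']⟩
  intro i hi
  simp only [Tm.vars, Finset.mem_union] at hi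
  rcases hi with hi | hi
  · exact ha i hi
  · exact hb i hi

lemma inv {n : ℕ} {s : (ℕ → G) → G} (hs : TF n s) : TF n (fun v => (s v)⁻¹) := by
  obtain ⟨a, ha, ha'⟩ := hs
  exact ⟨Tm.inv a, ha, fun v => by simp [Tm.eval, ha']⟩

lemma congr {n : ℕ} {s : (ℕ → G) → G} (hs : TF n s) {v w : ℕ → G} (h : ∀ i < n, v i = w i) :
    s v = s w := by
  obtain ⟨a, ha, ha'⟩ := hs
  rw [← ha', ← ha']
  exact a.eval_congr v w fun i hi => h i (ha i hi)

lemma upd {n : ℕ} {s : (ℕ → G) → G} (hs : TF n s) {k : ℕ} (hk : n ≤ k) (v : ℕ → G) (z : G) :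
    s (update v k z) = s v :=
  hs.congr fun i hi => update_of_ne (by omega) _ _

end TF

namespace DF

variable {n : ℕ} {P Q : (ℕ → G) → Prop}

lemma of_iff (h : DF n P) (h' : ∀ v, P v ↔ Q v) : DF n Q := by
  obtain ⟨φ, h1, h2⟩ := h
  exact ⟨φ, h1, fun v => (h2 v).trans (h' v)⟩

lemma mono {m : ℕ} (h : DF m P) (hmn : m ≤ n) : DF n P := by
  obtain ⟨φ, h1, h2⟩ := h
  exact ⟨φ, fun i hi => (h1 i hi).trans_le hmn, h2⟩

lemma congr (h : DF n P) {v w : ℕ → G} (hvw : ∀ i < n, v i = w i) : P v ↔ P w := by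
  obtain ⟨φ, h1, h2⟩ := h
  rw [← h2, ← h2]
  exact φ.sat_congr v w fun i hi => hvw i (h1 i hi)

lemma eq {s t : (ℕ → G) → G} (hs : TF n s) (ht : TF n t) : DF n (fun v => s v = t v) := by
  obtain ⟨a, ha, ha'⟩ := hs
  obtain ⟨b, hb, hb'⟩ := ht
  refine ⟨Fm.eq a b, ?_, fun v => by simp [Fm.Sat, ha', hb']⟩
  intro i hi
  simp only [Fm.fv, Finset.mem_union] at hi
  rcases hi with hi | hi
  · exact ha i hi
  · exact hb i hi

lemma not (h : DF n P) : DF n (fun v => ¬ P v) := by
  obtain ⟨φ, h1, h2⟩ := h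
  exact ⟨Fm.neg φ, h1, fun v => by simp [Fm.Sat, h2]⟩

lemma and (h : DF n P) (h' : DF n Q) : DF n (fun v => P v ∧ Q v) := by
  obtain ⟨φ, h1, h2⟩ := h
  obtain ⟨ψ, h1', h2'⟩ := h'
  refine ⟨Fm.and φ ψ, ?_, fun v => by simp [Fm.Sat, h2, h2']⟩
  intro i hi
  simp only [Fm.fv, Finset.mem_union] at hi
  rcases hi with hi | hi
  · exact h1 i hi
  · exact h1' i hi

lemma or (h : DF n P) (h' : DF n Q) : DF n (fun v => P v ∨ Q v) :=
  (h.not.and h'.not).not.of_iff fun v => by tauto

lemma imp (h : DF n P) (h' : DF n Q) : DF n (fun v => P v → Q v) :=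
  (h.and h'.not).not.of_iff fun v => by tauto

lemma true : DF n (fun _ : ℕ → G => True) :=
  (DF.eq (TF.one n) (TF.one n)).of_iff fun v => by simp

lemma false : DF n (fun _ : ℕ → G => False) := true.not.of_iff fun v => by simp

lemma all {R : (ℕ → G) → G → Prop} (h1 : ∀ v z w, R (update v n z) w ↔ R v w)
    (h2 : DF (n + 1) (fun v => R v (v n))) : DF n (fun v => ∀ z, R v z) := by
  obtain ⟨φ, h3, h4⟩ := h2
  refine ⟨Fm.all n φ, ?_, fun v => ?_⟩
  · intro i hi
    simp only [Fm.fv, Finset.mem_erase] at hi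
    have := h3 i hi.2
    omega
  · simp only [Fm.Sat]
    refine forall_congr' fun a => ?_
    rw [h4]
    show R (update v n a) (update v n a n) ↔ _
    rw [update_self, h1]

lemma ex {R : (ℕ → G) → G → Prop} (h1 : ∀ v z w, R (update v n z) w ↔ R v w)
    (h2 : DF (n + 1) (fun v => R v (v n))) : DF n (fun v => ∃ z, R v z) := by
  have := (DF.all (R := fun v z => ¬ R v z) (n := n) (fun v z w => by rw [h1]) h2.not).not
  exact this.of_iff fun v => by simp

lemma ballFin {ι : Type*} (s : Finset ι) {R : ι → (ℕ → G) → Prop} (h : ∀ i ∈ s, DF n (R i)) :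
    DF n (fun v => ∀ i ∈ s, R i v) := by
  classical
  induction s using Finset.induction_on with
  | empty => exact true.of_iff fun v => by simp
  | insert i s hi ih =>
    refine ((h i (by simp)).and (ih fun j hj => h j (by simp [hj]))).of_iff fun v => ?_
    simp

lemma bexList {ι : Type*} (s : List ι) {R : ι → (ℕ → G) → Prop} (h : ∀ i ∈ s, DF n (R i)) :
    DF n (fun v => ∃ i ∈ s, R i v) := by
  induction s with
  | nil => exact false.of_iff fun v => by simp
  | cons i s ih =>
    refine ((h i (by simp)).or (ih fun j hj => h j (by simp [hj]))).of_iff fun v => ?_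
    simp

end DF

/-- definable families of propositions, with the first `m` variables as parameters -/
structure D0 (m : ℕ) (P : (ℕ → G) → Prop) : Prop where
  dep : ∀ v n z, m ≤ n → P (update v n z) = P v
  df : ∀ n, m ≤ n → DF n P

/-- definable families of unary relations -/
structure D1 (m : ℕ) (P : (ℕ → G) → G → Prop) : Prop where
  dep : ∀ v n z, m ≤ n → P (update v n z) = P v
  df : ∀ n, m ≤ n → ∀ s, TF n s → DF n (fun v => P v (s v))

/-- definable families of binary relations -/
structure D2 (m : ℕ) (P : (ℕ → G) → G → G → Prop) : Prop where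
  dep : ∀ v n z, m ≤ n → P (update v n z) = P v
  df : ∀ n, m ≤ n → ∀ s t, TF n s → TF n t → DF n (fun v => P v (s v) (t v))

/-- definable families of ternary relations -/
structure D3 (m : ℕ) (P : (ℕ → G) → G → G → G → Prop) : Prop where
  dep : ∀ v n z, m ≤ n → P (update v n z) = P v
  df : ∀ n, m ≤ n → ∀ s t r, TF n s → TF n t → TF n r → DF n (fun v => P v (s v) (t v) (r v))

end Def

end Pool.Agent.Helper85.ProP
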