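import Pool.Agent.Helper85.ProP.Stmts

/-!
Statements of the topological building blocks.
-/

set_option autoImplicit false

namespace Pool.Agent.Helper85.ProP

open IsLocalRing

/-! ### points of `R` in the algebraic closure of `ℚ_p` -/

/-- A prime `q` with `p ∉ q` and `R ⧸ q` finite over `ℤ_p` is the kernel of a homomorphism to the
algebraic closure of `ℚ_p`, bounded by one. -/
def StmtPoint : Prop :=
  ∀ (p : ℕ) [Fact p.Prime] (R : Type) [CommRing R] [Algebra ℤ_[p] R] (q : Ideal R),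
    q.IsPrime → (p : R) ∉ q → Module.Finite ℤ_[p] (R ⧸ q) →
    ∃ φ : R →+* PadicAlgCl p, RingHom.ker φ = q ∧ ∀ r, ‖φ r‖ ≤ 1

/-! ### the group-like map for power series -/

/-- `∏ (1 + X_i)^{α_i}` in `ℤ_p[[X_1, …, X_d]]` -/
noncomputable def rhoS (p d : ℕ) [Fact p.Prime] (α : Fin d → ℤ_[p]) :
    MvPowerSeries (Fin d) ℤ_[p] :=
  fun n => ∏ i, Ring.choose (α i) (n i)

/-- the hypotheses hold for `ℤ_p[[X_1, …, X_d]]` -/
def StmtHyp : Prop :=
  ∀ (p d : ℕ) [Fact p.Prime], Hyp p (rhoS p d) ∧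
    ∀ i, rhoS p d (Pi.single i 1) = 1 + MvPowerSeries.X i

/-! ### modules over power series rings from commuting operators on compact groups -/

/-- A compact abelian group with commuting additive maps `T_1, …, T_d` such that arbitrarily small
open subgroups `U` are invariant, with `B ⧸ U` of `p`-power exponent and the `T_i` nilpotent on
`B ⧸ U`, is a module over `ℤ_p[[X_1, …, X_d]]`. -/
def StmtT1.{u} : Prop :=
  ∀ (p : ℕ) [Fact p.Prime] (d : ℕ) (B : Type u) [AddCommGroup B] [TopologicalSpace B]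
    [IsTopologicalAddGroup B] [CompactSpace B] [T2Space B] (T : Fin d → (B →+ B)),
    (∀ i j b, T i (T j b) = T j (T i b)) →
    (∀ V : Set B, IsOpen V → (0 : B) ∈ V → ∃ U : AddSubgroup B, IsOpen (U : Set B) ∧
      (U : Set B) ⊆ V ∧ (∀ i, ∀ b ∈ U, T i b ∈ U) ∧
      ∃ n : ℕ, ∀ b, p ^ n • b ∈ U ∧ ∀ i, (T i)^[n] b ∈ U) →
    ∃ _ : Module (MvPowerSeries (Fin d) ℤ_[p]) B,
      (∀ i b, (MvPowerSeries.X i : MvPowerSeries (Fin d) ℤ_[p]) • b = T i b) ∧
      (∀ U : AddSubgroup B, IsOpen (U : Set B) → ∃ n : ℕ,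
        ∀ r ∈ maximalIdeal (MvPowerSeries (Fin d) ℤ_[p]) ^ n, ∀ b : B, r • b ∈ U) ∧
      (∀ N : Submodule (MvPowerSeries (Fin d) ℤ_[p]) B, N.FG → IsClosed (N : Set B)) ∧
      (∀ N : AddSubgroup B, IsClosed (N : Set B) → (∀ i, ∀ b ∈ N, T i b ∈ N) →
        ∀ (r : MvPowerSeries (Fin d) ℤ_[p]), ∀ b ∈ N, r • b ∈ N)

/-! ### the group theory -/

/-- the commutator `a b a⁻¹ b⁻¹` -/
def cm {G : Type*} [Group G] (a b : G) : G := a * b * a⁻¹ * b⁻¹

/-- the centralizer of the commutator subgroup -/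
def centComm (G : Type*) [Group G] : Subgroup G :=
  Subgroup.centralizer {x : G | ∃ a b : G, x = cm a b}

/-- the centre of the centralizer of the commutator subgroup, as a subgroup of `G` -/
def AA (G : Type*) [Group G] : Subgroup G :=
  centComm G ⊓ Subgroup.centralizer (centComm G : Set G)

/-- finite rank: there is `r` such that every closed subgroup is topologically generated by
`r` elements -/
def FinRank (G : Type*) [Group G] [TopologicalSpace G] [IsTopologicalGroup G] : Prop :=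
  ∃ r : ℕ, ∀ H : Subgroup G, IsClosed (H : Set G) →
    ∃ f : Fin r → G, (Subgroup.closure (Set.range f)).topologicalClosure = H

/-- A finitely generated torsion-free metabelian pro-p group either has finite rank, or
`A = Z(C_G(G'))` is a finitely generated module `M` over `ℤ_p[[X_1, …, X_d]]` on which `G` acts
through `ρ(ℤ_p^d)`, and `M` has a prime `P` in its support with `p ∉ P` and `R ⧸ P` not finite over
`ℤ_p`. -/
def StmtTop.{u} : Prop :=
  ∀ (p : ℕ) [Fact p.Prime] (G : Type u) [Group G] [TopologicalSpace G] [IsTopologicalGroup G]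
    [CompactSpace G] [T2Space G] [TotallyDisconnectedSpace G],
    (∀ U : Subgroup G, U.Normal → IsOpen (U : Set G) → ∃ n : ℕ, U.index = p ^ n) →
    ∀ (d : ℕ) (x : Fin d → G), (Subgroup.closure (Set.range x)).topologicalClosure = ⊤ →
    (∀ (g : G) (n : ℕ), 0 < n → g ^ n = 1 → g = 1) →
    (∀ a b c d : G, cm a b * cm c d = cm c d * cm a b) →
    FinRank G ∨
    ∃ (M : Type u) (_ : AddCommGroup M) (_ : Module (MvPowerSeries (Fin d) ℤ_[p]) M)
      (_ : Module.Finite (MvPowerSeries (Fin d) ℤ_[p]) M) (π : G → M),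
      (∀ a ∈ AA G, ∀ b ∈ AA G, π (a * b) = π a + π b) ∧
      (∀ m : M, ∃ a ∈ AA G, π a = m) ∧
      (∀ a ∈ AA G, π a = 0 → a = 1) ∧
      (∀ h : G, ∃ q : Fin d → ℤ_[p], ∀ a ∈ AA G, π (h * a * h⁻¹) = rhoS p d q • π a) ∧
      (∀ q : Fin d → ℤ_[p], ∃ h : G, ∀ a ∈ AA G, π (h * a * h⁻¹) = rhoS p d q • π a) ∧
      ∃ P : Ideal (MvPowerSeries (Fin d) ℤ_[p]), P.IsPrime ∧
        Module.annihilator (MvPowerSeries (Fin d) ℤ_[p]) M ≤ P ∧
        (p : MvPowerSeries (Fin d) ℤ_[p]) ∉ P ∧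
        ¬ Module.Finite ℤ_[p] (MvPowerSeries (Fin d) ℤ_[p] ⧸ P)

end Pool.Agent.Helper85.ProP
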