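import Pool.Agent.Helper85.ProP.GSound
import Pool.Agent.Helper85.ProP.Poly

/-!
Completeness: halting runs can be coded when good parameters exist.
-/

set_option autoImplicit false
set_option linter.unusedSectionVars false

namespace Pool.Agent.Helper85.ProP

open Function Relation Polynomial

/-- good parameters `l_1, …, l_e, g` and `b` -/
structure GoodPar (p : ℕ) {G : Type*} [Group G] {V : Type*} [AddCommGroup V]
    (σ : G →* AddMonoid.End V) (ls : List G) (g : G) (b : V) : Prop where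
  inv : ∀ v ∈ Nn σ ls, σ g v ∈ Nn σ ls
  pow : ∀ h, σ h * σ g = σ g * σ h → Yy σ ls h ≤ Yy σ ls g → ¬ Yy σ ls h ≤ Nn σ ls →
    ∃ f, Yy σ ls h = Yy σ ls (g ^ p ^ f) ∧ ∀ n, ∃ a : ℕ, p ^ f ∣ a ∧ ¬ p ^ (f + 1) ∣ a ∧
      ∀ v, σ h v - (σ g ^ a) v ∈ Yy σ ls (g ^ p ^ n)
  strict : ∀ n, ¬ Yy σ ls (g ^ p ^ n) ≤ Yy σ ls (g ^ p ^ (n + 1))
  inf : ∀ n0, ∃ n, n0 ≤ n ∧ ∀ D : ℕ, D ≠ 0 →
    D • b ∉ Rg (∑ i ∈ Finset.range p, σ g ^ (i * p ^ n)) ⊔ Nn σ ls

/-- a chain of related elements as a sequence -/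
lemma exists_seq {α : Type*} {r : α → α → Prop} {a b : α} (h : ReflTransGen r a b) :
    ∃ (N : ℕ) (c : ℕ → α), c 0 = a ∧ c N = b ∧ ∀ t < N, r (c t) (c (t + 1)) := by
  induction h with
  | refl => exact ⟨0, fun _ => a, rfl, rfl, fun t ht => absurd ht (by omega)⟩
  | @tail x y _ h2 ih =>
    obtain ⟨N, c, h0, hN, hs⟩ := ih
    refine ⟨N + 1, fun t => if t ≤ N then c t else y, by simp [h0], by simp, fun t ht => ?_⟩
    rcases Nat.lt_or_ge t N with h | h
    · simp only [if_pos h.le, if_pos (Nat.succ_le_of_lt h)]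
      exact hs t h
    · have : t = N := by omega
      subst this
      simp only [le_refl, if_true, if_neg (Nat.not_succ_le_self t)]
      rw [hN]; exact h2

section

variable {p : ℕ} [hp : Fact p.Prime] {G : Type*} [Group G] {V : Type*} [AddCommGroup V]
    {σ : G →* AddMonoid.End V} {ls : List G} {g : G} {b : V}

/-- polynomials in `σ g` -/
noncomputable def ev (σ : G →* AddMonoid.End V) (g : G) (f : ℤ[X]) : AddMonoid.End V :=
  aeval (σ g) f

lemma ev_mul (f k : ℤ[X]) (v : V) : ev σ g (f * k) v = ev σ g f (ev σ g k v) := by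
  unfold ev; rw [map_mul]; rfl

lemma ev_add (f k : ℤ[X]) (v : V) : ev σ g (f + k) v = ev σ g f v + ev σ g k v := by
  unfold ev; rw [map_add]; rfl

lemma ev_sub (f k : ℤ[X]) (v : V) : ev σ g (f - k) v = ev σ g f v - ev σ g k v := by
  unfold ev; rw [map_sub]; rfl

lemma ev_natCast (n : ℕ) (v : V) : ev σ g (n : ℤ[X]) v = n • v := by
  unfold ev; rw [map_natCast]
  exact AddMonoid.End.natCast_apply n v

lemma ev_X_pow (n : ℕ) (v : V) : ev σ g (X ^ n) v = (σ g ^ n) v := by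
  unfold ev; simp

lemma ev_om (n : ℕ) : ev σ g (Om p n) = σ (g ^ p ^ n) - 1 := by
  unfold ev Om; simp

lemma ev_ps (n : ℕ) : ev σ g (Ps p n) = ∑ i ∈ Finset.range p, σ g ^ (i * p ^ n) := by
  unfold ev Ps; simp

lemma ev_mem (U : AddSubgroup V) (hU : ∀ v ∈ U, σ g v ∈ U) (f : ℤ[X]) {v : V} (hv : v ∈ U) :
    ev σ g f v ∈ U := by
  induction f using Polynomial.induction_on' generalizing v with
  | add f k hf hk => rw [ev_add]; exact U.add_mem (hf hv) (hk hv)
  | monomial n a =>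
    have h1 : ∀ n, ∀ v ∈ U, (σ g ^ n) v ∈ U := by
      intro n
      induction n with
      | zero => intro v hv; simpa using hv
      | succ n ih =>
        intro v hv
        rw [pow_succ]
        exact ih _ (hU v hv)
    have h2 : ev σ g (monomial n a) v = a • (σ g ^ n) v := by
      unfold ev
      rw [aeval_monomial, eq_intCast]
      show (a : AddMonoid.End V) ((σ g ^ n) v) = _
      exact AddMonoid.End.intCast_apply a _
    rw [h2]
    exact U.zsmul_mem (h1 n v hv) a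

lemma ev_comm (f : ℤ[X]) (v : V) : σ g (ev σ g f v) = ev σ g f (σ g v) := by
  have h1 : ∀ v, σ g v = ev σ g X v := fun v => by
    have := ev_X_pow (σ := σ) (g := g) 1 v
    rw [pow_one, pow_one] at this
    exact this.symm
  rw [h1, h1 v, ← ev_mul, ← ev_mul, mul_comm]

lemma rg_inv (f : ℤ[X]) : ∀ v ∈ Rg (ev σ g f), σ g v ∈ Rg (ev σ g f) := by
  rintro _ ⟨w, rfl⟩
  exact ⟨σ g w, (ev_comm f w).symm⟩

lemma sup_inv {U W : AddSubgroup V} (hU : ∀ v ∈ U, σ g v ∈ U) (hW : ∀ v ∈ W, σ g v ∈ W) :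
    ∀ v ∈ U ⊔ W, σ g v ∈ U ⊔ W := by
  intro v hv
  obtain ⟨a, ha, c, hc, rfl⟩ := AddSubgroup.mem_sup.1 hv
  rw [map_add]
  exact AddSubgroup.add_mem _ (AddSubgroup.mem_sup_left (hU a ha))
    (AddSubgroup.mem_sup_right (hW c hc))

/-- `Y_n` -/
lemma yn_eq (n : ℕ) : Yy σ ls (g ^ p ^ n) = Rg (ev σ g (Om p n)) ⊔ Nn σ ls := by
  rw [ev_om]; rfl

lemma rg_dvd {f k : ℤ[X]} (h : f ∣ k) : Rg (ev σ g k) ≤ Rg (ev σ g f) := by
  obtain ⟨q, rfl⟩ := h
  rintro _ ⟨w, rfl⟩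
  exact ⟨ev σ g q w, (ev_mul f q w).symm⟩

lemma yn_anti {n m : ℕ} (h : n ≤ m) : Yy σ ls (g ^ p ^ m) ≤ Yy σ ls (g ^ p ^ n) := by
  rw [yn_eq, yn_eq]
  exact sup_le_sup_right (rg_dvd (om_dvd_om p h)) _

variable (hN : ∀ v ∈ Nn σ ls, σ g v ∈ Nn σ ls)

include hN

lemma yn_inv (n : ℕ) : ∀ v ∈ Yy σ ls (g ^ p ^ n), σ g v ∈ Yy σ ls (g ^ p ^ n) := by
  rw [yn_eq]
  exact sup_inv (rg_inv _) hN

/-- the key divisibility fact -/
lemma key_dvd (n : ℕ) (hgood : ∀ D : ℕ, D ≠ 0 → D • b ∉ Rg (ev σ g (Ps p n)) ⊔ Nn σ ls)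
    (f : ℤ[X]) (h : ev σ g (Om p n * f) b ∈ Yy σ ls (g ^ p ^ (n + 1))) : Ps p n ∣ f := by
  set U := Rg (ev σ g (Ps p n)) ⊔ Nn σ ls with hU
  have hUinv : ∀ v ∈ U, σ g v ∈ U := sup_inv (rg_inv _) hN
  rw [yn_eq, AddSubgroup.mem_sup] at h
  obtain ⟨_, ⟨m, rfl⟩, w, hw, he⟩ := h
  change ev σ g (Om p (n + 1)) m + w = _ at he
  set z := ev σ g f b - ev σ g (Ps p n) m with hz
  have h1 : ev σ g (Om p n) z ∈ Nn σ ls := by
    have e : ev σ g (Om p n) z = w := by
      rw [hz, map_sub, ← ev_mul, ← ev_mul, om_mul_ps, ← he]; abel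
    rw [e]; exact hw
  obtain ⟨κ, hκ⟩ := ps_eq p n
  have h2 : ev σ g (Ps p n) z = p • z + ev σ g κ (ev σ g (Om p n) z) := by
    have e : Ps p n = (p : ℤ[X]) + κ * Om p n := by rw [hκ]; ring
    rw [e, ev_add, ev_mul, ev_natCast]
  have h3 : p • z ∈ U := by
    have e : p • z = ev σ g (Ps p n) z - ev σ g κ (ev σ g (Om p n) z) := by rw [h2]; abel
    rw [e]
    exact U.sub_mem (AddSubgroup.mem_sup_left ⟨z, rfl⟩)
      (AddSubgroup.mem_sup_right (ev_mem _ hN κ h1))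
  have h4 : p • ev σ g f b ∈ U := by
    have e : p • ev σ g f b = p • z + p • ev σ g (Ps p n) m := by
      rw [← smul_add, hz]; congr 1; abel
    rw [e]
    exact U.add_mem h3 (U.nsmul_mem (AddSubgroup.mem_sup_left ⟨m, rfl⟩) p)
  by_contra hnd
  obtain ⟨u, v, D, hD, huv⟩ := ps_bezout n f hnd
  refine hgood (p * D) (Nat.mul_ne_zero hp.out.ne_zero hD) ?_
  have e1 : D • b = ev σ g u (ev σ g f b) + ev σ g (Ps p n) (ev σ g v b) := by
    rw [← ev_mul, ← ev_mul, ← ev_add, mul_comm (Ps p n) v, huv, ev_natCast]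
  have e2 : (p * D) • b = ev σ g u (p • ev σ g f b) + p • ev σ g (Ps p n) (ev σ g v b) := by
    rw [mul_smul, e1, smul_add, map_nsmul]
  rw [e2]
  exact U.add_mem (ev_mem U hUinv u h4)
    (U.nsmul_mem (AddSubgroup.mem_sup_left ⟨_, rfl⟩) p)

/-- comparison of `γ^a - 1` and `γ^(p^n) - 1` -/
lemma pow_iff (n a : ℕ) (h1 : p ^ n ∣ a) (h2 : ¬ p ^ (n + 1) ∣ a) (z : V) :
    (σ g ^ a) z - z ∈ Yy σ ls (g ^ p ^ (n + 1)) ↔
      ev σ g (Om p n) z ∈ Yy σ ls (g ^ p ^ (n + 1)) := by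
  have hinv := yn_inv (p := p) hN (n + 1)
  have e0 : (σ g ^ a) z - z = ev σ g (X ^ a - 1) z := by
    rw [ev_sub, ev_X_pow]
    unfold ev
    rw [map_one]; rfl
  obtain ⟨u, rfl⟩ := h1
  have hu : ¬ p ∣ u := by
    intro h
    apply h2
    rw [pow_succ]
    exact Nat.mul_dvd_mul_left _ h
  rw [e0]
  constructor
  · intro h
    have hco : Nat.Coprime u p := ((Nat.Prime.coprime_iff_not_dvd hp.out).2 hu).symm
    obtain ⟨m, -, hm⟩ := Nat.exists_mul_mod_eq_one_of_coprime hco hp.out.one_lt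
    set w := u * m / p with hw
    have hum : u * m = 1 + p * w := by
      have := Nat.mod_add_div (u * m) p
      rw [hm] at this
      exact this.symm
    obtain ⟨q, hq⟩ : (X : ℤ[X]) ^ (p ^ n * u) - 1 ∣ X ^ (p ^ n * u * m) - 1 := by
      have h3 := sub_dvd_pow_sub_pow ((X : ℤ[X]) ^ (p ^ n * u)) 1 m
      rwa [one_pow, ← pow_mul] at h3
    obtain ⟨r, hr⟩ := om_dvd_pow p (n + 1) w
    have e1 : Om p n = q * (X ^ (p ^ n * u) - 1) - X ^ p ^ n * (Om p (n + 1) * r) := by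
      rw [mul_comm q, ← hq, ← hr]
      have e2 : p ^ n * u * m = p ^ n + p ^ (n + 1) * w := by
        rw [mul_assoc, hum, pow_succ]; ring
      rw [e2, pow_add]
      unfold Om
      ring
    rw [e1, ev_sub, ev_mul, ev_mul]
    refine AddSubgroup.sub_mem _ (ev_mem _ hinv q h) (ev_mem _ hinv _ ?_)
    rw [ev_mul, yn_eq]
    exact AddSubgroup.mem_sup_left ⟨_, rfl⟩
  · intro h
    obtain ⟨q, hq⟩ := om_dvd_pow p n u
    rw [hq, mul_comm, ev_mul]
    exact ev_mem _ hinv q h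

end

/-! ### the main completeness theorem -/

theorem gcomplete {p : ℕ} [hp : Fact p.Prime] {G : Type*} [Group G] {A1 A2 : Subgroup G}
    {V : Type*} [AddCommGroup V] {π : G → V} {σ : G →* AddMonoid.End V}
    (M : Model A1 A2 π σ) {ls : List G} {g : G} {b : V} (H : GoodPar p σ ls g b)
    {K : ℕ} {L : List Tr} {q0 qf : ℕ} (hL : ∀ t ∈ L, t.r < K) (hK : 1 ≤ K) (n : ℕ)
    (hrun : ∃ c, ReflTransGen (mstep L) (cinit q0 n) c ∧ c 0 = qf) :
    ∃ (y h0 h1 : G) (x : ℕ → G), ∀ x' : ℕ → G, (∀ j ≤ K, x' j = x j) →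
      (sysG (· ∈ A1) (· ∈ A2) ls g y h0 h1 x').Good K L q0 qf (g ^ p ^ n) ∧
      (sysG (· ∈ A1) (· ∈ A2) ls g y h0 h1 x').Idx n (g ^ p ^ n) := by
  classical
  obtain ⟨cf, hcf, hcf0⟩ := hrun
  obtain ⟨N, c, hc0, hcN, hstep⟩ := exists_seq hcf
  have hN := H.inv
  set Y : ℕ → AddSubgroup V := fun n => Yy σ ls (g ^ p ^ n) with hY
  have hYlt : ∀ n, Y (n + 1) < Y n := fun n =>
    lt_of_le_not_ge (yn_anti (Nat.le_succ n)) (H.strict n)
  have hYanti : StrictAnti Y := strictAnti_nat_of_succ_lt hYlt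
  set I : G → Prop := gI (· ∈ A1) (· ∈ A2) ls g with hI
  have hIiff : ∀ h, I h ↔ (σ h * σ g = σ g * σ h ∧ (Yy σ ls h ≤ Yy σ ls g ∧
      ¬ Yy σ ls h ≤ Nn σ ls)) := fun h => M.I_iff ls g h
  have hex : ∀ h, ∃ f, I h → (Yy σ ls h = Y f ∧ ∀ n, ∃ a : ℕ, p ^ f ∣ a ∧ ¬ p ^ (f + 1) ∣ a ∧
      ∀ v, σ h v - (σ g ^ a) v ∈ Y n) := by
    intro h
    by_cases hh : I h
    · obtain ⟨a1, a2, a3⟩ := (hIiff h).1 hh
      obtain ⟨f, h1, h2⟩ := H.pow h a1 a2 a3
      exact ⟨f, fun _ => ⟨h1, h2⟩⟩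
    · exact ⟨0, fun h' => absurd h' hh⟩
  choose ν hν using hex
  have hgI : ∀ n, I (g ^ p ^ n) := by
    intro n
    rw [hIiff]
    refine ⟨?_, ?_, ?_⟩
    · rw [map_pow]; exact ((Commute.refl (σ g)).pow_left _).eq
    · have : Y n ≤ Y 0 := yn_anti (Nat.zero_le n)
      simpa [hY] using this
    · intro h
      exact H.strict n (h.trans (nn_le_yy σ ls _))
  have hgν : ∀ n, ν (g ^ p ^ n) = n := fun n => by
    have := (hν _ (hgI n)).1
    exact (hYanti.injective this).symm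
  have hle : ∀ h k, I h → I k → (gLe (· ∈ A1) (· ∈ A2) ls h k ↔ ν k ≤ ν h) := by
    intro h k hh hk
    rw [M.le_iff, (hν h hh).1, (hν k hk).1, hYanti.le_iff_ge]
  have hsurj : ∀ n, ∃ h, I h ∧ ν h = n := fun n => ⟨_, hgI n, hgν n⟩
  -- (5)
  have hE : ∀ x ∈ A1, ∀ h, I h → (gE (· ∈ A1) (· ∈ A2) ls g x h ↔
      ev σ g (Om p (ν h)) (π x) ∈ Y (ν h + 1)) := by
    intro x hx h hh
    obtain ⟨a, ha1, ha2, ha3⟩ := (hν h hh).2 (ν h + 1)
    rw [← pow_iff hN (ν h) a ha1 ha2]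
    have e : (σ h (π x) - π x ∈ Y (ν h + 1)) ↔ ((σ g ^ a) (π x) - π x ∈ Y (ν h + 1)) := by
      have h1 := ha3 (π x)
      constructor
      · intro h2
        have : (σ g ^ a) (π x) - π x = (σ h (π x) - π x) - (σ h (π x) - (σ g ^ a) (π x)) := by
          abel
        rw [this]; exact AddSubgroup.sub_mem _ h2 h1
      · intro h2
        have : σ h (π x) - π x = (σ h (π x) - (σ g ^ a) (π x)) + ((σ g ^ a) (π x) - π x) := by
          abel
        rw [this]; exact AddSubgroup.add_mem _ h1 h2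
    refine Iff.trans ?_ e
    unfold gE
    constructor
    · rintro ⟨k, hk1, hk2⟩
      have hkI : I k := hk1.2.1
      have := (Sys.succ_iff (sys0 (· ∈ A1) (· ∈ A2) ls g) ν hsurj hle h k hh hkI).1 hk1
      rw [M.F_iff ls h k hx, (hν k hkI).1, this] at hk2
      exact hk2
    · intro h2
      refine ⟨g ^ p ^ (ν h + 1), ?_, ?_⟩
      · rw [Sys.succ_iff (sys0 (· ∈ A1) (· ∈ A2) ls g) ν hsurj hle h _ hh (hgI _)]
        exact hgν _
      · rw [M.F_iff ls h _ hx]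
        exact h2
  -- good times
  set Gd : ℕ → Prop := fun n => ∀ D : ℕ, D ≠ 0 → D • b ∉ Rg (ev σ g (Ps p n)) ⊔ Nn σ ls with hGd
  have hGinf : ({n | Gd n} : Set ℕ).Infinite := by
    refine Set.infinite_of_not_bddAbove ?_
    rintro ⟨B, hB⟩
    obtain ⟨n, hn, hn'⟩ := H.inf (B + 1)
    have : n ≤ B := hB (show n ∈ {n | Gd n} from by
      intro D hD
      rw [ev_ps]
      exact hn' D hD)
    omega
  set t0 : ℕ := ∑ t ∈ Finset.range (N + 1), ∑ j ∈ Finset.range (K + 1), c t j with ht0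
  set τ : ℕ → ℕ := fun t => Nat.nth Gd (t0 + t) with hτ
  have hnth : StrictMono (Nat.nth Gd) := Nat.nth_strictMono hGinf
  have hτm : StrictMono τ := fun a b hab => hnth (by omega)
  have hτG : ∀ t, Gd (τ t) := fun t => Nat.nth_mem_of_infinite hGinf _
  have hτle : ∀ t ≤ N, ∀ j ≤ K, c t j ≤ τ t := by
    intro t ht j hj
    have h1 : c t j ≤ ∑ j ∈ Finset.range (K + 1), c t j :=
      Finset.single_le_sum (f := fun j => c t j) (fun _ _ => Nat.zero_le _)
        (Finset.mem_range.2 (by omega))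
    have h2 : ∑ j ∈ Finset.range (K + 1), c t j ≤ t0 :=
      Finset.single_le_sum (f := fun t => ∑ j ∈ Finset.range (K + 1), c t j)
        (fun _ _ => Nat.zero_le _) (Finset.mem_range.2 (by omega))
    have h3 : t0 + t ≤ Nat.nth Gd (t0 + t) := hnth.le_apply
    show c t j ≤ Nat.nth Gd (t0 + t)
    omega
  have hτcount : ∀ t, Nat.count Gd (τ t) = t0 + t := fun t => Nat.count_nth_of_infinite hGinf _
  have hτsurj : ∀ n, Gd n → τ 0 ≤ n → n ≤ τ N → ∃ t ≤ N, n = τ t := by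
    intro n hn h1 h2
    have h3 := Nat.nth_count hn
    have h4 : t0 ≤ Nat.count Gd n := by
      have := Nat.count_monotone Gd h1
      rw [hτcount 0] at this
      omega
    have h5 : Nat.count Gd n ≤ t0 + N := by
      have := Nat.count_monotone Gd h2
      rwa [hτcount N] at this
    refine ⟨Nat.count Gd n - t0, by omega, ?_⟩
    show n = Nat.nth Gd (t0 + (Nat.count Gd n - t0))
    rw [show t0 + (Nat.count Gd n - t0) = Nat.count Gd n by omega, h3]
  -- the multiplier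
  have hDex : ∀ n, ∃ D : ℕ, D ≠ 0 ∧ (¬ Gd n → D • b ∈ Rg (ev σ g (Ps p n)) ⊔ Nn σ ls) := by
    intro n
    by_cases hn : Gd n
    · exact ⟨1, one_ne_zero, fun h => absurd hn h⟩
    · simp only [hGd] at hn
      push Not at hn
      obtain ⟨D, hD, hD'⟩ := hn
      exact ⟨D, hD, fun _ => hD'⟩
  choose Dn hDn0 hDn using hDex
  set D : ℕ := p ^ (N + 1) * ∏ n ∈ Finset.range (τ N + 1), Dn n with hD
  have hD0 : D ≠ 0 := Nat.mul_ne_zero (pow_ne_zero _ hp.out.ne_zero)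
    (Finset.prod_ne_zero_iff.2 fun n _ => hDn0 n)
  have hDbad : ∀ n ≤ τ N, ¬ Gd n → D • b ∈ Rg (ev σ g (Ps p n)) ⊔ Nn σ ls := by
    intro n hn hbad
    have h1 : Dn n ∣ D := (Finset.dvd_prod_of_mem Dn (Finset.mem_range.2 (by omega))).mul_left _
    obtain ⟨q, hq⟩ := h1
    rw [hq, mul_comm, mul_smul]
    exact AddSubgroup.nsmul_mem _ (hDn n hbad) q
  -- the polynomials
  set F : Finset ℕ := (Finset.range (N + 1)).image τ with hF
  have hFc : F.card = N + 1 := by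
    rw [hF, Finset.card_image_of_injective _ hτm.injective, Finset.card_range]
  have hpD : p ^ F.card ∣ D := by rw [hFc]; exact Dvd.intro _ rfl
  have hlam : ∀ j, ∃ w : ℤ[X], ∀ t ≤ N, Ps p (τ t) ∣ w - (D : ℤ[X]) * X ^ p ^ c t j := by
    intro j
    obtain ⟨w, hw⟩ := ps_crt (p := p) F D hpD (fun n => X ^ p ^ c (Nat.count Gd n - t0) j)
    refine ⟨w, fun t ht => ?_⟩
    have := hw (τ t) (Finset.mem_image_of_mem _ (Finset.mem_range.2 (by omega)))
    rwa [hτcount, Nat.add_sub_cancel_left] at this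
  choose lam hlam using hlam
  obtain ⟨y, hyA, hy⟩ := M.surj (D • b)
  have hx : ∀ j, ∃ x ∈ A1, π x = ev σ g (lam j) b := fun j => M.surj _
  choose x hxA hxπ using hx
  refine ⟨y, g ^ p ^ τ 0, g ^ p ^ τ N, x, fun x' hx' => ?_⟩
  set S : Sys G := sysG (· ∈ A1) (· ∈ A2) ls g y (g ^ p ^ τ 0) (g ^ p ^ τ N) x' with hS
  have hEy : ∀ h, I h → ν h ≤ τ N → (gE (· ∈ A1) (· ∈ A2) ls g y h ↔ ¬ Gd (ν h)) := by
    intro h hh hle'
    rw [hE y hyA h hh, hy]
    constructor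
    · intro h1 h2
      have h3 : ev σ g (Om p (ν h) * (D : ℤ[X])) b ∈ Yy σ ls (g ^ p ^ (ν h + 1)) := by
        rw [ev_mul, ev_natCast]; exact h1
      have h4 := key_dvd hN (ν h) h2 _ h3
      refine ps_not_dvd_C (p := p) (ν h) (D := (D : ℤ)) (by exact_mod_cast hD0) ?_
      simpa using h4
    · intro h1
      have h2 := hDbad (ν h) hle' h1
      obtain ⟨_, ⟨w, rfl⟩, z, hz, he⟩ := AddSubgroup.mem_sup.1 h2
      rw [← he, map_add]
      show _ ∈ Yy σ ls (g ^ p ^ (ν h + 1))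
      refine AddSubgroup.add_mem _ ?_ (nn_le_yy σ ls _ (ev_mem _ hN _ hz))
      rw [yn_eq]
      refine AddSubgroup.mem_sup_left ⟨w, ?_⟩
      change ev σ g (Om p (ν h + 1)) w = ev σ g (Om p (ν h)) (ev σ g (Ps p (ν h)) w)
      rw [← ev_mul, om_mul_ps]
  have hT : ∀ h, S.T h ↔ S.I h ∧ ∃ t ≤ N, ν h = τ t := by
    intro h
    show (I h ∧ (gLe _ _ ls h (g ^ p ^ τ 0) ∧ (gLe _ _ ls (g ^ p ^ τ N) h ∧
      ¬ gE _ _ ls g y h))) ↔ (I h ∧ ∃ t ≤ N, ν h = τ t)
    constructor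
    · rintro ⟨hh, h1, h2, h3⟩
      rw [hle _ _ hh (hgI _), hgν] at h1
      rw [hle _ _ (hgI _) hh, hgν] at h2
      rw [hEy h hh h2, not_not] at h3
      exact ⟨hh, hτsurj _ h3 h1 h2⟩
    · rintro ⟨hh, t, ht, hht⟩
      have h2 : ν h ≤ τ N := by rw [hht]; exact hτm.monotone ht
      refine ⟨hh, ?_, ?_, ?_⟩
      · rw [hle _ _ hh (hgI _), hgν, hht]; exact hτm.monotone (Nat.zero_le _)
      · rw [hle _ _ (hgI _) hh, hgν]; exact h2
      · rw [hEy h hh h2, not_not, hht]; exact hτG t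
  have hRel : ∀ j ≤ K, ∀ t ≤ N, ∀ h k, S.I h → S.I k → ν h = τ t →
      (S.Rel j h k ↔ ν k = c t j) := by
    intro j hj t ht h k hh hk hht
    have hmemA : ∀ k' : G, x j * (k' * y * k'⁻¹)⁻¹ ∈ A1 := fun k' =>
      A1.mul_mem (hxA j) (A1.inv_mem (M.conj1 k' y hyA))
    have hπ : ∀ k' : G, π (x j * (k' * y * k'⁻¹)⁻¹) = ev σ g (lam j) b - σ k' (D • b) := by
      intro k'
      rw [M.mul _ (hxA j) _ (A1.inv_mem (M.conj1 k' y hyA)), M.inv (M.conj1 k' y hyA),
        M.act k' y hyA, hy, hxπ, sub_eq_add_neg]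
    show (∃ k', I k' ∧ ((gLe _ _ ls k k' ∧ gLe _ _ ls k' k) ∧
      gE _ _ ls g (x' j * (k' * y * k'⁻¹)⁻¹) h)) ↔ ν k = c t j
    rw [hx' j hj]
    constructor
    · rintro ⟨k', hk', ⟨hkk1, hkk2⟩, hEE⟩
      rw [hle _ _ hk hk'] at hkk1
      rw [hle _ _ hk' hk] at hkk2
      have hkk : ν k = ν k' := le_antisymm hkk2 hkk1
      rw [hE _ (hmemA k') h hh, hπ, hht] at hEE
      obtain ⟨a, ha1, ha2, ha3⟩ := (hν k' hk').2 (τ t + 1)
      have h5 : ev σ g (Om p (τ t) * (lam j - (D : ℤ[X]) * X ^ a)) b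
          ∈ Yy σ ls (g ^ p ^ (τ t + 1)) := by
        have e : ev σ g (Om p (τ t) * (lam j - (D : ℤ[X]) * X ^ a)) b
            = ev σ g (Om p (τ t)) (ev σ g (lam j) b - σ k' (D • b)) +
              ev σ g (Om p (τ t)) (σ k' (D • b) - (σ g ^ a) (D • b)) := by
          rw [ev_mul, ← map_add, ev_sub]
          congr 1
          rw [mul_comm (D : ℤ[X]), ev_mul, ev_natCast, ev_X_pow]
          abel
        rw [e]
        exact AddSubgroup.add_mem _ hEE (ev_mem _ (yn_inv hN _) _ (ha3 _))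
      have h6 := key_dvd hN (τ t) (hτG t) _ h5
      have h7 : Ps p (τ t) ∣ C (D : ℤ) * (X ^ p ^ c t j - X ^ a) := by
        have e : C (D : ℤ) * ((X : ℤ[X]) ^ p ^ c t j - X ^ a) =
            (lam j - (D : ℤ[X]) * X ^ a) - (lam j - (D : ℤ[X]) * X ^ p ^ c t j) := by
          simp only [map_natCast]
          ring
        rw [e]
        exact dvd_sub h6 (hlam j t ht)
      have h8 := ps_dvd_pow_sub_pow (τ t) _ _
        (ps_dvd_of_dvd_C_mul (τ t) (by exact_mod_cast hD0) _ h7)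
      have hcle := hτle t ht j hj
      have h9 : p ^ c t j ∣ a := by
        have h10 : p ^ c t j ∣ p ^ (τ t + 1) := pow_dvd_pow p (by omega)
        exact ((h8.dvd_iff h10).1 dvd_rfl)
      have h11 : ¬ p ^ (c t j + 1) ∣ a := by
        intro h12
        have h10 : p ^ (c t j + 1) ∣ p ^ (τ t + 1) := pow_dvd_pow p (by omega)
        have h13 : p ^ (c t j + 1) ∣ p ^ c t j := (h8.dvd_iff h10).2 h12
        have := (Nat.pow_dvd_pow_iff_le_right hp.out.one_lt).1 h13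
        omega
      rw [hkk]
      rcases Nat.lt_trichotomy (ν k') (c t j) with h12 | h12 | h12
      · exact absurd ((pow_dvd_pow p h12).trans h9) ha2
      · exact h12
      · exact absurd ((pow_dvd_pow p h12).trans ha1) h11
    · intro hk'
      refine ⟨g ^ p ^ c t j, hgI _, ⟨?_, ?_⟩, ?_⟩
      · rw [hle _ _ hk (hgI _), hgν, hk']
      · rw [hle _ _ (hgI _) hk, hgν, hk']
      · rw [hE _ (hmemA _) h hh, hπ, hht]
        have e : ev σ g (lam j) b - σ (g ^ p ^ c t j) (D • b) =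
            ev σ g (lam j - (D : ℤ[X]) * X ^ p ^ c t j) b := by
          rw [ev_sub, mul_comm (D : ℤ[X]), ev_mul, ev_natCast, ev_X_pow, map_pow]
        rw [e, ← ev_mul]
        show _ ∈ Yy σ ls (g ^ p ^ (τ t + 1))
        obtain ⟨q, hq⟩ := hlam j t ht
        rw [hq, ← mul_assoc, om_mul_ps, ev_mul, yn_eq]
        exact AddSubgroup.mem_sup_left ⟨_, rfl⟩
  refine ⟨?_, ?_⟩
  · exact Sys.complete S ν hsurj hle τ hτm N hT c hRel hL hK hc0 hstep (by rw [hcN, hcf0])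
      (hgI n) (hgν n)
  · exact (Sys.idx_iff S ν hsurj hle n _ (hgI n)).2 (hgν n)

/-! ### the engine -/

/-- The general undecidability theorem. -/
theorem engine {p : ℕ} [hp : Fact p.Prime] {G : Type*} [Group G] {A1 A2 : Subgroup G}
    (hA1 : D1 0 (fun _ : ℕ → G => (· ∈ A1))) (hA2 : D1 0 (fun _ : ℕ → G => (· ∈ A2)))
    {V : Type*} [AddCommGroup V] {π : G → V} {σ : G →* AddMonoid.End V}
    (M : Model A1 A2 π σ) (hsep : Sep σ) {ls : List G} {g : G} {b : V}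
    (H : GoodPar p σ ls g b) : ¬ DecTh G := by
  obtain ⟨St, hSt, K, L, q0, qf, hK, hL, hmach⟩ := Mach.exists_machine
  -- parameters: `g, y, h0, h1`, `x_0, …, x_K`, `l_1, …, l_e`
  set e := ls.length with he
  set m := 5 + K + e with hm
  set is : List ℕ := (List.range e).map (fun i => 5 + K + i) with his
  have hism : ∀ i ∈ is, i < m := by
    intro i hi
    simp only [his, List.mem_map, List.mem_range] at hi
    obtain ⟨j, hj, rfl⟩ := hi
    omega
  have HS := d_sysG hA1 hA2 hism (ig := 0) (by omega) (iy := 1) (i0 := 2) (i1 := 3)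
    (by omega) (by omega) (by omega) (fun j => 4 + min j K) (fun j => by omega)
  refine undec_of_sys HS St hSt K L q0 qf ?_ ?_
  · intro v Z n hG hZ
    rw [hmach]
    refine Sys.sound (sysG (· ∈ A1) (· ∈ A2) (is.map v) (v 0) (v 1) (v 2) (v 3)
        (fun j => v (4 + min j K))) (Yy σ (is.map v)) (fun h k => M.le_iff _ h k)
      (fun h hh => hh.1) ?_ hL hK hZ hG
    intro hchain h hh
    have hh' := (M.I_iff (is.map v) (v 0) h).1 hh
    refine (finite_above σ hsep (is.map v) (v 0) ?_ h hh').subset ?_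
    · intro a ha c hc
      have := hchain a ((M.I_iff _ _ _).2 ha) c ((M.I_iff _ _ _).2 hc)
      rwa [show (sysG (· ∈ A1) (· ∈ A2) (is.map v) (v 0) (v 1) (v 2) (v 3)
        (fun j => v (4 + min j K))).le = gLe (· ∈ A1) (· ∈ A2) (is.map v) from rfl,
        M.le_iff, M.le_iff] at this
    · rintro z ⟨k, hk, rfl, hlt⟩
      exact ⟨k, (M.I_iff _ _ _).1 hk, rfl, hlt⟩
  · intro n hn
    obtain ⟨y, h0, h1, x, hgood⟩ := gcomplete M H hL hK n ((hmach n).1 hn)
    -- the assignment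
    set v : ℕ → G := fun i =>
      if i = 0 then g else if i = 1 then y else if i = 2 then h0 else if i = 3 then h1 else
      if i ≤ 4 + K then x (i - 4) else ls.getD (i - (5 + K)) 1 with hv
    have hisv : is.map v = ls := by
      apply List.ext_getElem
      · simp [his, he]
      · intro i h1 h2
        simp only [his, List.map_map, List.getElem_map, List.getElem_range, Function.comp]
        simp only [hv]
        rw [if_neg (by omega), if_neg (by omega), if_neg (by omega), if_neg (by omega),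
          if_neg (by omega), Nat.add_sub_cancel_left, List.getD_eq_getElem _ _ h2]
    have hv0 : v 0 = g := by simp [hv]
    have hv1 : v 1 = y := by simp [hv]
    have hv2 : v 2 = h0 := by simp [hv]
    have hv3 : v 3 = h1 := by simp [hv]
    have hvx : ∀ j ≤ K, v (4 + min j K) = x j := by
      intro j hj
      simp only [hv]
      rw [if_neg (by omega), if_neg (by omega), if_neg (by omega), if_neg (by omega),
        if_pos (by omega)]
      congr 1
      omega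
    have hfin := hgood (fun j => v (4 + min j K)) hvx
    refine ⟨v, g ^ p ^ n, ?_⟩
    show (sysG (· ∈ A1) (· ∈ A2) (is.map v) (v 0) (v 1) (v 2) (v 3)
        (fun j => v (4 + min j K))).Good K L q0 qf (g ^ p ^ n) ∧
      (sysG (· ∈ A1) (· ∈ A2) (is.map v) (v 0) (v 1) (v 2) (v 3)
        (fun j => v (4 + min j K))).Idx n (g ^ p ^ n)
    rw [hisv, hv0, hv1, hv2, hv3]
    exact hfin

end Pool.Agent.Helper85.ProP
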