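import Pool.Agent.Helper85.ProP.GCompl

/-!
From good elements of the module to undecidability of the group.
-/

set_option autoImplicit false
set_option linter.unusedSectionVars false

namespace Pool.Agent.Helper85.ProP

open Function Relation Polynomial IsLocalRing

lemma mem_mulM {R : Type} [CommRing R] {V : Type*} [AddCommGroup V] [Module R V] (x : R) (v : V) :
    v ∈ mulM x V ↔ ∃ w : V, x • w = v := by
  unfold mulM
  rw [Submodule.ideal_span_singleton_smul, Submodule.mem_smul_pointwise_iff_exists]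
  simp

lemma mulM_le_iff {R : Type} [CommRing R] {V : Type*} [AddCommGroup V] [Module R V] (x : R)
    (N : Submodule R V) : mulM x V ≤ N ↔ ∀ v : V, x • v ∈ N := by
  constructor
  · intro h v
    exact h ((mem_mulM x _).2 ⟨v, rfl⟩)
  · intro h v hv
    obtain ⟨w, rfl⟩ := (mem_mulM x v).1 hv
    exact h w

lemma mulM_mono {R : Type} [CommRing R] {V : Type*} [AddCommGroup V] [Module R V] {x y : R}
    (h : x ∈ Ideal.span {y}) : mulM x V ≤ mulM y V :=
  Submodule.smul_mono_left ((Ideal.span_singleton_le_iff_mem _).2 h)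

section

variable {p : ℕ} [hp : Fact p.Prime] {d : ℕ} {R : Type} [CommRing R] [IsLocalRing R]
    [IsNoetherianRing R] [Algebra ℤ_[p] R] {ρ : (Fin d → ℤ_[p]) → R}
    {G : Type*} [Group G] {V : Type*} [AddCommGroup V] [Module R V]
    {σ : G →* AddMonoid.End V} {elt : (Fin d → ℤ_[p]) → G}

lemma rg_eq_mulM {h : G} {x : R} (hx : ∀ v, σ h v = x • v) :
    Rg (σ h - 1) = (mulM (x - 1) V).toAddSubgroup := by
  ext v
  rw [mem_Rg]
  show (∃ w, (σ h - 1) w = v) ↔ v ∈ mulM (x - 1) V
  rw [mem_mulM]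
  refine exists_congr fun w => ?_
  rw [end_sub_one_apply, hx, sub_smul, one_smul]

variable (helt : ∀ q v, σ (elt q) v = ρ q • v)

include helt

lemma nn_list (Ls : List (Fin d → ℤ_[p])) :
    Nn σ (Ls.map elt) =
      (Ideal.span {x | ∃ q ∈ Ls, x = ρ q - 1} • (⊤ : Submodule R V)).toAddSubgroup := by
  induction Ls with
  | nil => simp [Nn]
  | cons q Ls ih =>
    have e : {x | ∃ q' ∈ q :: Ls, x = ρ q' - 1} = insert (ρ q - 1) {x | ∃ q ∈ Ls, x = ρ q - 1} := by
      ext x
      simp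
    rw [e, Ideal.span_insert, Submodule.sup_smul, Submodule.sup_toAddSubgroup]
    simp only [List.map_cons, Nn]
    rw [ih, rg_eq_mulM (helt q)]
    rfl

lemma nn_subN {e : ℕ} (l : Fin e → (Fin d → ℤ_[p])) :
    Nn σ ((List.ofFn l).map elt) = (subN ρ V l).toAddSubgroup := by
  rw [nn_list helt]
  unfold subN
  congr 3
  ext x
  simp only [List.mem_ofFn, Set.mem_ofPred_eq, Set.mem_range]
  constructor
  · rintro ⟨_, ⟨i, rfl⟩, rfl⟩; exact ⟨i, rfl⟩
  · rintro ⟨i, rfl⟩; exact ⟨_, ⟨i, rfl⟩, rfl⟩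

end

/-- separation -/
lemma sep_of_module {p : ℕ} [hp : Fact p.Prime] {d : ℕ} {R : Type} [CommRing R] [IsLocalRing R]
    [IsNoetherianRing R] [Algebra ℤ_[p] R] {ρ : (Fin d → ℤ_[p]) → R} (H : Hyp p ρ)
    {G : Type*} [Group G] {V : Type*} [AddCommGroup V] [Module R V] [Module.Finite R V]
    {σ : G →* AddMonoid.End V} (hσ : ∀ h, ∃ x : R, ∀ v, σ h v = x • v) : Sep σ := by
  have := H.residue
  intro ls y hy
  obtain ⟨N, hN⟩ : ∃ N : Submodule R V, N.toAddSubgroup = Nn σ ls := by
    clear hy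
    induction ls with
    | nil => exact ⟨⊥, rfl⟩
    | cons l ls ih =>
      obtain ⟨N, hN⟩ := ih
      obtain ⟨x, hx⟩ := hσ l
      refine ⟨mulM (x - 1) V ⊔ N, ?_⟩
      rw [Submodule.sup_toAddSubgroup, hN, Nn, rg_eq_mulM hx]
  have hyN : y ∉ N := by
    intro h
    apply hy
    rw [← hN]; exact h
  -- Krull intersection in `V ⧸ N`
  obtain ⟨j, hj⟩ : ∃ j : ℕ, y ∉ N ⊔ maximalIdeal R ^ j • (⊤ : Submodule R V) := by
    by_contra hcon
    push Not at hcon
    have h1 : (Submodule.mkQ N y) ∈ (⨅ i : ℕ, maximalIdeal R ^ i • (⊤ : Submodule R (V ⧸ N))) := by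
      rw [Submodule.mem_iInf]
      intro i
      obtain ⟨a, ha, b, hb, hab⟩ := Submodule.mem_sup.1 (hcon i)
      rw [← hab, map_add, (Submodule.Quotient.mk_eq_zero N (x := a)).2 ha |> fun h => show
        Submodule.mkQ N a = 0 from h, zero_add]
      have h2 := Submodule.mem_map_of_mem (f := Submodule.mkQ N) hb
      rw [Submodule.map_smul''] at h2
      exact Submodule.smul_mono le_rfl le_top h2
    rw [Ideal.iInf_pow_smul_eq_bot_of_isLocalRing _ (maximalIdeal.isMaximal R).ne_top,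
      Submodule.mem_bot] at h1
    exact hyN ((Submodule.Quotient.mk_eq_zero N).1 h1)
  set W : Submodule R V := maximalIdeal R ^ j • ⊤ with hW
  have hfin : Finite (V ⧸ W) := by
    have h1 : Finite (R ⧸ maximalIdeal R ^ j) :=
      Ideal.finite_quotient_pow (IsNoetherian.noetherian _) j
    have : Module.Finite (R ⧸ maximalIdeal R ^ j) (V ⧸ W) :=
      Module.Finite.of_restrictScalars_finite R _ _
    exact Module.finite_of_finite (R ⧸ maximalIdeal R ^ j)
  -- the action on `V ⧸ W`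
  have hmap : ∀ h : G, ∀ v ∈ W, σ h v ∈ W := by
    intro h v hv
    obtain ⟨x, hx⟩ := hσ h
    rw [hx]; exact W.smul_mem x hv
  let τ : G →* AddMonoid.End (V ⧸ W) :=
    { toFun := fun h => QuotientAddGroup.map W.toAddSubgroup W.toAddSubgroup (σ h)
        (fun v hv => hmap h v hv)
      map_one' := by
        ext v
        obtain ⟨v, rfl⟩ := QuotientAddGroup.mk_surjective v
        show QuotientAddGroup.mk (σ 1 v) = _
        rw [map_one]; rfl
      map_mul' := by
        intro a b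
        ext v
        obtain ⟨v, rfl⟩ := QuotientAddGroup.mk_surjective v
        show QuotientAddGroup.mk (σ (a * b) v) = _
        rw [map_mul]; rfl }
  have hEnd : Finite (AddMonoid.End (V ⧸ W)) :=
    Finite.of_injective (fun f : AddMonoid.End (V ⧸ W) => (f : V ⧸ W → V ⧸ W))
      DFunLike.coe_injective
  have hU : Finite (AddMonoid.End (V ⧸ W))ˣ := inferInstance
  refine ⟨(N ⊔ W).toAddSubgroup, ?_, hj, τ.toHomUnits.ker, ?_, ?_⟩
  · rw [← hN]
    exact fun v hv => Submodule.mem_sup_left hv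
  · have : Finite τ.toHomUnits.range := inferInstance
    exact Subgroup.finiteIndex_ker _
  · intro h hh v
    rw [MonoidHom.mem_ker] at hh
    have h1 : τ h = 1 := by
      have := congrArg Units.val hh
      simpa using this
    have h2 : τ h (QuotientAddGroup.mk v) = QuotientAddGroup.mk v := by rw [h1]; rfl
    have h3 : (QuotientAddGroup.mk (σ h v) : V ⧸ W.toAddSubgroup) = QuotientAddGroup.mk v := h2
    rw [QuotientAddGroup.eq] at h3
    refine Submodule.mem_sup_right ?_
    have h4 := W.neg_mem h3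
    have e : -(-(σ h) v + v) = σ h v - v := by abel
    rwa [e] at h4

/-- undecidability from a finitely generated module with a suitable prime -/
theorem module_undec.{u} (hgood : StmtGood.{u}) {p : ℕ} [hp : Fact p.Prime] {d : ℕ} {R : Type}
    [CommRing R] [IsLocalRing R] [IsNoetherianRing R] [Algebra ℤ_[p] R]
    {ρ : (Fin d → ℤ_[p]) → R} (H : Hyp p ρ)
    {G : Type*} [Group G] {A1 A2 : Subgroup G}
    (hA1 : D1 0 (fun _ : ℕ → G => (· ∈ A1))) (hA2 : D1 0 (fun _ : ℕ → G => (· ∈ A2)))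
    (hle : A2 ≤ A1) (hconj : ∀ h, ∀ a ∈ A1, h * a * h⁻¹ ∈ A1)
    {V : Type u} [AddCommGroup V] [Module R V] [Module.Finite R V] (π : G → V)
    (hmul : ∀ a ∈ A1, ∀ b ∈ A1, π (a * b) = π a + π b)
    (hsurj : ∀ m, ∃ a ∈ A1, π a = m) (hzero : ∀ a ∈ A1, (π a = 0 ↔ a ∈ A2))
    (hact : ∀ h, ∃ q, ∀ a ∈ A1, π (h * a * h⁻¹) = ρ q • π a)
    (hact' : ∀ q, ∃ h, ∀ a ∈ A1, π (h * a * h⁻¹) = ρ q • π a)
    (hP : ∃ P : Ideal R, P.IsPrime ∧ Module.annihilator R V ≤ P ∧ (p : R) ∉ P ∧
      ¬ Module.Finite ℤ_[p] (R ⧸ P)) : ¬ DecTh G := by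
  classical
  choose q hq using hact
  choose elt helt0 using hact'
  -- the action
  let σ : G →* AddMonoid.End V :=
    { toFun := fun h => Module.toAddMonoidEnd R V (ρ (q h))
      map_one' := by
        ext v
        obtain ⟨a, ha, rfl⟩ := hsurj v
        show ρ (q 1) • π a = π a
        rw [← hq 1 a ha]; simp
      map_mul' := by
        intro h k
        ext v
        obtain ⟨a, ha, rfl⟩ := hsurj v
        show ρ (q (h * k)) • π a = ρ (q h) • ρ (q k) • π a
        rw [← hq (h * k) a ha, ← hq k a ha, ← hq h _ (hconj k a ha)]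
        congr 1
        group }
  have hσ : ∀ h v, σ h v = ρ (q h) • v := fun _ _ => rfl
  have M : Model A1 A2 π σ := ⟨hle, hconj, hmul, hsurj, hzero, fun h a ha => hq h a ha⟩
  have helt : ∀ q0 v, σ (elt q0) v = ρ q0 • v := by
    intro q0 v
    obtain ⟨a, ha, rfl⟩ := hsurj v
    rw [hσ, ← hq _ a ha, helt0 q0 a ha]
  have hsep : Sep σ := sep_of_module H fun h => ⟨_, hσ h⟩
  obtain ⟨e, l, g, hi, hii⟩ := hgood p d R ρ H V hP
  set ls : List G := (List.ofFn l).map elt with hls
  set N : Submodule R V := subN ρ V l with hN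
  have hNn : Nn σ ls = N.toAddSubgroup := nn_subN helt l
  -- `Y` in terms of submodules
  have hYy : ∀ (h : G) (x : R), (∀ v, σ h v = x • v) →
      Yy σ ls h = (mulM (x - 1) V ⊔ N).toAddSubgroup := by
    intro h x hx
    unfold Yy
    rw [hNn, rg_eq_mulM hx, Submodule.sup_toAddSubgroup]
  have hpow : ∀ n : ℕ, ∀ v, σ (elt g ^ n) v = (ρ g ^ n) • v := by
    intro n
    induction n with
    | zero => intro v; simp
    | succ n ih =>
      intro v
      rw [pow_succ, map_mul, pow_succ, mul_smul, ← ih, ← helt g v]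
      rfl
  have hpown : ∀ n : ℕ, ∀ v, (σ (elt g) ^ n) v = (ρ g ^ n) • v := by
    intro n v
    rw [← map_pow]; exact hpow n v
  have hY : ∀ n : ℕ, Yy σ ls (elt g ^ p ^ n) = (mulM (ρ g ^ p ^ n - 1) V ⊔ N).toAddSubgroup :=
    fun n => hYy _ _ (hpow _)
  have hY0 : Yy σ ls (elt g) = (mulM (ρ g - 1) V ⊔ N).toAddSubgroup := hYy _ _ (helt g)
  -- `Ψ_n` as an operator
  have hPs : ∀ n, Rg (ev σ (elt g) (Ps p n)) =
      (mulM (∑ i ∈ Finset.range p, ρ g ^ (i * p ^ n)) V).toAddSubgroup := by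
    intro n
    ext v
    rw [mem_Rg]
    show (∃ w, ev σ (elt g) (Ps p n) w = v) ↔ v ∈ mulM _ V
    rw [mem_mulM]
    refine exists_congr fun w => ?_
    rw [ev_ps]
    have : (∑ i ∈ Finset.range p, σ (elt g) ^ (i * p ^ n)) w =
        ∑ i ∈ Finset.range p, (σ (elt g) ^ (i * p ^ n)) w :=
      AddMonoidHom.finsetSum_apply _ _ _
    rw [this, Finset.sum_smul]
    simp only [hpown]
  -- natural numbers prime to `p` are units in `R`
  have hunit : ∀ D : ℕ, ¬ p ∣ D → IsUnit (D : R) := by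
    intro D hD
    by_contra hnu
    have h1 : (D : R) ∈ maximalIdeal R := (mem_maximalIdeal _).2 hnu
    have h2 : Nat.Coprime p D := (Nat.Prime.coprime_iff_not_dvd hp.out).2 hD
    have h3 := Nat.isCoprime_iff_coprime.2 h2
    obtain ⟨a, b, hab⟩ := h3
    have h4 : (1 : R) = (a : R) * (p : R) + (b : R) * (D : R) := by
      have := congrArg (Int.cast : ℤ → R) hab
      push_cast at this
      exact this.symm
    have h5 : (1 : R) ∈ maximalIdeal R := by
      rw [h4]
      exact Ideal.add_mem _ (Ideal.mul_mem_left _ _ H.p_mem) (Ideal.mul_mem_left _ _ h1)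
    exact (maximalIdeal.isMaximal R).ne_top ((Ideal.eq_top_iff_one _).2 h5)
  -- a common element `b`
  obtain ⟨b, hb⟩ : ∃ b : V, ∀ n0, ∃ n, n0 ≤ n ∧ ∀ D : ℕ, D ≠ 0 →
      D • b ∉ (mulM (∑ i ∈ Finset.range p, ρ g ^ (i * p ^ n)) V ⊔ N) := by
    obtain ⟨s, hs⟩ := (Module.finite_def.1 (inferInstance : Module.Finite R V))
    by_contra hcon
    push Not at hcon
    choose n0 hn0 using hcon
    set B := s.sup n0 with hB
    obtain ⟨m, hm⟩ := hii B
    -- all generators are torsion modulo `U`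
    set U := (mulM (∑ i ∈ Finset.range p, ρ g ^ (i * p ^ B)) V ⊔ N) with hU
    have h1 : ∀ c ∈ s, ∃ k : ℕ, ((p : R) ^ k) • c ∈ U := by
      intro c hc
      obtain ⟨D, hD, hDc⟩ := hn0 c B (Finset.le_sup (f := n0) hc)
      obtain ⟨k, D', hD', rfl⟩ := Nat.exists_eq_pow_mul_and_not_dvd hD p hp.out.ne_one
      refine ⟨k, ?_⟩
      obtain ⟨u, hu⟩ := hunit D' hD'
      have h2 : ((p ^ k * D') • c : V) = (u : R) • (((p : R) ^ k) • c) := by
        rw [hu, smul_smul, ← Nat.cast_smul_eq_nsmul R]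
        congr 1
        push_cast; ring
      rw [h2] at hDc
      have h3 := U.smul_mem ((u⁻¹ : Rˣ) : R) hDc
      rwa [smul_smul, Units.inv_mul, one_smul] at h3
    have h2 : ∀ v : V, ∃ k : ℕ, ((p : R) ^ k) • v ∈ U := by
      intro v
      have hv : v ∈ Submodule.span R (s : Set V) := by rw [hs]; trivial
      induction hv using Submodule.span_induction with
      | mem x hx => exact h1 x hx
      | zero => exact ⟨0, by simp⟩
      | add x y _ _ hx hy =>
        obtain ⟨k, hk⟩ := hx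
        obtain ⟨k', hk'⟩ := hy
        refine ⟨k + k', ?_⟩
        rw [smul_add]
        refine U.add_mem ?_ ?_
        · rw [add_comm k, pow_add, mul_smul]; exact U.smul_mem _ hk
        · rw [pow_add, mul_smul]; exact U.smul_mem _ hk'
      | smul a x _ hx =>
        obtain ⟨k, hk⟩ := hx
        refine ⟨k, ?_⟩
        rw [smul_comm]; exact U.smul_mem _ hk
    obtain ⟨k, hk⟩ := h2 m
    exact hm k hk
  refine engine hA1 hA2 M hsep (ls := ls) (g := elt g) (b := b) (p := p) ?_
  have hinv : ∀ v ∈ Nn σ ls, σ (elt g) v ∈ Nn σ ls := by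
    intro v hv
    rw [hNn] at hv ⊢
    rw [helt]; exact N.smul_mem _ hv
  have hinf : ∀ n0, ∃ n, n0 ≤ n ∧ ∀ D : ℕ, D ≠ 0 →
      D • b ∉ Rg (ev σ (elt g) (Ps p n)) ⊔ Nn σ ls := by
    intro n0
    obtain ⟨n, hn, hn'⟩ := hb n0
    refine ⟨n, hn, fun D hD => ?_⟩
    rw [hPs, hNn, ← Submodule.sup_toAddSubgroup]
    exact hn' D hD
  refine ⟨hinv, ?_, ?_, ?_⟩
  · -- powers
    intro h _ h1 h2
    rw [hYy h _ (hσ h), hY0] at h1
    rw [hYy h _ (hσ h), hNn] at h2
    have h1' : mulM (ρ (q h) - 1) V ≤ mulM (ρ g - 1) V ⊔ N := fun v hv =>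
      h1 (show v ∈ mulM (ρ (q h) - 1) V ⊔ N from Submodule.mem_sup_left hv)
    obtain ⟨α, hα⟩ := hi (q h) h1'
    have hα0 : α ≠ 0 := by
      rintro rfl
      apply h2
      intro v hv
      have hv' : v ∈ mulM (ρ (q h) - 1) V ⊔ N := hv
      refine (sup_le ?_ le_rfl : mulM (ρ (q h) - 1) V ⊔ N ≤ N) hv'
      rw [mulM_le_iff]
      intro w
      have := hα w
      rwa [zero_smul, H.zero] at this
    set f := α.valuation with hf
    set u := PadicInt.unitCoeff hα0 with hu
    have hαu : α = (u : ℤ_[p]) * (p : ℤ_[p]) ^ f := PadicInt.unitCoeff_spec hα0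
    have e1 : ρ (α • g) - 1 ∈ Ideal.span {ρ g ^ p ^ f - 1} := by
      rw [hαu, mul_smul, ← H.p_pow_smul]
      exact H.smul_sub_one_mem _ _
    have e2 : ρ g ^ p ^ f - 1 ∈ Ideal.span {ρ (α • g) - 1} := by
      rw [← H.p_pow_smul]
      have : (p : ℤ_[p]) ^ f • g = ((u⁻¹ : ℤ_[p]ˣ) : ℤ_[p]) • (α • g) := by
        rw [hαu, smul_smul, ← mul_assoc, Units.inv_mul, one_mul]
      rw [this]
      exact H.smul_sub_one_mem _ _
    refine ⟨f, ?_, ?_⟩
    · rw [hYy h _ (hσ h), hY f]
      congr 1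
      apply le_antisymm
      · refine sup_le ?_ le_sup_right
        rw [mulM_le_iff]
        intro v
        have e : (ρ (q h) - 1) • v = (ρ (q h) - ρ (α • g)) • v + (ρ (α • g) - 1) • v := by
          rw [← add_smul]; congr 1; ring
        rw [e]
        refine Submodule.add_mem _ (Submodule.mem_sup_right (hα v)) (Submodule.mem_sup_left ?_)
        exact mulM_mono e1 ((mem_mulM _ _).2 ⟨v, rfl⟩)
      · refine sup_le ((mulM_mono e2).trans ?_) le_sup_right
        rw [mulM_le_iff]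
        intro v
        have e : (ρ (α • g) - 1) • v = (ρ (q h) - 1) • v - (ρ (q h) - ρ (α • g)) • v := by
          rw [← sub_smul]; congr 1; ring
        rw [e]
        exact Submodule.sub_mem _ (Submodule.mem_sup_left ((mem_mulM _ _).2 ⟨v, rfl⟩))
          (Submodule.mem_sup_right (hα v))
    · intro n
      set m := max n (f + 1) with hm
      set a := α.appr m with ha
      obtain ⟨β, hβ⟩ : ∃ β : ℤ_[p], α - a = (p : ℤ_[p]) ^ m * β := by
        have h := PadicInt.appr_spec m α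
        rw [Ideal.mem_span_singleton] at h
        obtain ⟨β, hβ⟩ := h
        exact ⟨β, hβ⟩
      have hpd : ∀ j ≤ m, ((p : ℤ_[p]) ^ j ∣ α ↔ p ^ j ∣ a) := by
        intro j hj
        have h3 : (p : ℤ_[p]) ^ j ∣ α - a := by
          rw [hβ]; exact (pow_dvd_pow _ hj).mul_right _
        have h4 : (p : ℤ_[p]) ^ j ∣ α ↔ (p : ℤ_[p]) ^ j ∣ (a : ℤ_[p]) := by
          constructor
          · intro h5
            have := dvd_sub h5 h3
            rwa [sub_sub_cancel] at this
          · intro h5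
            have := dvd_add h3 h5
            rwa [sub_add_cancel] at this
        rw [h4]
        have h5 := PadicInt.pow_p_dvd_int_iff (p := p) j (a : ℤ)
        rw [Int.cast_natCast] at h5
        rw [h5]
        norm_cast
      refine ⟨a, ?_, ?_, ?_⟩
      · rw [← hpd f (by omega)]
        exact ⟨u, by rw [mul_comm]; exact hαu⟩
      · rw [← hpd (f + 1) (by omega)]
        rintro ⟨γ, hγ⟩
        rw [hαu, pow_succ, mul_comm (u : ℤ_[p]), mul_assoc] at hγ
        have hp0 : (p : ℤ_[p]) ^ f ≠ 0 := pow_ne_zero _ (by exact_mod_cast hp.out.ne_zero)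
        have h3 := mul_left_cancel₀ hp0 hγ
        exact PadicInt.prime_p.not_isUnit (isUnit_of_dvd_unit ⟨γ, h3⟩ u.isUnit)
      · intro v
        rw [hσ, hpown, hY n, ← sub_smul]
        show _ ∈ mulM (ρ g ^ p ^ n - 1) V ⊔ N
        have e : (ρ (q h) - ρ g ^ a) • v =
            (ρ (q h) - ρ (α • g)) • v + (ρ (α • g) - ρ g ^ a) • v := by
          rw [← add_smul]; congr 1; ring
        rw [e]
        refine Submodule.add_mem _ (Submodule.mem_sup_right (hα v)) (Submodule.mem_sup_left ?_)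
        have e3 : ρ (α • g) - ρ g ^ a = ρ ((a : ℤ_[p]) • g) * (ρ ((α - a) • g) - 1) := by
          rw [mul_sub, ← H.add, mul_one, H.natCast_smul, ← add_smul]
          congr 2
          ring_nf
        have e4 : ρ (α • g) - ρ g ^ a ∈ Ideal.span {ρ g ^ p ^ n - 1} := by
          rw [e3]
          refine Ideal.mul_mem_left _ _ ?_
          rw [hβ, mul_comm, mul_smul]
          have h5 := H.smul_sub_one_mem β ((p : ℤ_[p]) ^ m • g)
          have h6 : ρ ((p : ℤ_[p]) ^ m • g) - 1 ∈ Ideal.span {ρ g ^ p ^ n - 1} := by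
            have : (p : ℤ_[p]) ^ m • g = (p : ℤ_[p]) ^ (m - n) • ((p : ℤ_[p]) ^ n • g) := by
              rw [smul_smul, ← pow_add]
              congr 2
              omega
            rw [this, ← H.p_pow_smul g n]
            exact H.smul_sub_one_mem _ _
          exact (Ideal.span_singleton_le_iff_mem _).2 h6 h5
        exact mulM_mono e4 ((mem_mulM _ _).2 ⟨v, rfl⟩)
  · -- strictness
    intro n hcon
    rw [hY n, hY (n + 1)] at hcon
    have hcon' : mulM (ρ g ^ p ^ n - 1) V ⊔ N ≤ mulM (ρ g ^ p ^ (n + 1) - 1) V ⊔ N := hcon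
    have h1 : mulM (ρ g ^ p ^ n - 1) V ≤ N ⊔ maximalIdeal R • mulM (ρ g ^ p ^ n - 1) V := by
      refine (le_sup_left.trans hcon').trans (sup_le ?_ le_sup_left)
      rw [mulM_le_iff]
      intro v
      have hx : ρ g ^ p ^ n - 1 ∈ maximalIdeal R := by
        rw [← H.p_pow_smul]; exact H.sub_mem _
      obtain ⟨m, hm, he⟩ := H.pow_p_sub_one_mem hx
      rw [← pow_mul, ← pow_succ] at he
      rw [he, mul_smul]
      exact Submodule.mem_sup_right (Submodule.smul_mem_smul hm ((mem_mulM _ _).2 ⟨v, rfl⟩))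
    have h2 : mulM (ρ g ^ p ^ n - 1) V ≤ N := by
      refine Submodule.le_of_le_smul_of_le_jacobson_bot (I := maximalIdeal R) ?_ ?_ h1
      · unfold mulM
        exact Submodule.FG.smul (Submodule.fg_span (Set.finite_singleton _)) Module.Finite.fg_top
      · exact IsLocalRing.maximalIdeal_le_jacobson _
    obtain ⟨m, hm, hm'⟩ := hinf n
    have h3 : Yy σ ls (elt g ^ p ^ m) ≤ Nn σ ls := by
      refine (yn_anti hm).trans ?_
      rw [hY n, hNn]
      exact fun v hv => (sup_le h2 le_rfl : mulM (ρ g ^ p ^ n - 1) V ⊔ N ≤ N) hv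
    have h4 : Ps p m ∣ 1 := by
      refine key_dvd hinv m hm' 1 ?_
      rw [mul_one]
      refine nn_le_yy σ ls _ (h3 ?_)
      rw [yn_eq]
      exact AddSubgroup.mem_sup_left ⟨b, rfl⟩
    exact (ps_prime (p := p) m).not_isUnit (isUnit_of_dvd_one h4)
  · intro n0
    obtain ⟨n, hn, hn'⟩ := hinf n0
    refine ⟨n, hn, fun D hD => ?_⟩
    rw [← ev_ps]
    exact hn' D hD

end Pool.Agent.Helper85.ProP
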