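import Pool.Agent.Helper85.ProP.Sys

/-!
Soundness and completeness of `Sys.Good`.
-/

set_option autoImplicit false

namespace Pool.Agent.Helper85.ProP

open Function Relation

namespace Sys

section sound

variable {X L : Type*} [PartialOrder L] (S : Sys X) (Y : X → L)

/-- classes above `y` -/
def above (y : L) : Set L := {z | ∃ k, S.I k ∧ Y k = z ∧ y < z}

theorem sound (hle : ∀ h k, S.le h k ↔ Y h ≤ Y k) (hT : ∀ h, S.T h → S.I h)
    (hfin : (∀ h, S.I h → ∀ k, S.I k → S.le h k ∨ S.le k h) →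
      ∀ h, S.I h → (S.above Y (Y h)).Finite)
    {K : ℕ} {M : List Tr} {q0 qf : ℕ} {Z : X} {n : ℕ} (hM : ∀ t ∈ M, t.r < K) (hK : 1 ≤ K)
    (hZ : S.Idx n Z) (hG : S.Good K M q0 qf Z) :
    ∃ c, ReflTransGen (mstep M) (cinit q0 n) c ∧ c 0 = qf := by
  classical
  obtain ⟨hchain, hfun, hinit, hstep, hhalt⟩ := hG
  have hF := hfin hchain
  set ν : X → ℕ := fun h => (S.above Y (Y h)).ncard with hν
  -- (a)
  have hlt : ∀ h k, S.I h → S.I k → Y k < Y h → ν h < ν k := by
    intro h k hh hk hlt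
    apply Set.ncard_lt_ncard _ (hF k hk)
    rw [Set.ssubset_iff_of_subset]
    · exact ⟨Y h, ⟨h, hh, rfl, hlt⟩, fun ⟨_, _, _, h'⟩ => lt_irrefl _ h'⟩
    · rintro y ⟨l, hl, rfl, hy⟩
      exact ⟨l, hl, rfl, hlt.trans hy⟩
  have heq : ∀ h k, Y h = Y k → ν h = ν k := by
    intro h k e
    simp only [hν, e]
  have hle' : ∀ h k, S.I h → S.I k → (Y k ≤ Y h ↔ ν h ≤ ν k) := by
    intro h k hh hk
    constructor
    · intro h1
      rcases h1.lt_or_eq with h2 | h2
      · exact (hlt h k hh hk h2).le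
      · exact (heq _ _ h2.symm).le
    · intro h1
      rcases hchain h hh k hk with h2 | h2
      · rw [hle] at h2
        rcases h2.lt_or_eq with h3 | h3
        · exact absurd (hlt k h hk hh h3) (by omega)
        · exact h3.ge
      · rwa [hle] at h2
  have hsucc : ∀ h k, S.Succ h k → S.I h ∧ S.I k ∧ ν k = ν h + 1 := by
    rintro h k ⟨hh, hk, ⟨h1, h2⟩, h3⟩
    rw [hle] at h1 h2
    refine ⟨hh, hk, ?_⟩
    have e : S.above Y (Y k) = insert (Y h) (S.above Y (Y h)) := by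
      ext y
      constructor
      · rintro ⟨l, hl, rfl, hy⟩
        rcases h3 l hl with h4 | h4
        · rw [hle] at h4
          exact absurd hy (not_lt_of_ge h4)
        · rw [hle] at h4
          rcases h4.lt_or_eq with h5 | h5
          · exact Or.inr ⟨l, hl, rfl, h5⟩
          · exact Or.inl h5.symm
      · rintro (rfl | ⟨l, hl, rfl, hy⟩)
        · exact ⟨h, hh, rfl, lt_of_le_not_ge h1 h2⟩
        · exact ⟨l, hl, rfl, lt_of_le_of_lt h1 hy⟩
    simp only [hν, e]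
    rw [Set.ncard_insert_of_notMem _ (hF h hh)]
    rintro ⟨_, _, _, h'⟩
    exact lt_irrefl _ h'
  have hidx : ∀ i k, S.Idx i k → S.I k ∧ ν k = i := by
    intro i
    induction i with
    | zero =>
      rintro k ⟨hk, hall⟩
      refine ⟨hk, ?_⟩
      have e : S.above Y (Y k) = ∅ := by
        ext y
        simp only [Set.mem_empty_iff_false, iff_false]
        rintro ⟨l, hl, rfl, hy⟩
        exact absurd ((hle _ _).1 (hall l hl)) (not_le_of_gt hy)
      simp only [hν, e, Set.ncard_empty]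
    | succ i ih =>
      rintro k ⟨h, h1, h2⟩
      obtain ⟨a1, a2, a3⟩ := hsucc h k h1
      exact ⟨a2, by rw [a3, (ih h h2).2]⟩
  -- the configuration at the time `h`
  set c : X → ℕ → ℕ := fun h j =>
    if hj : j ≤ K ∧ ∃ k, S.I k ∧ S.Rel j h k then ν (Classical.choose hj.2) else 0 with hc
  have hcv : ∀ h, S.T h → ∀ j ≤ K, ∀ k, S.I k → S.Rel j h k → c h j = ν k := by
    intro h hh j hj k hk hR
    have hj' : j ≤ K ∧ ∃ k, S.I k ∧ S.Rel j h k := ⟨hj, k, hk, hR⟩
    simp only [hc, dif_pos hj']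
    have hs := Classical.choose_spec hj'.2
    have hr : j ∈ Finset.range (K + 1) := Finset.mem_range.2 (by omega)
    have h1 := hfun j hr h hh _ hs k ⟨hk, hR⟩
    have h2 := hfun j hr h hh _ ⟨hk, hR⟩ _ hs
    rw [hle] at h1 h2
    exact heq _ _ (le_antisymm h1 h2)
  have hcz : ∀ h j, K < j → c h j = 0 := by
    intro h j hj
    simp only [hc]
    rw [dif_neg]
    rintro ⟨h1, -⟩
    omega
  have hfirst : ∀ h, S.first h → c h = cinit q0 n := by
    intro h hh
    obtain ⟨⟨k0, hk0, hR0⟩, ⟨k1, ⟨hk1, hR1⟩, hk1', hk1''⟩, h2⟩ := hinit h hh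
    funext j
    unfold cinit
    by_cases h0 : j = 0
    · subst h0
      rw [if_pos rfl, hcv h hh.1 0 (Nat.zero_le _) k0 (hidx _ _ hk0).1 hR0, (hidx _ _ hk0).2]
    rw [if_neg h0]
    by_cases h1 : j = 1
    · subst h1
      rw [if_pos rfl, hcv h hh.1 1 hK k1 hk1 hR1]
      rw [hle] at hk1' hk1''
      rw [heq _ _ (le_antisymm hk1' hk1''), (hidx _ _ hZ).2]
    rw [if_neg h1]
    by_cases hjK : j ≤ K
    · obtain ⟨k, hk, hR⟩ := h2 j (Finset.mem_range.2 (by omega)) (by omega)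
      rw [hcv h hh.1 j hjK k (hidx _ _ hk).1 hR, (hidx _ _ hk).2]
    · exact hcz h j (by omega)
  have hnext : ∀ h h', S.next h h' → mstep M (c h) (c h') := by
    intro h h' hn
    obtain ⟨t, ht, ⟨k1, hk1, hR1⟩, ⟨k2, hk2, hR2⟩, h3, h4⟩ := hstep h h' hn
    have hTh := hn.1
    have hTh' := hn.2.1
    have htr := hM t ht
    refine ⟨t, ht, ?_, ?_, ?_, ?_⟩
    · rw [hcv h hTh 0 (Nat.zero_le _) k1 (hidx _ _ hk1).1 hR1, (hidx _ _ hk1).2]
    · rw [hcv h' hTh' 0 (Nat.zero_le _) k2 (hidx _ _ hk2).1 hR2, (hidx _ _ hk2).2]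
    · intro j hj1 hj2
      by_cases hjK : j ≤ K
      · obtain ⟨k, hk, hRa, hRb⟩ := h3 j (Finset.mem_range.2 (by omega)) ⟨hj1, hj2⟩
        rw [hcv h hTh j hjK k hk hRa, hcv h' hTh' j hjK k hk hRb]
      · rw [hcz h j (by omega), hcz h' j (by omega)]
    · cases hkind : t.kind with
      | inc =>
        rw [hkind] at h4
        obtain ⟨k, k', ha, hb, hs⟩ := h4
        obtain ⟨b1, b2, b3⟩ := hsucc _ _ hs
        show c h' (t.r + 1) = c h (t.r + 1) + 1
        rw [hcv h hTh _ (by omega) k b1 ha, hcv h' hTh' _ (by omega) k' b2 hb, b3]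
      | dec =>
        rw [hkind] at h4
        obtain ⟨k, k', ha, hb, hs⟩ := h4
        obtain ⟨b1, b2, b3⟩ := hsucc _ _ hs
        show c h (t.r + 1) = c h' (t.r + 1) + 1
        rw [hcv h hTh _ (by omega) k b2 ha, hcv h' hTh' _ (by omega) k' b1 hb, b3]
      | zero =>
        rw [hkind] at h4
        obtain ⟨k, hk, ha, hb⟩ := h4
        obtain ⟨b1, b2⟩ := hidx _ _ hk
        show c h (t.r + 1) = 0 ∧ c h' (t.r + 1) = 0
        rw [hcv h hTh _ (by omega) k b1 ha, hcv h' hTh' _ (by omega) k b1 hb, b2]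
        exact ⟨rfl, rfl⟩
      | nop =>
        rw [hkind] at h4
        obtain ⟨k, hk, ha, hb⟩ := h4
        show c h (t.r + 1) = c h' (t.r + 1)
        rw [hcv h hTh _ (by omega) k hk ha, hcv h' hTh' _ (by omega) k hk hb]
  have hreach : ∀ m h, S.T h → ν h = m → ReflTransGen (mstep M) (cinit q0 n) (c h) := by
    intro m
    induction m using Nat.strong_induction_on with
    | _ m ih =>
      intro h hh hm
      by_cases hf : S.first h
      · rw [hfirst h hf]
      · have hex : ∃ l, S.T l ∧ S.lt l h := by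
          by_contra hcon
          push Not at hcon
          exact hf ⟨hh, hcon⟩
        set A : Set ℕ := {i | ∃ l, S.T l ∧ S.lt l h ∧ ν l = i} with hA
        have hlt' : ∀ l, S.T l → S.lt l h → ν l < ν h := by
          rintro l hl ⟨h1, h2⟩
          rw [hle] at h1 h2
          exact hlt l h (hT l hl) (hT h hh) (lt_of_le_not_ge h1 h2)
        have hAb : BddAbove A := by
          refine ⟨ν h, ?_⟩
          rintro i ⟨l, hl, hl', rfl⟩
          exact (hlt' l hl hl').le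
        have hAne : A.Nonempty := by
          obtain ⟨l, hl, hl'⟩ := hex
          exact ⟨ν l, l, hl, hl', rfl⟩
        obtain ⟨l, hl, hl', hνl⟩ := Nat.sSup_mem hAne hAb
        have hnx : S.next l h := by
          refine ⟨hl, hh, hl', ?_⟩
          rintro l' hl1 ⟨hl2, hl3⟩
          have h5 : ν l' ≤ sSup A := le_csSup hAb ⟨l', hl1, hl3, rfl⟩
          rw [← hνl] at h5
          obtain ⟨h6, h7⟩ := hl2
          rw [hle] at h6 h7
          have := hlt l l' (hT l hl) (hT l' hl1) (lt_of_le_not_ge h6 h7)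
          omega
        exact (ih (ν l) (by rw [← hm]; exact hlt' l hl hl') l hl rfl).tail (hnext l h hnx)
  obtain ⟨h, hh, k, hk, hR⟩ := hhalt
  exact ⟨c h, hreach _ h hh rfl, by
    rw [hcv h hh 0 (Nat.zero_le _) k (hidx _ _ hk).1 hR, (hidx _ _ hk).2]⟩

end sound

section complete

variable {X : Type*} (S : Sys X) (ν : X → ℕ)

theorem complete (hsurj : ∀ n, ∃ h, S.I h ∧ ν h = n)
    (hle : ∀ h k, S.I h → S.I k → (S.le h k ↔ ν k ≤ ν h))
    (τ : ℕ → ℕ) (hτ : StrictMono τ) (N : ℕ) (hT : ∀ h, S.T h ↔ S.I h ∧ ∃ t ≤ N, ν h = τ t)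
    (c : ℕ → ℕ → ℕ) {K : ℕ}
    (hRel : ∀ j ≤ K, ∀ t ≤ N, ∀ h k, S.I h → S.I k → ν h = τ t → (S.Rel j h k ↔ ν k = c t j))
    {M : List Tr} {q0 qf : ℕ} {Z : X} {n : ℕ} (hM : ∀ t ∈ M, t.r < K) (hK : 1 ≤ K)
    (hc0 : c 0 = cinit q0 n) (hstep : ∀ t < N, mstep M (c t) (c (t + 1))) (hfin : c N 0 = qf)
    (hZ : S.I Z) (hZn : ν Z = n) : S.Good K M q0 qf Z := by
  have hlt : ∀ h k, S.I h → S.I k → (S.lt h k ↔ ν h < ν k) := by
    intro h k hh hk
    simp only [Sys.lt, hle _ _ hh hk, hle _ _ hk hh]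
    omega
  have hsucc : ∀ h k, S.I h → S.I k → (S.Succ h k ↔ ν k = ν h + 1) := by
    intro h k hh hk
    simp only [Sys.Succ, hh, hk, true_and, hlt _ _ hh hk]
    constructor
    · rintro ⟨h1, h2⟩
      obtain ⟨l, hl, hl'⟩ := hsurj (ν h + 1)
      rcases h2 l hl with h3 | h3
      · rw [hle _ _ hl hk] at h3; omega
      · rw [hle _ _ hh hl] at h3; omega
    · intro h1
      refine ⟨by omega, fun l hl => ?_⟩
      rw [hle _ _ hl hk, hle _ _ hh hl]
      omega
  have hidx : ∀ i k, S.I k → (S.Idx i k ↔ ν k = i) := by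
    intro i
    induction i with
    | zero =>
      intro k hk
      simp only [Sys.Idx, hk, true_and]
      constructor
      · intro h1
        obtain ⟨l, hl, hl'⟩ := hsurj 0
        have := h1 l hl
        rw [hle _ _ hl hk] at this
        omega
      · intro h1 h hh
        rw [hle _ _ hh hk]
        omega
    | succ i ih =>
      intro k hk
      constructor
      · rintro ⟨h, h1, h2⟩
        have h3 := h1
        rw [hsucc h k h1.1 hk] at h3
        rw [ih h h1.1] at h2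
        omega
      · intro h1
        obtain ⟨l, hl, hl'⟩ := hsurj i
        refine ⟨l, ?_, (ih l hl).2 hl'⟩
        rw [hsucc l k hl hk]
        omega
  have hTI : ∀ h, S.T h → S.I h := fun h hh => ((hT h).1 hh).1
  refine ⟨?_, ?_, ?_, ?_, ?_⟩
  · intro h hh k hk
    rw [hle _ _ hh hk, hle _ _ hk hh]
    omega
  · rintro j hj h hh k ⟨hk, hR⟩ k' ⟨hk', hR'⟩
    rw [Finset.mem_range] at hj
    obtain ⟨hhI, t, ht, hht⟩ := (hT h).1 hh
    rw [hRel j (by omega) t ht h k hhI hk hht] at hR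
    rw [hRel j (by omega) t ht h k' hhI hk' hht] at hR'
    rw [hle _ _ hk hk']
    omega
  · rintro h ⟨hh, hh'⟩
    obtain ⟨hhI, t, ht, hht⟩ := (hT h).1 hh
    have ht0 : ν h = τ 0 := by
      by_contra hne
      have : t ≠ 0 := by
        rintro rfl
        exact hne hht
      obtain ⟨l, hl, hl'⟩ := hsurj (τ 0)
      have hlT : S.T l := (hT l).2 ⟨hl, 0, Nat.zero_le _, hl'⟩
      apply hh' l hlT
      rw [hlt _ _ hl hhI, hl', hht]
      exact hτ (by omega)
    have hR : ∀ j ≤ K, ∀ k, S.I k → (S.Rel j h k ↔ ν k = cinit q0 n j) := by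
      intro j hj k hk
      rw [hRel j hj 0 (Nat.zero_le _) h k hhI hk ht0, hc0]
    refine ⟨?_, ?_, ?_⟩
    · obtain ⟨k, hk, hk'⟩ := hsurj q0
      exact ⟨k, (hidx _ _ hk).2 hk', (hR 0 (by omega) k hk).2 (by simp [cinit, hk'])⟩
    · refine ⟨Z, ⟨hZ, (hR 1 hK Z hZ).2 (by simp [cinit, hZn])⟩, ?_⟩
      rw [hle _ _ hZ hZ]
      exact ⟨le_rfl, le_rfl⟩
    · intro j hj hj2
      rw [Finset.mem_range] at hj
      obtain ⟨k, hk, hk'⟩ := hsurj 0
      refine ⟨k, (hidx _ _ hk).2 hk', (hR j (by omega) k hk).2 ?_⟩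
      unfold cinit
      rw [if_neg (by omega), if_neg (by omega), hk']
  · rintro h h' ⟨hh, hh', hl, hno⟩
    obtain ⟨hhI, t, ht, hht⟩ := (hT h).1 hh
    obtain ⟨hhI', t', ht', hht'⟩ := (hT h').1 hh'
    rw [hlt _ _ hhI hhI', hht, hht', hτ.lt_iff_lt] at hl
    have htt : t' = t + 1 := by
      by_contra hne
      obtain ⟨l, hlI, hl'⟩ := hsurj (τ (t + 1))
      have hlT : S.T l := (hT l).2 ⟨hlI, t + 1, by omega, hl'⟩
      apply hno l hlT
      rw [hlt _ _ hhI hlI, hlt _ _ hlI hhI', hht, hht', hl', hτ.lt_iff_lt, hτ.lt_iff_lt]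
      omega
    subst htt
    obtain ⟨tr, htr, h1, h2, h3, h4⟩ := hstep t (by omega)
    have htrr := hM tr htr
    have hR : ∀ j ≤ K, ∀ k, S.I k → (S.Rel j h k ↔ ν k = c t j) := fun j hj k hk =>
      hRel j hj t ht h k hhI hk hht
    have hR' : ∀ j ≤ K, ∀ k, S.I k → (S.Rel j h' k ↔ ν k = c (t + 1) j) := fun j hj k hk =>
      hRel j hj (t + 1) ht' h' k hhI' hk hht'
    refine ⟨tr, htr, ?_, ?_, ?_, ?_⟩
    · obtain ⟨k, hk, hk'⟩ := hsurj tr.q
      exact ⟨k, (hidx _ _ hk).2 hk', (hR 0 (by omega) k hk).2 (by rw [h1, hk'])⟩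
    · obtain ⟨k, hk, hk'⟩ := hsurj tr.q'
      exact ⟨k, (hidx _ _ hk).2 hk', (hR' 0 (by omega) k hk).2 (by rw [h2, hk'])⟩
    · rintro j hj ⟨hj1, hj2⟩
      rw [Finset.mem_range] at hj
      obtain ⟨k, hk, hk'⟩ := hsurj (c t j)
      exact ⟨k, hk, (hR j (by omega) k hk).2 hk', (hR' j (by omega) k hk).2
        (by rw [h3 j hj1 hj2, hk'])⟩
    · cases hkind : tr.kind with
      | inc =>
        rw [hkind] at h4
        change c (t + 1) (tr.r + 1) = c t (tr.r + 1) + 1 at h4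
        obtain ⟨k, hk, hk'⟩ := hsurj (c t (tr.r + 1))
        obtain ⟨k', hkk, hkk'⟩ := hsurj (c (t + 1) (tr.r + 1))
        refine ⟨k, k', (hR _ (by omega) k hk).2 hk', (hR' _ (by omega) k' hkk).2 hkk', ?_⟩
        rw [hsucc _ _ hk hkk]
        omega
      | dec =>
        rw [hkind] at h4
        change c t (tr.r + 1) = c (t + 1) (tr.r + 1) + 1 at h4
        obtain ⟨k, hk, hk'⟩ := hsurj (c t (tr.r + 1))
        obtain ⟨k', hkk, hkk'⟩ := hsurj (c (t + 1) (tr.r + 1))
        refine ⟨k, k', (hR _ (by omega) k hk).2 hk', (hR' _ (by omega) k' hkk).2 hkk', ?_⟩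
        rw [hsucc _ _ hkk hk]
        omega
      | zero =>
        rw [hkind] at h4
        change c t (tr.r + 1) = 0 ∧ c (t + 1) (tr.r + 1) = 0 at h4
        obtain ⟨k, hk, hk'⟩ := hsurj 0
        exact ⟨k, (hidx _ _ hk).2 hk', (hR _ (by omega) k hk).2 (by omega),
          (hR' _ (by omega) k hk).2 (by omega)⟩
      | nop =>
        rw [hkind] at h4
        change c t (tr.r + 1) = c (t + 1) (tr.r + 1) at h4
        obtain ⟨k, hk, hk'⟩ := hsurj (c t (tr.r + 1))
        exact ⟨k, hk, (hR _ (by omega) k hk).2 hk', (hR' _ (by omega) k hk).2 (by omega)⟩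
  · obtain ⟨h, hh, hh'⟩ := hsurj (τ N)
    refine ⟨h, (hT h).2 ⟨hh, N, le_rfl, hh'⟩, ?_⟩
    obtain ⟨k, hk, hk'⟩ := hsurj qf
    refine ⟨k, (hidx _ _ hk).2 hk', (hRel 0 (by omega) N le_rfl h k hh hk hh').2 ?_⟩
    rw [hfin, hk']

end complete

/-- membership in index classes in the complete situation -/
theorem idx_iff {X : Type*} (S : Sys X) (ν : X → ℕ) (hsurj : ∀ n, ∃ h, S.I h ∧ ν h = n)
    (hle : ∀ h k, S.I h → S.I k → (S.le h k ↔ ν k ≤ ν h)) (i : ℕ) (k : X) (hk : S.I k) :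
    S.Idx i k ↔ ν k = i := by
  have hlt : ∀ h k, S.I h → S.I k → (S.lt h k ↔ ν h < ν k) := by
    intro h k hh hk
    simp only [Sys.lt, hle _ _ hh hk, hle _ _ hk hh]
    omega
  have hsucc : ∀ h k, S.I h → S.I k → (S.Succ h k ↔ ν k = ν h + 1) := by
    intro h k hh hk
    simp only [Sys.Succ, hh, hk, true_and, hlt _ _ hh hk]
    constructor
    · rintro ⟨h1, h2⟩
      obtain ⟨l, hl, hl'⟩ := hsurj (ν h + 1)
      rcases h2 l hl with h3 | h3
      · rw [hle _ _ hl hk] at h3; omega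
      · rw [hle _ _ hh hl] at h3; omega
    · intro h1
      refine ⟨by omega, fun l hl => ?_⟩
      rw [hle _ _ hl hk, hle _ _ hh hl]
      omega
  induction i generalizing k with
  | zero =>
    simp only [Sys.Idx, hk, true_and]
    constructor
    · intro h1
      obtain ⟨l, hl, hl'⟩ := hsurj 0
      have := h1 l hl
      rw [hle _ _ hl hk] at this
      omega
    · intro h1 h hh
      rw [hle _ _ hh hk]
      omega
  | succ i ih =>
    constructor
    · rintro ⟨h, h1, h2⟩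
      have h3 := h1
      rw [hsucc h k h1.1 hk] at h3
      have h4 := (ih h h1.1).1 h2
      omega
    · intro h1
      obtain ⟨l, hl, hl'⟩ := hsurj i
      refine ⟨l, ?_, (ih l hl).2 hl'⟩
      rw [hsucc l k hl hk]
      omega

/-- successors in the complete situation -/
theorem succ_iff {X : Type*} (S : Sys X) (ν : X → ℕ) (hsurj : ∀ n, ∃ h, S.I h ∧ ν h = n)
    (hle : ∀ h k, S.I h → S.I k → (S.le h k ↔ ν k ≤ ν h)) (h k : X) (hh : S.I h) (hk : S.I k) :
    S.Succ h k ↔ ν k = ν h + 1 := by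
  have hlt : ∀ h k, S.I h → S.I k → (S.lt h k ↔ ν h < ν k) := by
    intro h k hh hk
    simp only [Sys.lt, hle _ _ hh hk, hle _ _ hk hh]
    omega
  simp only [Sys.Succ, hh, hk, true_and, hlt _ _ hh hk]
  constructor
  · rintro ⟨h1, h2⟩
    obtain ⟨l, hl, hl'⟩ := hsurj (ν h + 1)
    rcases h2 l hl with h3 | h3
    · rw [hle _ _ hl hk] at h3; omega
    · rw [hle _ _ hh hl] at h3; omega
  · intro h1
    refine ⟨by omega, fun l hl => ?_⟩
    rw [hle _ _ hl hk, hle _ _ hh hl]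
    omega

end Sys

end Pool.Agent.Helper85.ProP
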