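import Pool.Agent.Helper85.ProP.GSys
import Pool.Agent.Helper85.ProP.SysThm

/-!
Translation of the group relations into the module `V = A₁ / A₂`, and soundness.
-/

set_option autoImplicit false

namespace Pool.Agent.Helper85.ProP

open Function Relation

/-- A model of the section `A₁ / A₂` of `G` as an additive group `V` with an action of `G`. -/
structure Model {G : Type*} [Group G] (A1 A2 : Subgroup G) {V : Type*} [AddCommGroup V]
    (π : G → V) (σ : G →* AddMonoid.End V) : Prop where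
  le : A2 ≤ A1
  conj1 : ∀ h, ∀ a ∈ A1, h * a * h⁻¹ ∈ A1
  mul : ∀ a ∈ A1, ∀ b ∈ A1, π (a * b) = π a + π b
  surj : ∀ m, ∃ a ∈ A1, π a = m
  zero : ∀ a ∈ A1, (π a = 0 ↔ a ∈ A2)
  act : ∀ h, ∀ a ∈ A1, π (h * a * h⁻¹) = σ h (π a)

section

/-- the range of an additive endomorphism -/
def Rg {V : Type*} [AddCommGroup V] (f : AddMonoid.End V) : AddSubgroup V :=
  AddMonoidHom.range (f : V →+ V)

lemma mem_Rg {V : Type*} [AddCommGroup V] {f : AddMonoid.End V} {v : V} :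
    v ∈ Rg f ↔ ∃ w, f w = v := Iff.rfl

lemma end_sub_one_apply {V : Type*} [AddCommGroup V] (f : AddMonoid.End V) (w : V) :
    (f - 1) w = f w - w := rfl

variable {G : Type*} [Group G] {V : Type*} [AddCommGroup V] (σ : G →* AddMonoid.End V)

/-- the subgroup `Σ (σ(l_i) - 1) V` -/
def Nn : List G → AddSubgroup V
  | [] => ⊥
  | l :: ls => Rg (σ l - 1) ⊔ Nn ls

/-- the subgroup `(σ h - 1) V + N` -/
def Yy (ls : List G) (h : G) : AddSubgroup V := Rg (σ h - 1) ⊔ Nn σ ls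

lemma nn_le_yy (ls : List G) (h : G) : Nn σ ls ≤ Yy σ ls h := le_sup_right

lemma sub_mem_yy (ls : List G) (h : G) (v : V) : σ h v - v ∈ Yy σ ls h :=
  AddSubgroup.mem_sup_left ⟨v, rfl⟩

lemma yy_le_iff (ls : List G) (h : G) (U : AddSubgroup V) (hU : Nn σ ls ≤ U) :
    Yy σ ls h ≤ U ↔ ∀ v, σ h v - v ∈ U := by
  constructor
  · intro H v
    exact H (sub_mem_yy σ ls h v)
  · intro H
    refine sup_le ?_ hU
    rintro _ ⟨v, rfl⟩
    exact H v

lemma mem_yy_iff (ls : List G) (h : G) (v : V) :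
    v ∈ Yy σ ls h ↔ ∃ w, v - (σ h w - w) ∈ Nn σ ls := by
  unfold Yy
  rw [AddSubgroup.mem_sup]
  constructor
  · rintro ⟨_, ⟨w, rfl⟩, n, hn, rfl⟩
    refine ⟨w, ?_⟩
    have : (σ h w - w) + n - (σ h w - w) = n := by abel
    show (σ h w - w) + n - (σ h w - w) ∈ _
    rw [this]; exact hn
  · rintro ⟨w, hw⟩
    refine ⟨σ h w - w, ⟨w, rfl⟩, _, hw, by abel⟩

end

namespace Model

variable {G : Type*} [Group G] {A1 A2 : Subgroup G} {V : Type*} [AddCommGroup V]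
    {π : G → V} {σ : G →* AddMonoid.End V} (M : Model A1 A2 π σ)

include M

lemma one : π 1 = 0 := by
  have := M.mul 1 A1.one_mem 1 A1.one_mem
  simpa using this

lemma inv {a : G} (ha : a ∈ A1) : π a⁻¹ = - π a := by
  have := M.mul a ha a⁻¹ (A1.inv_mem ha)
  rw [mul_inv_cancel, M.one] at this
  exact (neg_eq_of_add_eq_zero_right this.symm).symm

lemma cm_mem (h : G) {a : G} (ha : a ∈ A1) : cm h a ∈ A1 :=
  A1.mul_mem (M.conj1 h a ha) (A1.inv_mem ha)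

lemma pi_cm (h : G) {a : G} (ha : a ∈ A1) : π (cm h a) = σ h (π a) - π a := by
  unfold cm
  rw [M.mul _ (M.conj1 h a ha) _ (A1.inv_mem ha), M.act h a ha, M.inv ha, sub_eq_add_neg]

lemma inN_iff (ls : List G) {x : G} (hx : x ∈ A1) :
    inN (· ∈ A1) (· ∈ A2) ls x ↔ π x ∈ Nn σ ls := by
  induction ls generalizing x with
  | nil =>
    simp only [inN, Nn, AddSubgroup.mem_bot]
    exact (M.zero x hx).symm
  | cons l ls ih =>
    simp only [inN, Nn, AddSubgroup.mem_sup]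
    constructor
    · rintro ⟨a, ha, h⟩
      have hc := M.cm_mem l ha
      rw [ih (A1.mul_mem (A1.inv_mem hc) hx), M.mul _ (A1.inv_mem hc) _ hx, M.inv hc] at h
      refine ⟨π (cm l a), ⟨π a, ?_⟩, _, h, by abel⟩
      rw [M.pi_cm l ha]; rfl
    · rintro ⟨_, ⟨w, rfl⟩, n, hn, h⟩
      obtain ⟨a, ha, rfl⟩ := M.surj w
      refine ⟨a, ha, ?_⟩
      have hc := M.cm_mem l ha
      rw [ih (A1.mul_mem (A1.inv_mem hc) hx), M.mul _ (A1.inv_mem hc) _ hx, M.inv hc, ← h,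
        M.pi_cm l ha]
      have : -((σ l) (π a) - π a) + (((σ l) (π a) - π a) + n) = n := by abel
      show -((σ l) (π a) - π a) + (((σ l) (π a) - π a) + n) ∈ _
      rw [this]; exact hn

lemma le_iff (ls : List G) (h k : G) :
    gLe (· ∈ A1) (· ∈ A2) ls h k ↔ Yy σ ls h ≤ Yy σ ls k := by
  rw [yy_le_iff σ ls h _ (nn_le_yy σ ls k)]
  unfold gLe
  constructor
  · intro H v
    obtain ⟨a, ha, rfl⟩ := M.surj v
    obtain ⟨b, hb, hab⟩ := H a ha
    have h1 := M.cm_mem h ha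
    have h2 := M.cm_mem k hb
    rw [M.inN_iff ls (A1.mul_mem h1 (A1.inv_mem h2)), M.mul _ h1 _ (A1.inv_mem h2), M.inv h2,
      M.pi_cm h ha, M.pi_cm k hb] at hab
    rw [mem_yy_iff]
    exact ⟨π b, by rwa [sub_eq_add_neg]⟩
  · intro H a ha
    obtain ⟨w, hw⟩ := (mem_yy_iff σ ls k _).1 (H (π a))
    obtain ⟨b, hb, rfl⟩ := M.surj w
    refine ⟨b, hb, ?_⟩
    have h1 := M.cm_mem h ha
    have h2 := M.cm_mem k hb
    rw [M.inN_iff ls (A1.mul_mem h1 (A1.inv_mem h2)), M.mul _ h1 _ (A1.inv_mem h2), M.inv h2,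
      M.pi_cm h ha, M.pi_cm k hb, ← sub_eq_add_neg]
    exact hw

lemma triv_iff (ls : List G) (h : G) :
    gTriv (· ∈ A1) (· ∈ A2) ls h ↔ Yy σ ls h ≤ Nn σ ls := by
  rw [yy_le_iff σ ls h _ le_rfl]
  unfold gTriv
  constructor
  · intro H v
    obtain ⟨a, ha, rfl⟩ := M.surj v
    have := H a ha
    rwa [M.inN_iff ls (M.cm_mem h ha), M.pi_cm h ha] at this
  · intro H a ha
    rw [M.inN_iff ls (M.cm_mem h ha), M.pi_cm h ha]
    exact H _

lemma F_iff (ls : List G) (h k : G) {x : G} (hx : x ∈ A1) :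
    gF (· ∈ A1) (· ∈ A2) ls h x k ↔ σ h (π x) - π x ∈ Yy σ ls k := by
  unfold gF
  rw [mem_yy_iff]
  constructor
  · rintro ⟨b, hb, hab⟩
    have h1 := M.cm_mem h hx
    have h2 := M.cm_mem k hb
    rw [M.inN_iff ls (A1.mul_mem h1 (A1.inv_mem h2)), M.mul _ h1 _ (A1.inv_mem h2), M.inv h2,
      M.pi_cm h hx, M.pi_cm k hb] at hab
    exact ⟨π b, by rwa [sub_eq_add_neg]⟩
  · rintro ⟨w, hw⟩
    obtain ⟨b, hb, rfl⟩ := M.surj w
    refine ⟨b, hb, ?_⟩
    have h1 := M.cm_mem h hx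
    have h2 := M.cm_mem k hb
    rw [M.inN_iff ls (A1.mul_mem h1 (A1.inv_mem h2)), M.mul _ h1 _ (A1.inv_mem h2), M.inv h2,
      M.pi_cm h hx, M.pi_cm k hb, ← sub_eq_add_neg]
    exact hw

lemma comm_iff (h g : G) :
    (∀ a, a ∈ A1 → cm (cm h g) a ∈ A2) ↔ σ h * σ g = σ g * σ h := by
  have h1 : (∀ a, a ∈ A1 → cm (cm h g) a ∈ A2) ↔ ∀ v, σ (cm h g) v = v := by
    constructor
    · intro H v
      obtain ⟨a, ha, rfl⟩ := M.surj v
      have h2 := (M.zero _ (M.cm_mem (cm h g) ha)).2 (H a ha)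
      rw [M.pi_cm _ ha] at h2
      exact sub_eq_zero.1 h2
    · intro H a ha
      rw [← M.zero _ (M.cm_mem (cm h g) ha), M.pi_cm _ ha, H, sub_self]
  rw [h1]
  have h2 : (∀ v, σ (cm h g) v = v) ↔ σ (cm h g) = 1 := by
    constructor
    · intro H; ext v; exact H v
    · intro H v; rw [H]; rfl
  rw [h2]
  unfold cm
  constructor
  · intro H
    have h3 : σ (h * g) = σ (g * h) := by
      have : h * g = (h * g * h⁻¹ * g⁻¹) * (g * h) := by group
      rw [this, map_mul, H, one_mul]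
    rwa [map_mul, map_mul] at h3
  · intro H
    have h3 : h * g * h⁻¹ * g⁻¹ = (h * g) * (g * h)⁻¹ := by group
    rw [h3, map_mul, map_mul, H, ← map_mul, ← map_mul, mul_inv_cancel, map_one]

lemma I_iff (ls : List G) (g h : G) :
    gI (· ∈ A1) (· ∈ A2) ls g h ↔
      (σ h * σ g = σ g * σ h ∧ (Yy σ ls h ≤ Yy σ ls g ∧ ¬ Yy σ ls h ≤ Nn σ ls)) := by
  unfold gI
  rw [M.le_iff, M.triv_iff, M.comm_iff]

end Model

/-! ### soundness -/

section sound

variable {G : Type*} [Group G] {V : Type*} [AddCommGroup V] (σ : G →* AddMonoid.End V)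

lemma yy_mul (ls : List G) (k l : G) : Yy σ ls (k * l) ≤ Yy σ ls k ⊔ Yy σ ls l := by
  rw [yy_le_iff σ ls _ _ ((nn_le_yy σ ls k).trans le_sup_left)]
  intro v
  have : σ (k * l) v - v = (σ k (σ l v) - σ l v) + (σ l v - v) := by
    rw [map_mul]
    show σ k (σ l v) - v = _
    abel
  rw [this]
  exact AddSubgroup.add_mem _ (AddSubgroup.mem_sup_left (sub_mem_yy σ ls k _))
    (AddSubgroup.mem_sup_right (sub_mem_yy σ ls l _))

lemma sigma_inv_self (l : G) (v : V) : σ l (σ l⁻¹ v) = v := by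
  have : (σ l * σ l⁻¹) v = v := by
    rw [← map_mul, mul_inv_cancel, map_one]; rfl
  exact this

lemma yy_mul' (ls : List G) (k l : G) : Yy σ ls k ≤ Yy σ ls (k * l) ⊔ Yy σ ls l := by
  rw [yy_le_iff σ ls _ _ ((nn_le_yy σ ls (k * l)).trans le_sup_left)]
  intro v
  set w := σ l⁻¹ v with hw
  have hv : σ l w = v := sigma_inv_self σ l v
  have : σ k v - v = (σ (k * l) w - w) - (σ l w - w) := by
    rw [map_mul]
    show σ k v - v = (σ k (σ l w) - w) - (σ l w - w)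
    rw [hv]; abel
  rw [this]
  exact AddSubgroup.sub_mem _ (AddSubgroup.mem_sup_left (sub_mem_yy σ ls _ _))
    (AddSubgroup.mem_sup_right (sub_mem_yy σ ls l _))

lemma yy_inv (ls : List G) (k : G) : Yy σ ls k⁻¹ ≤ Yy σ ls k := by
  rw [yy_le_iff σ ls _ _ (nn_le_yy σ ls k)]
  intro v
  have h1 := sub_mem_yy σ ls k (σ k⁻¹ v)
  rw [sigma_inv_self] at h1
  have := AddSubgroup.neg_mem _ h1
  rwa [neg_sub] at this

/-- separation by subgroups on which a subgroup of finite index acts trivially -/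
def Sep : Prop :=
  ∀ (ls : List G) (y : V), y ∉ Nn σ ls → ∃ U : AddSubgroup V, Nn σ ls ≤ U ∧ y ∉ U ∧
    ∃ O : Subgroup G, O.FiniteIndex ∧ ∀ h ∈ O, ∀ v, σ h v - v ∈ U

/-- finiteness of the set of classes above a given one -/
theorem finite_above (hsep : Sep σ) (ls : List G) (g : G)
    (hchain : ∀ h, (σ h * σ g = σ g * σ h ∧ (Yy σ ls h ≤ Yy σ ls g ∧ ¬ Yy σ ls h ≤ Nn σ ls)) →
      ∀ k, (σ k * σ g = σ g * σ k ∧ (Yy σ ls k ≤ Yy σ ls g ∧ ¬ Yy σ ls k ≤ Nn σ ls)) →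
      Yy σ ls h ≤ Yy σ ls k ∨ Yy σ ls k ≤ Yy σ ls h)
    (h0 : G) (hh0 : (σ h0 * σ g = σ g * σ h0 ∧ (Yy σ ls h0 ≤ Yy σ ls g ∧
      ¬ Yy σ ls h0 ≤ Nn σ ls))) :
    {z | ∃ k, (σ k * σ g = σ g * σ k ∧ (Yy σ ls k ≤ Yy σ ls g ∧ ¬ Yy σ ls k ≤ Nn σ ls)) ∧
      Yy σ ls k = z ∧ Yy σ ls h0 < z}.Finite := by
  classical
  set I : G → Prop := fun h => (σ h * σ g = σ g * σ h ∧ (Yy σ ls h ≤ Yy σ ls g ∧
      ¬ Yy σ ls h ≤ Nn σ ls)) with hI
  obtain ⟨y, hy, hyN⟩ : ∃ y ∈ Yy σ ls h0, y ∉ Nn σ ls := by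
    by_contra hcon
    push Not at hcon
    exact hh0.2.2 hcon
  obtain ⟨U, hU1, hU2, O, hO, hOU⟩ := hsep ls y hyN
  -- elements of `O` commuting with `g` and below `g` lie below `h0`
  have hlow : ∀ l ∈ O, σ l * σ g = σ g * σ l → Yy σ ls l ≤ Yy σ ls g →
      Yy σ ls l ≤ Yy σ ls h0 := by
    intro l hl hlc hlg
    have h1 : Yy σ ls l ≤ U := (yy_le_iff σ ls l U hU1).2 (hOU l hl)
    by_cases hlt : Yy σ ls l ≤ Nn σ ls
    · exact hlt.trans (nn_le_yy σ ls h0)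
    · rcases hchain l ⟨hlc, hlg, hlt⟩ h0 hh0 with h2 | h2
      · exact h2
      · exact absurd (h1 (h2 hy)) hU2
  have hcomm : ∀ k l, σ k * σ g = σ g * σ k → σ l * σ g = σ g * σ l →
      σ (k * l) * σ g = σ g * σ (k * l) := by
    intro k l hk hl
    rw [map_mul, mul_assoc, hl, ← mul_assoc, hk, mul_assoc]
  have hcommi : ∀ k, σ k * σ g = σ g * σ k → σ k⁻¹ * σ g = σ g * σ k⁻¹ := by
    intro k hk
    have h1 : σ k⁻¹ * (σ k * σ g) * σ k⁻¹ = σ k⁻¹ * (σ g * σ k) * σ k⁻¹ := by rw [hk]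
    have h2 : σ k⁻¹ * σ k = 1 := by rw [← map_mul, inv_mul_cancel, map_one]
    have h3 : σ k * σ k⁻¹ = 1 := by rw [← map_mul, mul_inv_cancel, map_one]
    rw [← mul_assoc, h2, one_mul, mul_assoc, mul_assoc, h3, mul_one] at h1
    exact h1.symm
  have key : ∀ k l, I k → Yy σ ls h0 < Yy σ ls k → l ∈ O → I (k * l) →
      Yy σ ls k = Yy σ ls (k * l) := by
    intro k l hk hlt hl hkl
    have hlc : σ l * σ g = σ g * σ l := by
      have : l = k⁻¹ * (k * l) := by group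
      rw [this]
      exact hcomm _ _ (hcommi k hk.1) hkl.1
    have hlg : Yy σ ls l ≤ Yy σ ls g := by
      have : l = k⁻¹ * (k * l) := by group
      rw [this]
      exact (yy_mul σ ls _ _).trans (sup_le ((yy_inv σ ls k).trans hk.2.1) hkl.2.1)
    have hll := hlow l hl hlc hlg
    apply le_antisymm
    · rcases hchain h0 hh0 (k * l) hkl with h1 | h1
      · exact (yy_mul' σ ls k l).trans (sup_le le_rfl (hll.trans h1))
      · have := (yy_mul' σ ls k l).trans (sup_le h1 hll)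
        exact absurd hlt (not_lt_of_ge this)
    · exact (yy_mul σ ls k l).trans (sup_le le_rfl (hll.trans hlt.le))
  -- the classes factor through `G ⧸ O`
  let f : G ⧸ O → AddSubgroup V := fun q =>
    if h : ∃ k, I k ∧ Yy σ ls h0 < Yy σ ls k ∧ (k : G ⧸ O) = q then
      Yy σ ls (Classical.choose h) else ⊥
  refine Set.Finite.subset (Set.finite_range f) ?_
  rintro z ⟨k, hk, rfl, hlt⟩
  refine ⟨(k : G ⧸ O), ?_⟩
  have hex : ∃ k', I k' ∧ Yy σ ls h0 < Yy σ ls k' ∧ (k' : G ⧸ O) = (k : G ⧸ O) :=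
    ⟨k, hk, hlt, rfl⟩
  simp only [f, dif_pos hex]
  obtain ⟨c1, c2, c3⟩ := Classical.choose_spec hex
  set k' := Classical.choose hex
  have hkk : k' = k * (k⁻¹ * k') := by group
  have hO' : k⁻¹ * k' ∈ O := QuotientGroup.eq.1 c3.symm
  rw [hkk]
  exact (key k (k⁻¹ * k') hk hlt hO' (by rw [← hkk]; exact c1)).symm

end sound

end Pool.Agent.Helper85.ProP
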