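import Mathlib

/-!
The algebraic setting for the theorem on metabelian pro-p groups with decidable theory:
a noetherian local ring `R` with a group-like map `ρ : ℤ_p^d → R` (in the application
`R = ℤ_p[[X_1, …, X_d]]` and `ρ α = ∏ (1 + X_i)^{α_i}`).
-/

set_option autoImplicit false
set_option linter.unusedSectionVars false

namespace Pool.Agent.Helper85.ProP

open IsLocalRing

/-- the standing hypotheses on the group-like map `ρ : ℤ_p^d → R` -/
structure Hyp (p : ℕ) [Fact p.Prime] {d : ℕ} {R : Type} [CommRing R] [IsLocalRing R]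
    [Algebra ℤ_[p] R] (ρ : (Fin d → ℤ_[p]) → R) : Prop where
  zero : ρ 0 = 1
  add : ∀ a b, ρ (a + b) = ρ a * ρ b
  sub_mem : ∀ a, ρ a - 1 ∈ maximalIdeal R
  p_mem : (p : R) ∈ maximalIdeal R
  gen : maximalIdeal R ≤ Ideal.span ({(p : R)} ∪ Set.range fun a => ρ a - 1)
  residue : Finite (R ⧸ maximalIdeal R)
  fin : ∀ P : Ideal R, Finite (R ⧸ (P ⊔ Ideal.span {(p : R)})) → Module.Finite ℤ_[p] (R ⧸ P)

namespace Hyp

variable {p : ℕ} [Fact p.Prime] {d : ℕ} {R : Type} [CommRing R] [IsLocalRing R]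
    [Algebra ℤ_[p] R] {ρ : (Fin d → ℤ_[p]) → R} (H : Hyp p ρ)

include H

lemma nsmul (a : Fin d → ℤ_[p]) (n : ℕ) : ρ (n • a) = ρ a ^ n := by
  induction n with
  | zero => simp [H.zero]
  | succ n ih => rw [succ_nsmul, H.add, ih, pow_succ]

lemma natCast_smul (a : Fin d → ℤ_[p]) (n : ℕ) : ρ ((n : ℤ_[p]) • a) = ρ a ^ n := by
  rw [← H.nsmul, Nat.cast_smul_eq_nsmul]

lemma p_pow_smul (a : Fin d → ℤ_[p]) (n : ℕ) : ρ ((p : ℤ_[p]) ^ n • a) = ρ a ^ p ^ n := by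
  rw [← H.natCast_smul]; simp

lemma mul_neg (a : Fin d → ℤ_[p]) : ρ a * ρ (-a) = 1 := by
  rw [← H.add, add_neg_cancel, H.zero]

lemma isUnit (a : Fin d → ℤ_[p]) : IsUnit (ρ a) := IsUnit.of_mul_eq_one _ (H.mul_neg a)

/-- `ρ (a + b) - 1 = (ρ a - 1) ρ b + (ρ b - 1)` -/
lemma add_sub_one (a b : Fin d → ℤ_[p]) :
    ρ (a + b) - 1 = (ρ a - 1) * ρ b + (ρ b - 1) := by
  rw [H.add]; ring

lemma pow_sub_one_mem (a : Fin d → ℤ_[p]) (n : ℕ) :
    ρ a ^ n - 1 ∈ Ideal.span {ρ a - 1} := by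
  rw [Ideal.mem_span_singleton]
  exact sub_one_dvd_pow_sub_one' (ρ a) n
  where
  sub_one_dvd_pow_sub_one' (x : R) (n : ℕ) : x - 1 ∣ x ^ n - 1 := by
    simpa using sub_dvd_pow_sub_pow x 1 n

/-- if `x - 1 ∈ 𝔪^(j+1)` then `x^p - 1 ∈ 𝔪^(j+2)`; more precisely
`x^p - 1 ∈ 𝔪 * (x - 1)` -/
lemma pow_p_sub_one_mem {x : R} (hx : x - 1 ∈ maximalIdeal R) :
    ∃ m ∈ maximalIdeal R, x ^ p - 1 = m * (x - 1) := by
  refine ⟨∑ i ∈ Finset.range p, x ^ i, ?_, ?_⟩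
  · have h1 : (∑ i ∈ Finset.range p, x ^ i) - p = ∑ i ∈ Finset.range p, (x ^ i - 1) := by
      simp [Finset.sum_sub_distrib]
    have h2 : (∑ i ∈ Finset.range p, x ^ i) - p ∈ maximalIdeal R := by
      rw [h1]
      refine Ideal.sum_mem _ fun i _ => ?_
      obtain ⟨c, hc⟩ : x - 1 ∣ x ^ i - 1 := by simpa using sub_dvd_pow_sub_pow x 1 i
      rw [hc]
      exact Ideal.mul_mem_right _ _ hx
    simpa using Ideal.add_mem _ h2 H.p_mem
  · exact (geom_sum_mul x p).symm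

lemma pow_p_pow_sub_one_mem (a : Fin d → ℤ_[p]) (n : ℕ) :
    ρ a ^ p ^ n - 1 ∈ maximalIdeal R ^ (n + 1) := by
  induction n with
  | zero => simpa using H.sub_mem a
  | succ n ih =>
    have hx : ρ a ^ p ^ n - 1 ∈ maximalIdeal R :=
      Ideal.pow_le_self (Nat.succ_ne_zero n) ih
    obtain ⟨m, hm, h⟩ := H.pow_p_sub_one_mem hx
    rw [show p ^ (n + 1) = p ^ n * p from pow_succ p n, pow_mul, h, pow_succ _ (n + 1), mul_comm m]
    exact Ideal.mul_mem_mul ih hm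

/-- `ρ (p^n a) - 1 ∈ 𝔪^(n+1)` -/
lemma p_pow_smul_sub_one_mem (a : Fin d → ℤ_[p]) (n : ℕ) :
    ρ ((p : ℤ_[p]) ^ n • a) - 1 ∈ maximalIdeal R ^ (n + 1) := by
  rw [H.p_pow_smul]; exact H.pow_p_pow_sub_one_mem a n

/-- `ρ (α q) - 1 ∈ (ρ q - 1) R` for every `α ∈ ℤ_p` -/
lemma smul_sub_one_mem [IsNoetherianRing R] (α : ℤ_[p]) (q : Fin d → ℤ_[p]) :
    ρ (α • q) - 1 ∈ Ideal.span {ρ q - 1} := by
  set I : Ideal R := Ideal.span {ρ q - 1} with hI
  -- Krull intersection in `R ⧸ I`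
  have key : ∀ n : ℕ, ρ (α • q) - 1 ∈ I ⊔ maximalIdeal R ^ n := by
    intro n
    obtain ⟨a, ha⟩ : ∃ a : ℕ, ∃ β : ℤ_[p], α = a + (p : ℤ_[p]) ^ n * β := by
      have h := PadicInt.appr_spec n α
      rw [Ideal.mem_span_singleton] at h
      obtain ⟨β, hβ⟩ := h
      exact ⟨α.appr n, β, by rw [← hβ]; ring⟩
    obtain ⟨β, hβ⟩ := ha
    have h1 : α • q = (p : ℤ_[p]) ^ n • (β • q) + (a : ℤ_[p]) • q := by
      rw [hβ, add_smul, mul_smul, add_comm]
    rw [h1, H.add_sub_one]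
    refine Ideal.add_mem _ ?_ ?_
    · refine Ideal.mul_mem_right _ _ ?_
      refine Ideal.mem_sup_right ?_
      exact Ideal.pow_le_pow_right (Nat.le_succ n) (H.p_pow_smul_sub_one_mem (β • q) n)
    · refine Ideal.mem_sup_left ?_
      rw [H.natCast_smul]
      exact H.pow_sub_one_mem q a
  by_cases hI1 : I = ⊤
  · rw [hI1]; trivial
  have hloc : IsLocalRing (R ⧸ I) := by
    have : Nontrivial (R ⧸ I) := Ideal.Quotient.nontrivial_iff.2 hI1
    exact IsLocalRing.of_surjective' (Ideal.Quotient.mk I) Ideal.Quotient.mk_surjective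
  have hmk : Ideal.Quotient.mk I (ρ (α • q) - 1) ∈
      (⨅ i : ℕ, maximalIdeal (R ⧸ I) ^ i) := by
    rw [Ideal.mem_iInf]
    intro n
    have h2 := Ideal.mem_map_of_mem (Ideal.Quotient.mk I) (key n)
    rw [Ideal.map_sup, Ideal.map_quotient_self, bot_sup_eq, Ideal.map_pow] at h2
    refine Ideal.pow_right_mono ?_ n h2
    rw [Ideal.map_le_iff_le_comap]
    intro x hx
    rw [Ideal.mem_comap]
    rw [mem_maximalIdeal, mem_nonunits_iff] at hx ⊢
    intro hu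
    apply hx
    have : IsLocalHom (Ideal.Quotient.mk I) :=
      IsLocalHom.of_surjective _ Ideal.Quotient.mk_surjective
    exact isUnit_of_map_unit (Ideal.Quotient.mk I) x hu
  rw [Ideal.iInf_pow_eq_bot_of_isLocalRing _ (IsLocalRing.maximalIdeal.isMaximal _).ne_top] at hmk
  rw [Ideal.mem_bot, Ideal.Quotient.eq_zero_iff_mem] at hmk
  exact hmk

end Hyp

end Pool.Agent.Helper85.ProP
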