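import Pool.Agent.Helper85.ProP.ModUndec
import Pool.Agent.Helper22.ProP.Good
import Pool.Agent.Helper27.ProP.Top
import Pool.Agent.Helper49.ProP.Point
import Pool.Agent.Helper49.ProP.Hyp
import Pool.Agent.Helper79.ProP.T1
import Pool.Agent.Helper88.ProP.DepMain
import Pool.Agent.Helper89.ProPNorm

/-!
Assembly: finitely generated torsion-free metabelian pro-p groups.
-/

set_option autoImplicit false
set_option linter.unusedSectionVars false

namespace Pool.Agent.Helper85.ProP

open Function

section Def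

variable {G : Type*} [Group G]

lemma d_bot : D1 0 (fun _ : ℕ → G => (· ∈ (⊥ : Subgroup G))) where
  dep _ _ _ _ := rfl
  df n _ s hs := (DF.eq hs (TF.one n)).of_iff fun v => by simp [Subgroup.mem_bot]

lemma mem_centComm (x : G) : x ∈ centComm G ↔ ∀ a b : G, cm a b * x = x * cm a b := by
  unfold centComm
  rw [Subgroup.mem_centralizer_iff]
  constructor
  · intro h a b
    exact h _ ⟨a, b, rfl⟩
  · rintro h _ ⟨a, b, rfl⟩
    exact h a b

lemma d_centComm : D1 0 (fun _ : ℕ → G => (· ∈ centComm G)) where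
  dep _ _ _ _ := rfl
  df n _ s hs := by
    refine DF.of_iff (P := fun v => ∀ a, ∀ b, cm a b * s v = s v * cm a b) ?_
      (fun v => (mem_centComm _).symm)
    refine DF.all (R := fun v a => ∀ b, cm a b * s v = s v * cm a b) ?_ ?_
    · intro v z w; rw [hs.upd le_rfl]
    · refine DF.all (R := fun v b => cm (v n) b * s v = s v * cm (v n) b) ?_ ?_
      · intro v z w; rw [hs.upd (Nat.le_succ n), update_of_ne (by omega)]
      · exact DF.eq (((TF.last n).succ.cm (TF.last _)).mul hs.succ.succ)
          (hs.succ.succ.mul ((TF.last n).succ.cm (TF.last _)))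

lemma d_AA : D1 0 (fun _ : ℕ → G => (· ∈ AA G)) where
  dep _ _ _ _ := rfl
  df n _ s hs := by
    refine DF.of_iff (P := fun v => s v ∈ centComm G ∧
      ∀ y, y ∈ centComm G → y * s v = s v * y) ?_ ?_
    · refine (d_centComm.df n (Nat.zero_le _) s hs).and
        (DF.all (R := fun v y => y ∈ centComm G → y * s v = s v * y) ?_ ?_)
      · intro v z w; rw [hs.upd le_rfl]
      · exact (d_centComm.df _ (Nat.zero_le _) _ (TF.last n)).imp
          (DF.eq ((TF.last n).mul hs.succ) (hs.succ.mul (TF.last n)))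
    · intro v
      unfold AA
      rw [Subgroup.mem_inf, Subgroup.mem_centralizer_iff]
      rfl

end Def

lemma centComm_conj {G : Type*} [Group G] (h : G) {a : G} (ha : a ∈ centComm G) :
    h * a * h⁻¹ ∈ centComm G := by
  rw [mem_centComm] at ha ⊢
  intro x y
  have h1 := ha (h⁻¹ * x * h) (h⁻¹ * y * h)
  have h2 : cm (h⁻¹ * x * h) (h⁻¹ * y * h) = h⁻¹ * cm x y * h := by
    unfold cm; group
  rw [h2] at h1
  calc cm x y * (h * a * h⁻¹) = h * ((h⁻¹ * cm x y * h) * a) * h⁻¹ := by group
    _ = h * (a * (h⁻¹ * cm x y * h)) * h⁻¹ := by rw [h1]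
    _ = h * a * h⁻¹ * cm x y := by group

lemma AA_conj {G : Type*} [Group G] (h : G) {a : G} (ha : a ∈ AA G) : h * a * h⁻¹ ∈ AA G := by
  unfold AA at ha ⊢
  rw [Subgroup.mem_inf, Subgroup.mem_centralizer_iff] at ha ⊢
  refine ⟨centComm_conj h ha.1, ?_⟩
  intro y hy
  have h1 := ha.2 (h⁻¹ * y * h) (by
    have := centComm_conj h⁻¹ hy
    rwa [inv_inv] at this)
  calc y * (h * a * h⁻¹) = h * ((h⁻¹ * y * h) * a) * h⁻¹ := by group
    _ = h * (a * (h⁻¹ * y * h)) * h⁻¹ := by rw [h1]
    _ = h * a * h⁻¹ * y := by group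


/-- A finitely generated torsion-free metabelian pro-p group with decidable elementary theory has
finite rank. -/
theorem metabelian.{u} (p : ℕ) [Fact p.Prime] (G : Type u) [Group G] [TopologicalSpace G]
    [IsTopologicalGroup G] [CompactSpace G] [T2Space G] [TotallyDisconnectedSpace G]
    (hpro : ∀ U : Subgroup G, U.Normal → IsOpen (U : Set G) → ∃ n : ℕ, U.index = p ^ n)
    (hfg : ∃ S : Finset G, (Subgroup.closure (S : Set G)).topologicalClosure = ⊤)
    (htf : ∀ (g : G) (n : ℕ), 0 < n → g ^ n = 1 → g = 1)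
    (hmet : ∀ a b c d : G, cm a b * cm c d = cm c d * cm a b)
    (hdec : DecTh G) : FinRank G := by
  obtain ⟨S, hS⟩ := hfg
  have hx : Set.range (fun i : Fin S.card => (S.equivFin.symm i : G)) = (S : Set G) := by
    ext g
    constructor
    · rintro ⟨i, rfl⟩
      exact (S.equivFin.symm i).2
    · intro hg
      exact ⟨S.equivFin ⟨g, hg⟩, by simp⟩
  have hHyp := (Helper49.ProP.stmtHyp p S.card).1
  rcases Helper27.ProP.stmtTop Helper79.ProP.stmtT1 Helper49.ProP.stmtHyp p G hpro S.card _
    (by rw [hx]; exact hS) htf hmet with h | h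
  · exact h
  · obtain ⟨M, i1, i2, i3, π, h1, h2, h3, h4, h5, h6⟩ := h
    exfalso
    have hone : π 1 = 0 := by
      have := h1 1 (AA G).one_mem 1 (AA G).one_mem
      simpa using this
    exact module_undec (Helper22.ProP.stmtGood (Helper88.ProP.stmtDep Helper89.ProPNorm.stmtNorm)
      Helper49.ProP.stmtPoint) hHyp d_AA d_bot bot_le (fun h a ha => AA_conj h ha) π h1 h2
      (fun a ha => ⟨fun h => by rw [h3 a ha h]; exact (⊥ : Subgroup G).one_mem,
        fun h => by rw [(Subgroup.mem_bot.1 h)]; exact hone⟩) h4 h5 h6 hdec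

end Pool.Agent.Helper85.ProP
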