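import Pool.Agent.Helper85.ProP.Sys
import Pool.Agent.Helper74.Compile

/-!
A counter machine, given by a finite list of transitions, accepting a set that is not computable.
-/

set_option autoImplicit false

namespace Pool.Agent.Helper85.ProP

open Function Relation Pool.Agent.Helper74

namespace Mach

/-- transitions of the machine executing regular programs -/
def trans : List (Prg Act) → List (Option Act × List (Prg Act))
  | [] => []
  | .nil :: k => [(none, k)]
  | .act a :: k => [(some a, k)]
  | .alt P Q :: k => [(none, P :: k), (none, Q :: k)]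
  | .seq P Q :: k => [(none, P :: Q :: k)]
  | .loop P :: k => [(none, k), (none, P :: .loop P :: k)]

/-- effect of an optional action -/
def ostep : Option Act → (ℕ → ℕ) → (ℕ → ℕ) → Prop
  | none, s, t => t = s
  | some a, s, t => astep a s t

/-- one step -/
def step (c c' : List (Prg Act) × (ℕ → ℕ)) : Prop :=
  ∃ o, (o, c'.1) ∈ trans c.1 ∧ ostep o c.2 c'.2

/-- semantics of a list of programs -/
def semL : List (Prg Act) → (ℕ → ℕ) → (ℕ → ℕ) → Prop
  | [], s, t => s = t
  | P :: k, s, t => ∃ u, Sem P s u ∧ semL k u t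

lemma step_of_mem {k k' : List (Prg Act)} {s : ℕ → ℕ} (h : (none, k') ∈ trans k) :
    step (k, s) (k', s) := ⟨none, h, rfl⟩

lemma reach_of_sem (P : Prg Act) (k : List (Prg Act)) (s t : ℕ → ℕ) (h : Sem P s t) :
    ReflTransGen step (P :: k, s) (k, t) := by
  induction P generalizing k s t with
  | nil =>
    have : s = t := h
    subst this
    exact ReflTransGen.single (step_of_mem (by simp [trans]))
  | act a => exact ReflTransGen.single ⟨some a, by simp [trans], h⟩
  | alt P Q ihP ihQ =>
    rcases h with h | h
    · exact ReflTransGen.head (step_of_mem (k' := P :: k) (by simp [trans])) (ihP k s t h)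
    · exact ReflTransGen.head (step_of_mem (k' := Q :: k) (by simp [trans])) (ihQ k s t h)
  | seq P Q ihP ihQ =>
    obtain ⟨u, h1, h2⟩ := h
    exact ReflTransGen.head (step_of_mem (k' := P :: Q :: k) (by simp [trans]))
      ((ihP _ s u h1).trans (ihQ _ u t h2))
  | loop P ih =>
    have h' : ReflTransGen (P.sem astep) s t := h
    induction h' using ReflTransGen.head_induction_on with
    | refl => exact ReflTransGen.single (step_of_mem (by simp [trans]))
    | head h1 h2 ih2 =>
      refine ReflTransGen.head (step_of_mem (k' := P :: Prg.loop P :: k) (by simp [trans])) ?_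
      exact (ih _ _ _ h1).trans (ih2 h2)

lemma semL_of_step {c c' : List (Prg Act) × (ℕ → ℕ)} {t : ℕ → ℕ} (h : step c c')
    (h' : semL c'.1 c'.2 t) : semL c.1 c.2 t := by
  obtain ⟨K, s⟩ := c
  obtain ⟨K', s'⟩ := c'
  obtain ⟨o, ho, hs⟩ := h
  simp only at ho hs h' ⊢
  cases K with
  | nil => simp [trans] at ho
  | cons P k =>
    cases P with
    | nil =>
      simp only [trans, List.mem_singleton, Prod.mk.injEq] at ho
      obtain ⟨rfl, rfl⟩ := ho
      have : s' = s := hs
      subst this
      exact ⟨s', rfl, h'⟩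
    | act a =>
      simp only [trans, List.mem_singleton, Prod.mk.injEq] at ho
      obtain ⟨rfl, rfl⟩ := ho
      exact ⟨s', hs, h'⟩
    | alt P Q =>
      simp only [trans, List.mem_cons, Prod.mk.injEq, List.not_mem_nil, or_false] at ho
      rcases ho with ⟨rfl, rfl⟩ | ⟨rfl, rfl⟩
      · have : s' = s := hs
        subst this
        obtain ⟨u, h1, h2⟩ := h'
        exact ⟨u, Or.inl h1, h2⟩
      · have : s' = s := hs
        subst this
        obtain ⟨u, h1, h2⟩ := h'
        exact ⟨u, Or.inr h1, h2⟩
    | seq P Q =>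
      simp only [trans, List.mem_singleton, Prod.mk.injEq] at ho
      obtain ⟨rfl, rfl⟩ := ho
      have : s' = s := hs
      subst this
      obtain ⟨u, h1, w, h2, h3⟩ := h'
      exact ⟨w, ⟨u, h1, h2⟩, h3⟩
    | loop P =>
      simp only [trans, List.mem_cons, Prod.mk.injEq, List.not_mem_nil, or_false] at ho
      rcases ho with ⟨rfl, rfl⟩ | ⟨rfl, rfl⟩
      · have : s' = s := hs
        subst this
        exact ⟨s', ReflTransGen.refl, h'⟩
      · have : s' = s := hs
        subst this
        obtain ⟨u, h1, w, h2, h3⟩ := h'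
        exact ⟨w, ReflTransGen.head h1 h2, h3⟩

lemma sem_iff (P : Prg Act) (s t : ℕ → ℕ) :
    Sem P s t ↔ ReflTransGen step ([P], s) ([], t) := by
  constructor
  · exact reach_of_sem P [] s t
  · intro h
    have : semL [P] s t := by
      have key : ∀ c : List (Prg Act) × (ℕ → ℕ), ReflTransGen step c ([], t) →
          semL c.1 c.2 t := by
        intro c hc
        induction hc using ReflTransGen.head_induction_on with
        | refl => rfl
        | head h1 _ ih => exact semL_of_step h1 ih
      exact key _ h
    obtain ⟨u, h1, h2⟩ := this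
    have h2' : u = t := h2
    exact h2' ▸ h1

/-- the states occurring in the execution of `P` with the continuation `k` -/
def conts : Prg Act → List (Prg Act) → Set (List (Prg Act))
  | .nil, k => {.nil :: k}
  | .act a, k => {.act a :: k}
  | .alt P Q, k => {.alt P Q :: k} ∪ (conts P k ∪ conts Q k)
  | .seq P Q, k => {.seq P Q :: k} ∪ (conts P (Q :: k) ∪ conts Q k)
  | .loop P, k => {.loop P :: k} ∪ conts P (.loop P :: k)

lemma conts_finite (P : Prg Act) (k : List (Prg Act)) : (conts P k).Finite := by
  induction P generalizing k with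
  | nil => exact Set.finite_singleton _
  | act a => exact Set.finite_singleton _
  | alt P Q ihP ihQ => exact (Set.finite_singleton _).union ((ihP _).union (ihQ _))
  | seq P Q ihP ihQ => exact (Set.finite_singleton _).union ((ihP _).union (ihQ _))
  | loop P ih => exact (Set.finite_singleton _).union (ih _)

lemma mem_conts (P : Prg Act) (k : List (Prg Act)) : P :: k ∈ conts P k := by
  cases P <;> simp [conts]

lemma conts_closed (P : Prg Act) (k : List (Prg Act)) :
    ∀ q ∈ conts P k, ∀ o q', (o, q') ∈ trans q → q' ∈ conts P k ∪ {k} := by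
  induction P generalizing k with
  | nil =>
    rintro q rfl o q' h
    simp only [trans, List.mem_singleton, Prod.mk.injEq] at h
    right; exact h.2
  | act a =>
    rintro q rfl o q' h
    simp only [trans, List.mem_singleton, Prod.mk.injEq] at h
    right; exact h.2
  | alt P Q ihP ihQ =>
    rintro q (hq | hq | hq) o q' h
    · have : q = .alt P Q :: k := hq
      subst this
      simp only [trans, List.mem_cons, Prod.mk.injEq, List.not_mem_nil, or_false] at h
      rcases h with ⟨-, rfl⟩ | ⟨-, rfl⟩
      · left; right; left; exact mem_conts _ _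
      · left; right; right; exact mem_conts _ _
    · rcases ihP _ q hq o q' h with h | h
      · left; right; left; exact h
      · right; exact h
    · rcases ihQ _ q hq o q' h with h | h
      · left; right; right; exact h
      · right; exact h
  | seq P Q ihP ihQ =>
    rintro q (hq | hq | hq) o q' h
    · have : q = .seq P Q :: k := hq
      subst this
      simp only [trans, List.mem_singleton, Prod.mk.injEq] at h
      obtain ⟨-, rfl⟩ := h
      left; right; left; exact mem_conts _ _
    · rcases ihP _ q hq o q' h with h | h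
      · left; right; left; exact h
      · have : q' = Q :: k := h
        subst this
        left; right; right; exact mem_conts _ _
    · rcases ihQ _ q hq o q' h with h | h
      · left; right; right; exact h
      · right; exact h
  | loop P ih =>
    rintro q (hq | hq) o q' h
    · have : q = .loop P :: k := hq
      subst this
      simp only [trans, List.mem_cons, Prod.mk.injEq, List.not_mem_nil, or_false] at h
      rcases h with ⟨-, rfl⟩ | ⟨-, rfl⟩
      · right; rfl
      · left; right; exact mem_conts _ _
    · rcases ih _ q hq o q' h with h | h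
      · left; right; exact h
      · left; left; exact h

/-- configurations as functions -/
def cfg (q : ℕ) (s : ℕ → ℕ) : ℕ → ℕ
  | 0 => q
  | j + 1 => s j

/-- the register and the kind of an optional action -/
def oreg : Option Act → ℕ
  | none => 0
  | some (.inc r) => r
  | some (.dec r) => r
  | some (.zero r) => r

/-- the kind of an optional action -/
def okind : Option Act → Kind
  | none => .nop
  | some (.inc _) => .inc
  | some (.dec _) => .dec
  | some (.zero _) => .zero

lemma ostep_iff (o : Option Act) (s t : ℕ → ℕ) :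
    ostep o s t ↔ (∀ j, j ≠ oreg o → t j = s j) ∧ (okind o).ok (s (oreg o)) (t (oreg o)) := by
  rcases o with _ | (r | r | r)
  · simp only [ostep, oreg, okind, Kind.ok]
    constructor
    · rintro rfl; simp
    · rintro ⟨h1, h2⟩
      funext j
      by_cases hj : j = 0
      · subst hj; exact h2.symm
      · exact h1 j hj
  · simp only [ostep, oreg, okind, Kind.ok, astep]
    constructor
    · rintro rfl
      exact ⟨fun j hj => update_of_ne hj _ _, by simp⟩
    · rintro ⟨h1, h2⟩
      funext j
      by_cases hj : j = r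
      · subst hj; rw [update_self, h2]
      · rw [update_of_ne hj, h1 j hj]
  · simp only [ostep, oreg, okind, Kind.ok, astep]
    constructor
    · rintro ⟨h0, rfl⟩
      refine ⟨fun j hj => update_of_ne hj _ _, ?_⟩
      rw [update_self]; omega
    · rintro ⟨h1, h2⟩
      refine ⟨by omega, ?_⟩
      funext j
      by_cases hj : j = r
      · subst hj; rw [update_self, h2]; omega
      · rw [update_of_ne hj, h1 j hj]
  · simp only [ostep, oreg, okind, Kind.ok, astep]
    constructor
    · rintro ⟨h0, rfl⟩
      exact ⟨fun _ _ => rfl, h0, h0⟩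
    · rintro ⟨h1, h2, h3⟩
      refine ⟨h2, ?_⟩
      funext j
      by_cases hj : j = r
      · subst hj; rw [h2, h3]
      · exact h1 j hj

theorem exists_trs (P : Prg Act) : ∃ (K : ℕ) (L : List Tr) (q0 qf : ℕ), 1 ≤ K ∧
    (∀ t ∈ L, t.r < K) ∧ ∀ s : ℕ → ℕ, (∃ t, Sem P s t) ↔
      ∃ c, ReflTransGen (mstep L) (cfg q0 s) c ∧ c 0 = qf := by
  classical
  set St : Set (List (Prg Act)) := conts P [] ∪ {[]} with hSt
  have hfin : St.Finite := (conts_finite P []).union (Set.finite_singleton _)
  have hcl : ∀ q ∈ St, ∀ o q', (o, q') ∈ trans q → q' ∈ St := by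
    rintro q (hq | hq) o q' h
    · exact conts_closed P [] q hq o q' h
    · have : q = [] := hq
      subst this
      simp [trans] at h
  haveI : Finite St := hfin
  obtain ⟨N, ⟨e⟩⟩ := Finite.exists_equiv_fin St
  set enc : List (Prg Act) → ℕ := fun q => if h : q ∈ St then (e ⟨q, h⟩ : ℕ) else 0 with henc
  have hinj : ∀ q ∈ St, ∀ q' ∈ St, enc q = enc q' → q = q' := by
    intro q hq q' hq' h
    simp only [henc, dif_pos hq, dif_pos hq'] at h
    have h2 := e.injective (Fin.ext h)
    exact congrArg Subtype.val h2
  set L : List Tr := hfin.toFinset.toList.flatMap fun q =>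
    (trans q).map fun x => ⟨enc q, enc x.2, oreg x.1, okind x.1⟩ with hL
  have hmem : ∀ t : Tr, t ∈ L ↔ ∃ q ∈ St, ∃ o q', (o, q') ∈ trans q ∧
      t = ⟨enc q, enc q', oreg o, okind o⟩ := by
    intro t
    simp only [hL, List.mem_flatMap, Finset.mem_toList, Set.Finite.mem_toFinset, List.mem_map,
      Prod.exists]
    constructor
    · rintro ⟨q, hq, o, q', h1, h2⟩
      exact ⟨q, hq, o, q', h1, h2.symm⟩
    · rintro ⟨q, hq, o, q', h1, h2⟩
      exact ⟨q, hq, o, q', h1, h2.symm⟩
  obtain ⟨K, hK1, hK⟩ : ∃ K, 1 ≤ K ∧ ∀ t ∈ L, t.r < K := by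
    refine ⟨(L.map Tr.r).sum + 1, by omega, fun t ht => ?_⟩
    have := List.single_le_sum (l := L.map Tr.r) (by simp) t.r (List.mem_map_of_mem ht)
    omega
  have hstep : ∀ q ∈ St, ∀ s c', mstep L (cfg (enc q) s) c' ↔
      ∃ q' s', step (q, s) (q', s') ∧ c' = cfg (enc q') s' := by
    intro q hq s c'
    constructor
    · rintro ⟨t, ht, h1, h2, h3, h4⟩
      obtain ⟨q1, hq1, o, q', h5, rfl⟩ := (hmem t).1 ht
      have hqq : q = q1 := hinj _ hq _ hq1 h1
      subst hqq
      refine ⟨q', fun j => c' (j + 1), ⟨o, h5, ?_⟩, ?_⟩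
      · rw [ostep_iff]
        refine ⟨fun j hj => ?_, h4⟩
        exact h3 (j + 1) (by omega) (by simpa using hj)
      · funext j
        cases j with
        | zero => exact h2
        | succ j => rfl
    · rintro ⟨q', s', ⟨o, h1, h2⟩, rfl⟩
      refine ⟨⟨enc q, enc q', oreg o, okind o⟩, (hmem _).2 ⟨q, hq, o, q', h1, rfl⟩, rfl, rfl, ?_⟩
      rw [ostep_iff] at h2
      refine ⟨fun j hj1 hj2 => ?_, h2.2⟩
      obtain ⟨i, rfl⟩ : ∃ i, j = i + 1 := ⟨j - 1, by omega⟩
      exact h2.1 i (by simpa using hj2)
  have hin : ∀ c c', step c c' → c.1 ∈ St → c'.1 ∈ St := by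
    rintro c c' ⟨o, h1, -⟩ hc
    exact hcl _ hc _ _ h1
  refine ⟨K, L, enc [P], enc [], hK1, hK, fun s => ?_⟩
  have hP : [P] ∈ St := Or.inl (mem_conts _ _)
  have hN : ([] : List (Prg Act)) ∈ St := Or.inr rfl
  constructor
  · rintro ⟨t, ht⟩
    rw [sem_iff] at ht
    refine ⟨cfg (enc []) t, ?_, rfl⟩
    have key : ∀ c, ReflTransGen step ([P], s) c → c.1 ∈ St ∧
        ReflTransGen (mstep L) (cfg (enc [P]) s) (cfg (enc c.1) c.2) := by
      intro c hc
      induction hc with
      | refl => exact ⟨hP, ReflTransGen.refl⟩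
      | tail _ h2 ih =>
        refine ⟨hin _ _ h2 ih.1, ih.2.tail ?_⟩
        exact (hstep _ ih.1 _ _).2 ⟨_, _, h2, rfl⟩
    exact (key _ ht).2
  · rintro ⟨c, hc, hc0⟩
    have key : ∀ c, ReflTransGen (mstep L) (cfg (enc [P]) s) c → ∃ q s', q ∈ St ∧
        c = cfg (enc q) s' ∧ ReflTransGen step ([P], s) (q, s') := by
      intro c hc
      induction hc with
      | refl => exact ⟨_, _, hP, rfl, ReflTransGen.refl⟩
      | tail _ h2 ih =>
        obtain ⟨q, s', hq, rfl, h3⟩ := ih
        obtain ⟨q', s'', h4, rfl⟩ := (hstep _ hq _ _).1 h2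
        exact ⟨q', s'', hin _ _ h4 hq, rfl, h3.tail h4⟩
    obtain ⟨q, s', hq, rfl, h3⟩ := key c hc
    have : q = [] := hinj _ hq _ hN hc0
    subst this
    exact ⟨s', (sem_iff _ _ _).2 h3⟩

/-- A counter machine accepting a set that is not computable. -/
theorem exists_machine : ∃ S : Set ℕ, ¬ ComputablePred (fun n => n ∈ S) ∧
    ∃ (K : ℕ) (L : List Tr) (q0 qf : ℕ), 1 ≤ K ∧ (∀ t ∈ L, t.r < K) ∧
      ∀ n, n ∈ S ↔ ∃ c, ReflTransGen (mstep L) (cinit q0 n) c ∧ c 0 = qf := by
  set S : Set ℕ := {n | (Nat.Partrec.Code.eval (Denumerable.ofNat Nat.Partrec.Code n) 0).Dom}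
    with hS
  have hnc : ¬ ComputablePred (fun n => n ∈ S) := by
    intro h
    apply ComputablePred.halting_problem 0
    obtain ⟨f, hf, hf'⟩ := ComputablePred.computable_iff.1 h
    refine ComputablePred.computable_iff.2 ⟨fun c => f (Encodable.encode c),
      hf.comp Computable.encode, ?_⟩
    funext c
    have := congrFun hf' (Encodable.encode c)
    rw [← this]
    simp [hS]
  have hre : Partrec (fun n : ℕ => Part.assert (n ∈ S) (fun _ => Part.some ())) := by
    have h1 : REPred fun c : Nat.Partrec.Code => (Nat.Partrec.Code.eval c 0).Dom :=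
      ComputablePred.halting_problem_re 0
    have h2 : Computable (Denumerable.ofNat Nat.Partrec.Code) := Computable.ofNat _
    exact Partrec.comp h1 h2
  obtain ⟨P, hP⟩ := exists_prg S hre
  obtain ⟨K, L, q0, qf, h1, h2, h3⟩ := exists_trs P
  refine ⟨S, hnc, K, L, q0, qf, h1, h2, fun n => ?_⟩
  rw [hP, h3]
  have : cfg q0 (update 0 0 n) = cinit q0 n := by
    funext j
    unfold cinit
    rcases j with _ | _ | j <;> simp [cfg]
  rw [this]

end Mach

end Pool.Agent.Helper85.ProP
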