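import Pool.Agent.Helper85.ProP.Alg

/-!
Statements of the building blocks of the theorem: a finitely generated torsion-free
metabelian pro-p group with decidable elementary theory has finite rank.
-/

set_option autoImplicit false

namespace Pool.Agent.Helper85.ProP

open IsLocalRing

/-! ### the norm of `1 - ζ` -/

/-- `‖1 - ζ‖ ^ φ(p^(j+1)) = ‖p‖` for a primitive root of unity of order `p^(j+1)` -/
def StmtNorm : Prop :=
  ∀ (p : ℕ) [Fact p.Prime] (j : ℕ) (ζ : PadicAlgCl p), IsPrimitiveRoot ζ (p ^ (j + 1)) →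
    ‖1 - ζ‖ ^ (p ^ j * (p - 1)) = (p : ℝ)⁻¹

/-! ### the dependence lemma -/

/-- Let `P` be maximal among the primes `P'` with `p ∉ P'` and `R ⧸ P'` not finite over `ℤ_p`.
If there are homomorphisms `φ m` from `R ⧸ P` to the algebraic closure of `ℚ_p`, bounded by one,
such that `φ m (ρ g)` is a primitive root of unity of order `p^(m+1)` and `φ m (ρ k)` is a root of
unity of `p`-power order, then `k` and `g` are dependent modulo `{q | ρ q - 1 ∈ P}`. -/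
def StmtDep : Prop :=
  ∀ (p : ℕ) [Fact p.Prime] (d : ℕ) (R : Type) [CommRing R] [IsLocalRing R] [IsNoetherianRing R]
    [Algebra ℤ_[p] R] (ρ : (Fin d → ℤ_[p]) → R), Hyp p ρ →
    ∀ (P : Ideal R), P.IsPrime → (p : R) ∉ P → ¬ Module.Finite ℤ_[p] (R ⧸ P) →
    (∀ P' : Ideal R, P'.IsPrime → P < P' → (p : R) ∉ P' → Module.Finite ℤ_[p] (R ⧸ P')) →
    ∀ (φ : ℕ → (R →+* PadicAlgCl p)), (∀ m, ∀ r ∈ P, φ m r = 0) → (∀ m r, ‖φ m r‖ ≤ 1) →
    ∀ (g k : Fin d → ℤ_[p]), (∀ m, IsPrimitiveRoot (φ m (ρ g)) (p ^ (m + 1))) →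
    (∀ m, ∃ s : ℕ, φ m (ρ k) ^ p ^ s = 1) →
    ∃ (s : ℕ) (α : ℤ_[p]), ρ ((p : ℤ_[p]) ^ s • k - α • g) - 1 ∈ P ∨
      ρ ((p : ℤ_[p]) ^ s • g - α • k) - 1 ∈ P

/-! ### existence of good elements -/

/-- the submodule `Σ (ρ(l_i) - 1) M` -/
def subN {p : ℕ} [Fact p.Prime] {d : ℕ} {R : Type} [CommRing R]
    (ρ : (Fin d → ℤ_[p]) → R) (M : Type*) [AddCommGroup M] [Module R M] {e : ℕ}
    (l : Fin e → (Fin d → ℤ_[p])) : Submodule R M :=
  Ideal.span (Set.range fun i => ρ (l i) - 1) • (⊤ : Submodule R M)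

/-- the submodule `x M` -/
def mulM {R : Type} [CommRing R] (x : R) (M : Type*) [AddCommGroup M] [Module R M] :
    Submodule R M :=
  Ideal.span {x} • (⊤ : Submodule R M)

/-- Existence of good parameters `l_1, …, l_e, g`: if the finitely generated module `M` has a prime
`P` in its support with `p ∉ P` and `R ⧸ P` not finite over `ℤ_p`, then there are `l_i` and `g`
such that, with `N = Σ (ρ(l_i) - 1) M`,
(i) every `h` with `(ρ h - 1) M ⊆ (ρ g - 1) M + N` acts on `M ⧸ N` like some `ρ (α g)`, `α ∈ ℤ_p`;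
(ii) for every `n` the quotient of `M ⧸ N` by `Ψ_n(ρ g)`, `Ψ_n = Σ_{i<p} X^(i p^n)`, is not
`p`-power torsion. -/
def StmtGood.{u} : Prop :=
  ∀ (p : ℕ) [Fact p.Prime] (d : ℕ) (R : Type) [CommRing R] [IsLocalRing R] [IsNoetherianRing R]
    [Algebra ℤ_[p] R] (ρ : (Fin d → ℤ_[p]) → R), Hyp p ρ →
    ∀ (M : Type u) [AddCommGroup M] [Module R M] [Module.Finite R M],
    (∃ P : Ideal R, P.IsPrime ∧ Module.annihilator R M ≤ P ∧ (p : R) ∉ P ∧
      ¬ Module.Finite ℤ_[p] (R ⧸ P)) →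
    ∃ (e : ℕ) (l : Fin e → (Fin d → ℤ_[p])) (g : Fin d → ℤ_[p]),
      (∀ h : Fin d → ℤ_[p], mulM (ρ h - 1) M ≤ mulM (ρ g - 1) M ⊔ subN ρ M l →
        ∃ α : ℤ_[p], ∀ m : M, (ρ h - ρ (α • g)) • m ∈ subN ρ M l) ∧
      (∀ n : ℕ, ∃ m : M, ∀ k : ℕ, ((p : R) ^ k) • m ∉
        mulM (∑ i ∈ Finset.range p, ρ g ^ (i * p ^ n)) M ⊔ subN ρ M l)

end Pool.Agent.Helper85.ProP
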