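import Pool.Agent.Helper85.ProP.Logic

/-!
Abstract systems: a preorder of times, a set `T` of active times, relations `Rel j` coding the
content of the register `j` at an active time, and the property `Good` that they describe a halting
run of a counter machine.
-/

set_option autoImplicit false

namespace Pool.Agent.Helper85.ProP

open Function

/-- kinds of transitions -/
inductive Kind : Type
  | inc | dec | zero | nop

/-- a transition of a counter machine: old state, new state, register, kind -/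
structure Tr : Type where
  q : ℕ
  q' : ℕ
  r : ℕ
  kind : Kind

/-- what a transition does with the register -/
def Kind.ok : Kind → ℕ → ℕ → Prop
  | .inc, a, b => b = a + 1
  | .dec, a, b => a = b + 1
  | .zero, a, b => a = 0 ∧ b = 0
  | .nop, a, b => a = b

/-- Configurations are maps `c : ℕ → ℕ`: `c 0` is the state, `c (r + 1)` the content of the
register `r`. `t.ok c c'`: the transition `t` leads from `c` to `c'`. -/
def Tr.ok (t : Tr) (c c' : ℕ → ℕ) : Prop :=
  c 0 = t.q ∧ c' 0 = t.q' ∧ (∀ j, 1 ≤ j → j ≠ t.r + 1 → c' j = c j) ∧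
    t.kind.ok (c (t.r + 1)) (c' (t.r + 1))

/-- one step of the machine given by a list of transitions -/
def mstep (L : List Tr) (c c' : ℕ → ℕ) : Prop := ∃ t ∈ L, t.ok c c'

/-- the initial configuration with input `n` in register `0` -/
def cinit (q0 n : ℕ) : ℕ → ℕ := fun j => if j = 0 then q0 else if j = 1 then n else 0

/-- a system on `X`: `le h k` means `h` is at least as late as `k` -/
structure Sys (X : Type*) where
  I : X → Prop
  le : X → X → Prop
  T : X → Prop
  Rel : ℕ → X → X → Prop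

namespace Sys

variable {X : Type*} (S : Sys X)

/-- `h` is strictly before `k` -/
def lt (h k : X) : Prop := S.le k h ∧ ¬ S.le h k

/-- `k` is the immediate successor of `h` -/
def Succ (h k : X) : Prop := S.I h ∧ S.I k ∧ S.lt h k ∧ ∀ l, S.I l → S.le l k ∨ S.le h l

/-- `k` is the time number `n` -/
def Idx : ℕ → X → Prop
  | 0, k => S.I k ∧ ∀ h, S.I h → S.le h k
  | n + 1, k => ∃ h, S.Succ h k ∧ Idx n h

/-- the effect of a transition on its register `r` -/
def kindR (r : ℕ) (h h' : X) : Kind → Prop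
  | .inc => ∃ k, ∃ k', S.Rel (r + 1) h k ∧ S.Rel (r + 1) h' k' ∧ S.Succ k k'
  | .dec => ∃ k, ∃ k', S.Rel (r + 1) h k ∧ S.Rel (r + 1) h' k' ∧ S.Succ k' k
  | .zero => ∃ k, S.Idx 0 k ∧ S.Rel (r + 1) h k ∧ S.Rel (r + 1) h' k
  | .nop => ∃ k, S.I k ∧ S.Rel (r + 1) h k ∧ S.Rel (r + 1) h' k

/-- the transition `t` leads from the configuration at `h` to the one at `h'` -/
def stepR (K : ℕ) (h h' : X) (t : Tr) : Prop :=
  (∃ k, S.Idx t.q k ∧ S.Rel 0 h k) ∧ (∃ k, S.Idx t.q' k ∧ S.Rel 0 h' k) ∧
    (∀ j ∈ Finset.range (K + 1), (1 ≤ j ∧ j ≠ t.r + 1) → ∃ k, S.I k ∧ S.Rel j h k ∧ S.Rel j h' k) ∧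
    S.kindR t.r h h' t.kind

/-- consecutive active times -/
def next (h h' : X) : Prop :=
  S.T h ∧ S.T h' ∧ S.lt h h' ∧ ∀ l, S.T l → ¬ (S.lt h l ∧ S.lt l h')

/-- `h` is the first active time -/
def first (h : X) : Prop := S.T h ∧ ∀ l, S.T l → ¬ S.lt l h

/-- the system describes a halting run with the input `Z` -/
def Good (K : ℕ) (L : List Tr) (q0 qf : ℕ) (Z : X) : Prop :=
  (∀ h, S.I h → ∀ k, S.I k → S.le h k ∨ S.le k h) ∧
  (∀ j ∈ Finset.range (K + 1), ∀ h, S.T h → ∀ k, (S.I k ∧ S.Rel j h k) →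
    ∀ k', (S.I k' ∧ S.Rel j h k') → S.le k k') ∧
  (∀ h, S.first h → (∃ k, S.Idx q0 k ∧ S.Rel 0 h k) ∧
    (∃ k, (S.I k ∧ S.Rel 1 h k) ∧ (S.le k Z ∧ S.le Z k)) ∧
    ∀ j ∈ Finset.range (K + 1), 2 ≤ j → ∃ k, S.Idx 0 k ∧ S.Rel j h k) ∧
  (∀ h, ∀ h', S.next h h' → ∃ t ∈ L, S.stepR K h h' t) ∧
  (∃ h, S.T h ∧ ∃ k, S.Idx qf k ∧ S.Rel 0 h k)

end Sys

/-! ### definability -/

section Def

variable {G : Type*} [Group G]

/-- a definable family of systems on `G` -/
structure DSys (m : ℕ) (S : (ℕ → G) → Sys G) : Prop where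
  I : D1 m (fun v => (S v).I)
  le : D2 m (fun v => (S v).le)
  T : D1 m (fun v => (S v).T)
  Rel : ∀ j, D2 m (fun v => (S v).Rel j)

variable {m : ℕ} {S : (ℕ → G) → Sys G}

lemma DSys.lt (H : DSys m S) : D2 m (fun v => (S v).lt) where
  dep v n z hn := by
    have := H.le.dep v n z hn
    funext h k
    simp only [Sys.lt] at this ⊢
    rw [this]
  df n hn s t hs ht := (H.le.df n hn _ _ ht hs).and (H.le.df n hn _ _ hs ht).not

lemma DSys.succ (H : DSys m S) : D2 m (fun v => (S v).Succ) where
  dep v n z hn := by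
    have h1 := H.le.dep v n z hn
    have h2 := H.I.dep v n z hn
    have h3 := H.lt.dep v n z hn
    funext h k
    simp only [Sys.Succ] at h1 h2 h3 ⊢
    rw [h1, h2, h3]
  df n hn s t hs ht := by
    refine (H.I.df n hn _ hs).and ((H.I.df n hn _ ht).and ((H.lt.df n hn _ _ hs ht).and
      (DF.all (R := fun v l => (S v).I l → (S v).le l (t v) ∨ (S v).le (s v) l) ?_ ?_)))
    · intro v z w
      have h1 := H.le.dep v n z hn
      have h2 := H.I.dep v n z hn
      try simp only at h1 h2
      rw [h1, h2, hs.upd le_rfl, ht.upd le_rfl]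
    · have hn' : m ≤ n + 1 := by omega
      exact (H.I.df _ hn' _ (TF.last n)).imp ((H.le.df _ hn' _ _ (TF.last n) ht.succ).or
        (H.le.df _ hn' _ _ hs.succ (TF.last n)))

lemma DSys.idx (H : DSys m S) (i : ℕ) : D1 m (fun v => (S v).Idx i) := by
  induction i with
  | zero =>
    refine ⟨fun v n z hn => ?_, fun n hn s hs => ?_⟩
    · have h1 := H.le.dep v n z hn
      have h2 := H.I.dep v n z hn
      funext h
      simp only [Sys.Idx] at h1 h2 ⊢
      rw [h1, h2]
    · refine (H.I.df n hn _ hs).and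
        (DF.all (R := fun v l => (S v).I l → (S v).le l (s v)) ?_ ?_)
      · intro v z w
        have h1 := H.le.dep v n z hn
        have h2 := H.I.dep v n z hn
        try simp only at h1 h2
        rw [h1, h2, hs.upd le_rfl]
      · have hn' : m ≤ n + 1 := by omega
        exact (H.I.df _ hn' _ (TF.last n)).imp (H.le.df _ hn' _ _ (TF.last n) hs.succ)
  | succ i ih =>
    refine ⟨fun v n z hn => ?_, fun n hn s hs => ?_⟩
    · have h1 := H.succ.dep v n z hn
      have h2 := ih.dep v n z hn
      funext h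
      simp only [Sys.Idx] at h1 h2 ⊢
      rw [h1, h2]
    · refine DF.ex (R := fun v h => (S v).Succ h (s v) ∧ (S v).Idx i h) ?_ ?_
      · intro v z w
        have h1 := H.succ.dep v n z hn
        have h2 := ih.dep v n z hn
        try simp only at h1 h2
        rw [h1, h2, hs.upd le_rfl]
      · have hn' : m ≤ n + 1 := by omega
        exact (H.succ.df _ hn' _ _ (TF.last n) hs.succ).and (ih.df _ hn' _ (TF.last n))

lemma DSys.kindR (H : DSys m S) (r : ℕ) (κ : Kind) :
    D2 m (fun v h h' => (S v).kindR r h h' κ) := by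
  have hRd := fun v n z (hn : m ≤ n) => (H.Rel (r + 1)).dep v n z hn
  have hSd := fun v n z (hn : m ≤ n) => H.succ.dep v n z hn
  have hId := fun v n z (hn : m ≤ n) => (H.idx 0).dep v n z hn
  have hI := fun v n z (hn : m ≤ n) => H.I.dep v n z hn
  try simp only at hRd hSd hId hI
  refine ⟨fun v n z hn => ?_, fun n hn s t hs ht => ?_⟩
  · funext h h'
    cases κ <;> simp only [Sys.kindR, hRd v n z hn, hSd v n z hn, hId v n z hn, hI v n z hn]
  · have hn1 : m ≤ n + 1 := by omega
    have hn2 : m ≤ n + 1 + 1 := by omega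
    cases κ with
    | inc =>
      simp only [Sys.kindR]
      refine DF.ex (R := fun v k => ∃ k', (S v).Rel (r + 1) (s v) k ∧ (S v).Rel (r + 1) (t v) k' ∧
        (S v).Succ k k') ?_ ?_
      · intro v z w
        simp only [hRd v n z hn, hSd v n z hn, hs.upd le_rfl, ht.upd le_rfl]
      · refine DF.ex (R := fun v k' => (S v).Rel (r + 1) (s v) (v n) ∧
          (S v).Rel (r + 1) (t v) k' ∧ (S v).Succ (v n) k') ?_ ?_
        · intro v z w
          simp only [hRd v _ z hn1, hSd v _ z hn1, hs.upd (Nat.le_succ n), ht.upd (Nat.le_succ n),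
            update_of_ne (Nat.lt_succ_self n).ne]
        · exact ((H.Rel (r + 1)).df _ hn2 _ _ hs.succ.succ (TF.last n).succ).and
            (((H.Rel (r + 1)).df _ hn2 _ _ ht.succ.succ (TF.last _)).and
              (H.succ.df _ hn2 _ _ (TF.last n).succ (TF.last _)))
    | dec =>
      simp only [Sys.kindR]
      refine DF.ex (R := fun v k => ∃ k', (S v).Rel (r + 1) (s v) k ∧ (S v).Rel (r + 1) (t v) k' ∧
        (S v).Succ k' k) ?_ ?_
      · intro v z w
        simp only [hRd v n z hn, hSd v n z hn, hs.upd le_rfl, ht.upd le_rfl]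
      · refine DF.ex (R := fun v k' => (S v).Rel (r + 1) (s v) (v n) ∧
          (S v).Rel (r + 1) (t v) k' ∧ (S v).Succ k' (v n)) ?_ ?_
        · intro v z w
          simp only [hRd v _ z hn1, hSd v _ z hn1, hs.upd (Nat.le_succ n), ht.upd (Nat.le_succ n),
            update_of_ne (Nat.lt_succ_self n).ne]
        · exact ((H.Rel (r + 1)).df _ hn2 _ _ hs.succ.succ (TF.last n).succ).and
            (((H.Rel (r + 1)).df _ hn2 _ _ ht.succ.succ (TF.last _)).and
              (H.succ.df _ hn2 _ _ (TF.last _) (TF.last n).succ))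
    | zero =>
      simp only [Sys.kindR]
      refine DF.ex (R := fun v k => (S v).Idx 0 k ∧ (S v).Rel (r + 1) (s v) k ∧
        (S v).Rel (r + 1) (t v) k) ?_ ?_
      · intro v z w
        simp only [hRd v n z hn, hId v n z hn, hs.upd le_rfl, ht.upd le_rfl]
      · exact ((H.idx 0).df _ hn1 _ (TF.last n)).and
          (((H.Rel (r + 1)).df _ hn1 _ _ hs.succ (TF.last _)).and
            ((H.Rel (r + 1)).df _ hn1 _ _ ht.succ (TF.last _)))
    | nop =>
      simp only [Sys.kindR]
      refine DF.ex (R := fun v k => (S v).I k ∧ (S v).Rel (r + 1) (s v) k ∧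
        (S v).Rel (r + 1) (t v) k) ?_ ?_
      · intro v z w
        simp only [hRd v n z hn, hI v n z hn, hs.upd le_rfl, ht.upd le_rfl]
      · exact (H.I.df _ hn1 _ (TF.last n)).and
          (((H.Rel (r + 1)).df _ hn1 _ _ hs.succ (TF.last _)).and
            ((H.Rel (r + 1)).df _ hn1 _ _ ht.succ (TF.last _)))

lemma DF.const_imp {n : ℕ} {P : (ℕ → G) → Prop} (c : Prop) (h : c → DF n P) :
    DF n (fun v => c → P v) := by
  by_cases hc : c
  · exact (h hc).of_iff fun v => by simp [hc]
  · exact DF.true.of_iff fun v => by simp [hc]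

lemma DSys.stepR (H : DSys m S) (K : ℕ) (t : Tr) :
    D2 m (fun v h h' => (S v).stepR K h h' t) := by
  have hRd := fun v n z j (hn : m ≤ n) => (H.Rel j).dep v n z hn
  have hkd := fun v n z (hn : m ≤ n) => (H.kindR t.r t.kind).dep v n z hn
  have hId := fun v n z i (hn : m ≤ n) => (H.idx i).dep v n z hn
  have hI := fun v n z (hn : m ≤ n) => H.I.dep v n z hn
  try simp only at hRd hId hI hkd
  refine ⟨fun v n z hn => ?_, fun n hn s r hs hr => ?_⟩
  · funext h h'
    simp only [Sys.stepR, hRd v n z _ hn, hId v n z _ hn, hI v n z hn]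
    have := congrFun (congrFun (hkd v n z hn) h) h'
    try simp only at this
    rw [this]
  · have hn1 : m ≤ n + 1 := by omega
    refine (DF.ex (R := fun v k => (S v).Idx t.q k ∧ (S v).Rel 0 (s v) k) ?_ ?_).and
      ((DF.ex (R := fun v k => (S v).Idx t.q' k ∧ (S v).Rel 0 (r v) k) ?_ ?_).and
      ((DF.ballFin _ (fun j hj => DF.const_imp _ fun hj' =>
        DF.ex (R := fun v k => (S v).I k ∧ (S v).Rel j (s v) k ∧ (S v).Rel j (r v) k) ?_ ?_)).and
      ((H.kindR t.r t.kind).df n hn _ _ hs hr)))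
    · intro v z w
      simp only [hRd v n z _ hn, hId v n z _ hn, hs.upd le_rfl]
    · exact ((H.idx _).df _ hn1 _ (TF.last n)).and
          ((H.Rel _).df _ hn1 _ _ hs.succ (TF.last _))
    · intro v z w
      simp only [hRd v n z _ hn, hId v n z _ hn, hr.upd le_rfl]
    · exact ((H.idx _).df _ hn1 _ (TF.last n)).and
          ((H.Rel _).df _ hn1 _ _ hr.succ (TF.last _))
    · intro v z w
      simp only [hRd v n z _ hn, hI v n z hn, hs.upd le_rfl, hr.upd le_rfl]
    · exact (H.I.df _ hn1 _ (TF.last n)).and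
          (((H.Rel _).df _ hn1 _ _ hs.succ (TF.last _)).and
            ((H.Rel _).df _ hn1 _ _ hr.succ (TF.last _)))

lemma DSys.next (H : DSys m S) : D2 m (fun v => (S v).next) := by
  have hl := fun v n z (hn : m ≤ n) => H.lt.dep v n z hn
  have hT := fun v n z (hn : m ≤ n) => H.T.dep v n z hn
  try simp only at hl hT
  refine ⟨fun v n z hn => ?_, fun n hn s t hs ht => ?_⟩
  · funext h h'
    simp only [Sys.next, hl v n z hn, hT v n z hn]
  · have hn1 : m ≤ n + 1 := by omega
    refine (H.T.df n hn _ hs).and ((H.T.df n hn _ ht).and ((H.lt.df n hn _ _ hs ht).and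
      (DF.all (R := fun v l => (S v).T l → ¬ ((S v).lt (s v) l ∧ (S v).lt l (t v))) ?_ ?_)))
    · intro v z w
      simp only [hl v n z hn, hT v n z hn, hs.upd le_rfl, ht.upd le_rfl]
    · exact (H.T.df _ hn1 _ (TF.last n)).imp ((H.lt.df _ hn1 _ _ hs.succ (TF.last n)).and
        (H.lt.df _ hn1 _ _ (TF.last n) ht.succ)).not

lemma DSys.first (H : DSys m S) : D1 m (fun v => (S v).first) := by
  have hl := fun v n z (hn : m ≤ n) => H.lt.dep v n z hn
  have hT := fun v n z (hn : m ≤ n) => H.T.dep v n z hn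
  try simp only at hl hT
  refine ⟨fun v n z hn => ?_, fun n hn s hs => ?_⟩
  · funext h
    simp only [Sys.first, hl v n z hn, hT v n z hn]
  · have hn1 : m ≤ n + 1 := by omega
    refine (H.T.df n hn _ hs).and
      (DF.all (R := fun v l => (S v).T l → ¬ (S v).lt l (s v)) ?_ ?_)
    · intro v z w
      simp only [hl v n z hn, hT v n z hn, hs.upd le_rfl]
    · exact (H.T.df _ hn1 _ (TF.last n)).imp (H.lt.df _ hn1 _ _ (TF.last n) hs.succ).not

theorem DSys.good (H : DSys m S) (K : ℕ) (L : List Tr) (q0 qf : ℕ) :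
    D1 m (fun v Z => (S v).Good K L q0 qf Z) := by
  have hl := fun v n z (hn : m ≤ n) => H.le.dep v n z hn
  have hT := fun v n z (hn : m ≤ n) => H.T.dep v n z hn
  have hRd := fun v n z j (hn : m ≤ n) => (H.Rel j).dep v n z hn
  have hId := fun v n z i (hn : m ≤ n) => (H.idx i).dep v n z hn
  have hI := fun v n z (hn : m ≤ n) => H.I.dep v n z hn
  have hfi := fun v n z (hn : m ≤ n) => H.first.dep v n z hn
  have hne := fun v n z (hn : m ≤ n) => H.next.dep v n z hn
  have hst := fun v n z t h h' (hn : m ≤ n) =>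
    congrFun (congrFun ((H.stepR K t).dep v n z hn) h) h'
  try simp only at hl hT hRd hId hI hfi hne hst
  refine ⟨fun v n z hn => ?_, fun n hn s hs => ?_⟩
  · funext Z
    simp only [Sys.Good, hl v n z hn, hT v n z hn, hRd v n z _ hn, hId v n z _ hn, hI v n z hn,
      hfi v n z hn, hne v n z hn, hst v n z _ _ _ hn]
  · have hn1 : m ≤ n + 1 := by omega
    have hn2 : m ≤ n + 1 + 1 := by omega
    have hn3 : m ≤ n + 1 + 1 + 1 := by omega
    have e1 : n ≠ n + 1 := by omega
    have e2 : n ≠ n + 1 + 1 := by omega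
    have e3 : n + 1 ≠ n + 1 + 1 := by omega
    refine DF.and ?_ (DF.and ?_ (DF.and ?_ (DF.and ?_ ?_)))
    · refine DF.all (R := fun v h => (S v).I h → ∀ k, (S v).I k → (S v).le h k ∨ (S v).le k h) ?_ ?_
      · intro v z w; simp only [hl v n z hn, hI v n z hn]
      · refine (H.I.df _ hn1 _ (TF.last n)).imp (DF.all (R := fun v k => (S v).I k →
          (S v).le (v n) k ∨ (S v).le k (v n)) ?_ ?_)
        · intro v z w; simp only [hl v _ z hn1, hI v _ z hn1, update_of_ne e1]
        · exact (H.I.df _ hn2 _ (TF.last _)).imp ((H.le.df _ hn2 _ _ (TF.last n).succ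
            (TF.last _)).or (H.le.df _ hn2 _ _ (TF.last _) (TF.last n).succ))
    · refine DF.ballFin _ fun j hj => ?_
      refine DF.all (R := fun v h => (S v).T h → ∀ k, ((S v).I k ∧ (S v).Rel j h k) →
        ∀ k', ((S v).I k' ∧ (S v).Rel j h k') → (S v).le k k') ?_ ?_
      · intro v z w; simp only [hl v n z hn, hI v n z hn, hT v n z hn, hRd v n z _ hn]
      · refine (H.T.df _ hn1 _ (TF.last n)).imp (DF.all (R := fun v k => ((S v).I k ∧
          (S v).Rel j (v n) k) → ∀ k', ((S v).I k' ∧ (S v).Rel j (v n) k') → (S v).le k k') ?_ ?_)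
        · intro v z w; simp only [hl v _ z hn1, hI v _ z hn1, hRd v _ z _ hn1, update_of_ne e1]
        · refine ((H.I.df _ hn2 _ (TF.last _)).and ((H.Rel j).df _ hn2 _ _ (TF.last n).succ
            (TF.last _))).imp (DF.all (R := fun v k' => ((S v).I k' ∧ (S v).Rel j (v n) k') →
              (S v).le (v (n + 1)) k') ?_ ?_)
          · intro v z w
            simp only [hl v _ z hn2, hI v _ z hn2, hRd v _ z _ hn2, update_of_ne e2,
              update_of_ne e3]
          · exact ((H.I.df _ hn3 _ (TF.last _)).and ((H.Rel j).df _ hn3 _ _ (TF.last n).succ.succ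
              (TF.last _))).imp (H.le.df _ hn3 _ _ (TF.last (n + 1)).succ (TF.last _))
    · refine DF.all (R := fun v h => (S v).first h → (∃ k, (S v).Idx q0 k ∧ (S v).Rel 0 h k) ∧
        (∃ k, ((S v).I k ∧ (S v).Rel 1 h k) ∧ ((S v).le k (s v) ∧ (S v).le (s v) k)) ∧
        ∀ j ∈ Finset.range (K + 1), 2 ≤ j → ∃ k, (S v).Idx 0 k ∧ (S v).Rel j h k) ?_ ?_
      · intro v z w
        simp only [hl v n z hn, hI v n z hn, hRd v n z _ hn, hId v n z _ hn, hfi v n z hn,
          hs.upd le_rfl]
      · refine (H.first.df _ hn1 _ (TF.last n)).imp (DF.and ?_ (DF.and ?_ ?_))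
        · refine DF.ex (R := fun v k => (S v).Idx q0 k ∧ (S v).Rel 0 (v n) k) ?_ ?_
          · intro v z w; simp only [hId v _ z _ hn1, hRd v _ z _ hn1, update_of_ne e1]
          · exact ((H.idx _).df _ hn2 _ (TF.last _)).and
              ((H.Rel _).df _ hn2 _ _ (TF.last n).succ (TF.last _))
        · refine DF.ex (R := fun v k => ((S v).I k ∧ (S v).Rel 1 (v n) k) ∧
            ((S v).le k (s v) ∧ (S v).le (s v) k)) ?_ ?_
          · intro v z w
            simp only [hl v _ z hn1, hI v _ z hn1, hRd v _ z _ hn1, update_of_ne e1,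
              hs.upd (Nat.le_succ n)]
          · exact ((H.I.df _ hn2 _ (TF.last _)).and
              ((H.Rel _).df _ hn2 _ _ (TF.last n).succ (TF.last _))).and
              ((H.le.df _ hn2 _ _ (TF.last _) hs.succ.succ).and
              (H.le.df _ hn2 _ _ hs.succ.succ (TF.last _)))
        · refine DF.ballFin _ fun j hj => DF.const_imp _ fun hj' => ?_
          refine DF.ex (R := fun v k => (S v).Idx 0 k ∧ (S v).Rel j (v n) k) ?_ ?_
          · intro v z w; simp only [hId v _ z _ hn1, hRd v _ z _ hn1, update_of_ne e1]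
          · exact ((H.idx _).df _ hn2 _ (TF.last _)).and
              ((H.Rel _).df _ hn2 _ _ (TF.last n).succ (TF.last _))
    · refine DF.all (R := fun v h => ∀ h', (S v).next h h' → ∃ t ∈ L, (S v).stepR K h h' t) ?_ ?_
      · intro v z w; simp only [hne v n z hn, hst v n z _ _ _ hn]
      · refine DF.all (R := fun v h' => (S v).next (v n) h' →
          ∃ t ∈ L, (S v).stepR K (v n) h' t) ?_ ?_
        · intro v z w; simp only [hne v _ z hn1, hst v _ z _ _ _ hn1, update_of_ne e1]
        · refine (H.next.df _ hn2 _ _ (TF.last n).succ (TF.last _)).imp (DF.bexList _ fun t ht => ?_)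
          exact (H.stepR K t).df _ hn2 _ _ (TF.last n).succ (TF.last _)
    · refine DF.ex (R := fun v h => (S v).T h ∧ ∃ k, (S v).Idx qf k ∧ (S v).Rel 0 h k) ?_ ?_
      · intro v z w; simp only [hT v n z hn, hId v n z _ hn, hRd v n z _ hn]
      · refine (H.T.df _ hn1 _ (TF.last n)).and
          (DF.ex (R := fun v k => (S v).Idx qf k ∧ (S v).Rel 0 (v n) k) ?_ ?_)
        · intro v z w; simp only [hId v _ z _ hn1, hRd v _ z _ hn1, update_of_ne e1]
        · exact ((H.idx _).df _ hn2 _ (TF.last _)).and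
              ((H.Rel _).df _ hn2 _ _ (TF.last n).succ (TF.last _))

end Def

end Pool.Agent.Helper85.ProP
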